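import Mathlib
import Pool.Agent.FIB.Basic
import Pool.Agent.FIB.Disc

set_option autoImplicit false

/-!
KUB (MP_36674f_nt): upper bounds for the discrepancy of two-dimensional Kronecker sequences.
Definitions and their elementary properties (complete).

* `nn x` (from FIB.Basic) is the distance of `x` to the nearest integer,
* `e x = exp(2πix)`,
* `r h = max(1,|h|)`, `w α β (h,m) = r h * r m * nn (hα+mβ)`,
* `Th x = min(1/x, 1/x²)` in `ℝ≥0∞` (so `Th 0 = ∞`),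
* `lg h = ⌊log₂|h|⌋` (`0` for `h = 0`),
* `P a b` = the pairs `(h,m)`, `m ≠ 0`, with `a ≤ lg h + lg m < b`.
-/

namespace Pool.Agent.KUB

open Pool.Agent.FIB (nn)
open scoped ENNReal

/-- `e x = exp(2πix)` -/
noncomputable def e (x : ℝ) : ℂ := Complex.exp (2 * Real.pi * Complex.I * x)

/-- `r h = max(1,|h|)` -/
noncomputable def r (h : ℤ) : ℝ := max 1 |(h : ℝ)|

/-- the linear form `hα + mβ` -/
noncomputable def lf (α β : ℝ) (p : ℤ × ℤ) : ℝ := p.1 * α + p.2 * β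

/-- the weighted size of the linear form, `w = r(h) r(m) ‖hα+mβ‖` -/
noncomputable def w (α β : ℝ) (p : ℤ × ℤ) : ℝ := r p.1 * r p.2 * nn (lf α β p)

/-- `min(1/x, 1/x²)` in `ℝ≥0∞` -/
noncomputable def Th (x : ℝ) : ℝ≥0∞ := min (ENNReal.ofReal x)⁻¹ ((ENNReal.ofReal x)⁻¹ ^ 2)

/-- `min(1, 1/y²)` in `ℝ≥0∞` -/
noncomputable def Xf (y : ℝ) : ℝ≥0∞ := min 1 ((ENNReal.ofReal y)⁻¹ ^ 2)

/-- sum over all `p ≠ 0` -/
noncomputable def z0 (f : ℤ × ℤ → ℝ≥0∞) : ℝ≥0∞ := ∑' p : ℤ × ℤ, if p = 0 then 0 else f p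

/-- `c_n(h) = min(1, 2^n/r(h))` -/
noncomputable def cn (n : ℕ) (h : ℤ) : ℝ := min 1 (2 ^ n / r h)

/-- main profile weight `ψ_i(h) = min(r/2^i, (2^i/r)³)` -/
noncomputable def psi (i : ℕ) (h : ℤ) : ℝ := min (r h / 2 ^ i) ((2 ^ i / r h) ^ 3)

/-- majorant profile weight `ψ'_i(h) = min(1, (2^i/r)³)` -/
noncomputable def psi' (i : ℕ) (h : ℤ) : ℝ := min 1 ((2 ^ i / r h) ^ 3)

/-- `lg h = ⌊log₂ |h|⌋`, `lg 0 = 0` -/
def lg (h : ℤ) : ℕ := Nat.log 2 h.natAbs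

/-- the pairs `(h,m)`, `m ≠ 0`, with `a ≤ lg h + lg m < b` -/
noncomputable def P (a b : ℕ) : Finset (ℤ × ℤ) :=
  ((Finset.Ioo (-(2 : ℤ) ^ b) (2 ^ b)) ×ˢ (Finset.Ioo (-(2 : ℤ) ^ b) (2 ^ b))).filter
    (fun p => p.2 ≠ 0 ∧ a ≤ lg p.1 + lg p.2 ∧ lg p.1 + lg p.2 < b)

/-- `α` is badly approximable with constant `c` -/
def BA (α c : ℝ) : Prop := 0 < c ∧ c ≤ 1 ∧ ∀ q : ℕ, 1 ≤ q → c ≤ q * nn (q * α)

/-- `∑_{p ∈ P a b} Th(w(p))` -/
noncomputable def ST (a b : ℕ) (α β : ℝ) : ℝ≥0∞ := ∑ p ∈ P a b, Th (w α β p)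

/-- `∑_{p ∈ P a b} min(2^A, Th(w(p)))` -/
noncomputable def STA (A a b : ℕ) (α β : ℝ) : ℝ≥0∞ := ∑ p ∈ P a b, min (2 ^ A) (Th (w α β p))

/-- the number of `p ∈ P a b` with `w(p) < 2/2^A` -/
noncomputable def NV (A a b : ℕ) (α β : ℝ) : ℝ≥0∞ :=
  ∑ p ∈ P a b, if w α β p < 2 / 2 ^ A then 1 else 0

/-- the closed interval `[x, x + 2^{-μ}]` -/
def Jn (x : ℝ) (μ : ℕ) : Set ℝ := Set.Icc x (x + (2 ^ μ)⁻¹)

/-- the good `β` for `α` and the rate `L` : `∑_{lg h + lg m < t, m ≠ 0} Th(w) ≤ Q (t+1)² L(t)` -/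
def Good (α : ℝ) (L : ℕ → ℝ) : Set ℝ :=
  {β | ∃ Q : ℝ, 0 < Q ∧ ∀ t : ℕ, ST 0 t α β ≤ ENNReal.ofReal (Q * (t + 1) ^ 2 * L t)}

/-- cost of the part of a cover `[x_l - d_l, x_l + d_l]` hitting `J` -/
noncomputable def Wc (xs ds : ℕ → ℝ) (s : ℝ) (J : Set ℝ) : ℝ≥0∞ :=
  open Classical in
  ∑' l : ℕ, if (Set.Icc (xs l - ds l) (xs l + ds l) ∩ J).Nonempty
    then ENNReal.ofReal (ds l) ^ s else 0

theorem one_le_r (h : ℤ) : 1 ≤ r h := le_max_left _ _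

theorem r_pos (h : ℤ) : 0 < r h := lt_of_lt_of_le one_pos (one_le_r h)

theorem abs_le_r (h : ℤ) : |(h : ℝ)| ≤ r h := le_max_right _ _

theorem r_zero : r 0 = 1 := by simp [r]

theorem r_of_ne {h : ℤ} (hh : h ≠ 0) : r h = |(h : ℝ)| := by
  have h1 : (1 : ℤ) ≤ |h| := Int.one_le_abs hh
  have h2 : (1 : ℝ) ≤ |(h : ℝ)| := by exact_mod_cast h1
  exact max_eq_right h2

theorem w_nonneg (α β : ℝ) (p : ℤ × ℤ) : 0 ≤ w α β p :=
  mul_nonneg (mul_nonneg (r_pos _).le (r_pos _).le) (Pool.Agent.FIB.nn_nonneg _)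

theorem r_eq_natAbs {h : ℤ} (hh : h ≠ 0) : r h = (h.natAbs : ℝ) := by
  rw [r_of_ne hh, Nat.cast_natAbs]; push_cast; rfl

theorem two_pow_lg_le (h : ℤ) : (2 : ℝ) ^ lg h ≤ r h := by
  by_cases hh : h = 0
  · subst hh; simp [lg, r_zero]
  · rw [r_eq_natAbs hh]
    have := Nat.pow_log_le_self 2 (x := h.natAbs) (by simpa using hh)
    unfold lg
    exact_mod_cast this

theorem r_lt_two_pow (h : ℤ) : r h < 2 ^ (lg h + 1) := by
  by_cases hh : h = 0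
  · subst hh; simp [lg, r_zero]
  · rw [r_eq_natAbs hh]
    have := Nat.lt_pow_succ_log_self (b := 2) (by norm_num) h.natAbs
    unfold lg
    exact_mod_cast this

theorem mem_P {a b : ℕ} {p : ℤ × ℤ} :
    p ∈ P a b ↔ p.2 ≠ 0 ∧ a ≤ lg p.1 + lg p.2 ∧ lg p.1 + lg p.2 < b := by
  unfold P
  rw [Finset.mem_filter, Finset.mem_product, Finset.mem_Ioo, Finset.mem_Ioo]
  constructor
  · rintro ⟨-, h⟩; exact h
  · rintro ⟨h0, h1, h2⟩
    refine ⟨?_, h0, h1, h2⟩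
    have key : ∀ z : ℤ, lg z < b → -(2 : ℤ) ^ b < z ∧ z < 2 ^ b := by
      intro z hz
      have h3 := Nat.lt_pow_of_log_lt (b := 2) (by norm_num) (x := b) (y := z.natAbs) hz
      have h4 : |z| < (2 : ℤ) ^ b := by
        rw [Int.abs_eq_natAbs]; exact_mod_cast h3
      exact abs_lt.mp h4
    exact ⟨key _ (by omega), key _ (by omega)⟩

theorem P_union {a b c : ℕ} (hab : a ≤ b) (hbc : b ≤ c) :
    P a c = P a b ∪ P b c := by
  ext p
  rw [Finset.mem_union, mem_P, mem_P, mem_P]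
  constructor
  · rintro ⟨h0, h1, h2⟩
    by_cases h : lg p.1 + lg p.2 < b
    · exact Or.inl ⟨h0, h1, h⟩
    · exact Or.inr ⟨h0, by omega, h2⟩
  · rintro (⟨h0, h1, h2⟩ | ⟨h0, h1, h2⟩)
    · exact ⟨h0, h1, by omega⟩
    · exact ⟨h0, by omega, h2⟩

theorem P_disjoint (a b c : ℕ) : Disjoint (P a b) (P b c) := by
  rw [Finset.disjoint_left]
  intro p h1 h2
  rw [mem_P] at h1 h2
  omega

theorem ST_add {a b c : ℕ} (hab : a ≤ b) (hbc : b ≤ c) (α β : ℝ) :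
    ST a c α β = ST a b α β + ST b c α β := by
  unfold ST
  rw [P_union hab hbc, Finset.sum_union (P_disjoint a b c)]

theorem STA_add {a b c : ℕ} (hab : a ≤ b) (hbc : b ≤ c) (A : ℕ) (α β : ℝ) :
    STA A a c α β = STA A a b α β + STA A b c α β := by
  unfold STA
  rw [P_union hab hbc, Finset.sum_union (P_disjoint a b c)]

theorem NV_add {a b c : ℕ} (hab : a ≤ b) (hbc : b ≤ c) (A : ℕ) (α β : ℝ) :
    NV A a c α β = NV A a b α β + NV A b c α β := by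
  unfold NV
  rw [P_union hab hbc, Finset.sum_union (P_disjoint a b c)]

theorem continuous_nn : Continuous nn := by
  unfold nn
  exact continuous_norm.comp (AddCircle.continuous_mk' 1)

theorem continuous_w (α : ℝ) (p : ℤ × ℤ) : Continuous (fun β => w α β p) := by
  unfold w lf
  exact continuous_const.mul (continuous_nn.comp (by fun_prop))

theorem measurable_Th : Measurable Th := by
  unfold Th
  exact (ENNReal.measurable_ofReal.inv).min ((ENNReal.measurable_ofReal.inv).pow_const 2)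

theorem measurable_STA (A a b : ℕ) (α : ℝ) : Measurable (fun β => STA A a b α β) := by
  unfold STA
  exact Finset.measurable_sum _ fun p _ =>
    measurable_const.min (measurable_Th.comp (continuous_w α p).measurable)

theorem measurable_ST (a b : ℕ) (α : ℝ) : Measurable (fun β => ST a b α β) := by
  unfold ST
  exact Finset.measurable_sum _ fun p _ => (measurable_Th.comp (continuous_w α p).measurable)

theorem measurableSet_w_lt (α t : ℝ) (p : ℤ × ℤ) : MeasurableSet {β | w α β p < t} :=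
  measurableSet_lt (continuous_w α p).measurable measurable_const

theorem measurable_NV (A a b : ℕ) (α : ℝ) : Measurable (fun β => NV A a b α β) := by
  unfold NV
  exact Finset.measurable_sum _ fun p _ =>
    Measurable.ite (measurableSet_w_lt α _ p) measurable_const measurable_const

theorem measurableSet_Jn (x : ℝ) (μ : ℕ) : MeasurableSet (Jn x μ) := measurableSet_Icc

theorem volume_Jn (x : ℝ) (μ : ℕ) :
    MeasureTheory.volume (Jn x μ) = ENNReal.ofReal ((2 ^ μ)⁻¹) := by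
  unfold Jn; rw [Real.volume_Icc]; congr 1; ring

theorem isCompact_Jn (x : ℝ) (μ : ℕ) : IsCompact (Jn x μ) := isCompact_Icc

theorem sub_Jn (x : ℝ) (μ ν t : ℕ) (ht : t < 2 ^ ν) :
    Jn (x + t * (2 ^ (μ + ν))⁻¹) (μ + ν) ⊆ Jn x μ := by
  intro y hy
  unfold Jn at *
  rw [Set.mem_Icc] at *
  have h0 : (0 : ℝ) < (2 ^ (μ + ν))⁻¹ := by positivity
  have h1 : ((t : ℝ) + 1) ≤ 2 ^ ν := by exact_mod_cast ht
  have h2 : ((2 : ℝ) ^ μ)⁻¹ = 2 ^ ν * (2 ^ (μ + ν))⁻¹ := by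
    rw [pow_add]; field_simp
  have h3 : ((t : ℝ) + 1) * (2 ^ (μ + ν))⁻¹ ≤ 2 ^ ν * (2 ^ (μ + ν))⁻¹ :=
    mul_le_mul_of_nonneg_right h1 h0.le
  have h4 : 0 ≤ (t : ℝ) * (2 ^ (μ + ν))⁻¹ := by positivity
  constructor
  · linarith [hy.1]
  · rw [h2]; nlinarith [hy.2]

end Pool.Agent.KUB
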