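import Mathlib
import Pool.Agent.KUB.Defs

set_option autoImplicit false

/-!
KUB module Av: the one-sided average `Av δ F x = δ⁻¹ ∫_0^δ F(x+t) dt` of a measurable 1-periodic
function `F` with values in `[0,1]`.

* `Nice.av`: `Av δ F` is again measurable (it is continuous), 1-periodic, with values in `[0,1]`
  (`0 ≤ ∫_0^δ F(x+t) dt ≤ δ`).
* `continuous_av`: `∫_0^δ F(x+t) dt = ∫_x^{x+δ} F = Φ(x+δ) - Φ(x)` with `Φ(x) = ∫_0^x F`, which is
  continuous (`intervalIntegral.continuous_primitive`; `F` is bounded and measurable, hence interval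
  integrable).
* `av_of_const`: the integrand is the constant `c`.
* `shift`: translates of nice functions are nice.
-/

namespace Pool.Agent.KUB

/-- measurable, 1-periodic, values in `[0,1]` -/
structure Nice (F : ℝ → ℝ) : Prop where
  meas : Measurable F
  per : ∀ x, F (x + 1) = F x
  nonneg : ∀ x, 0 ≤ F x
  le_one : ∀ x, F x ≤ 1

/-- the average over `[x, x+δ]` -/
noncomputable def Av (δ : ℝ) (F : ℝ → ℝ) (x : ℝ) : ℝ := δ⁻¹ * ∫ t in (0 : ℝ)..δ, F (x + t)

theorem Nice.intervalIntegrable {F : ℝ → ℝ} (hF : Nice F) (a b : ℝ) :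
    IntervalIntegrable F MeasureTheory.volume a b := by
  refine (intervalIntegrable_const (c := (1 : ℝ))).mono_fun hF.meas.aestronglyMeasurable ?_
  refine Filter.Eventually.of_forall fun x => ?_
  show ‖F x‖ ≤ ‖(1 : ℝ)‖
  rw [Real.norm_eq_abs, Real.norm_eq_abs, abs_one, abs_of_nonneg (hF.nonneg x)]
  exact hF.le_one x

theorem Nice.shift {F : ℝ → ℝ} (hF : Nice F) (s : ℝ) : Nice (fun x => F (x + s)) where
  meas := hF.meas.comp (measurable_id.add_const s)
  per := fun x => by
    show F (x + 1 + s) = F (x + s)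
    rw [add_right_comm]
    exact hF.per _
  nonneg := fun x => hF.nonneg _
  le_one := fun x => hF.le_one _

theorem Nice.per_int {F : ℝ → ℝ} (hF : Nice F) (x : ℝ) (z : ℤ) : F (x + z) = F x := by
  have h : Function.Periodic F 1 := hF.per
  have := h.int_mul z x
  rwa [mul_one] at this

theorem av_eq {F : ℝ → ℝ} (δ x : ℝ) : Av δ F x = δ⁻¹ * ∫ t in x..(x + δ), F t := by
  unfold Av
  rw [intervalIntegral.integral_comp_add_left (fun t => F t) x, add_zero]

theorem continuous_av {F : ℝ → ℝ} (hF : Nice F) (δ : ℝ) : Continuous (Av δ F) := by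
  have h1 : Av δ F = fun x => δ⁻¹ * ((∫ t in (0 : ℝ)..(x + δ), F t) - ∫ t in (0 : ℝ)..x, F t) := by
    funext x
    rw [av_eq, intervalIntegral.integral_interval_sub_left (hF.intervalIntegrable _ _)
      (hF.intervalIntegrable _ _)]
  have h2 : Continuous fun x => ∫ t in (0 : ℝ)..x, F t :=
    intervalIntegral.continuous_primitive (fun a b => hF.intervalIntegrable a b) 0
  rw [h1]
  exact continuous_const.mul ((h2.comp (continuous_id.add continuous_const)).sub h2)

theorem Nice.av {F : ℝ → ℝ} (hF : Nice F) {δ : ℝ} (hδ : 0 < δ) : Nice (Av δ F) where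
  meas := (continuous_av hF δ).measurable
  per := fun x => by
    unfold Av
    congr 1
    refine intervalIntegral.integral_congr fun t _ => ?_
    show F (x + 1 + t) = F (x + t)
    rw [add_right_comm]
    exact hF.per _
  nonneg := fun x => by
    unfold Av
    exact mul_nonneg (inv_nonneg.mpr hδ.le)
      (intervalIntegral.integral_nonneg hδ.le fun t _ => hF.nonneg _)
  le_one := fun x => by
    rw [av_eq]
    have h1 : ∫ t in x..(x + δ), F t ≤ ∫ _t in x..(x + δ), (1 : ℝ) :=
      intervalIntegral.integral_mono_on (by linarith) (hF.intervalIntegrable _ _)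
        intervalIntegrable_const fun t _ => hF.le_one t
    rw [intervalIntegral.integral_const, smul_eq_mul, mul_one, add_sub_cancel_left] at h1
    calc δ⁻¹ * ∫ t in x..(x + δ), F t ≤ δ⁻¹ * δ :=
          mul_le_mul_of_nonneg_left h1 (inv_nonneg.mpr hδ.le)
      _ = 1 := inv_mul_cancel₀ hδ.ne'

theorem av_of_const {F : ℝ → ℝ} {δ : ℝ} (hδ : 0 < δ) {x c : ℝ}
    (h : ∀ t, 0 ≤ t → t ≤ δ → F (x + t) = c) : Av δ F x = c := by
  unfold Av
  have h1 : ∫ t in (0 : ℝ)..δ, F (x + t) = ∫ _t in (0 : ℝ)..δ, c := by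
    refine intervalIntegral.integral_congr fun t ht => ?_
    rw [Set.uIcc_of_le hδ.le] at ht
    exact h t ht.1 ht.2
  rw [h1, intervalIntegral.integral_const, smul_eq_mul, sub_zero, ← mul_assoc,
    inv_mul_cancel₀ hδ.ne', one_mul]

end Pool.Agent.KUB
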