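import Mathlib
import Pool.Agent.KUB.Defs

set_option autoImplicit false

/-!
KUB module Exp: the exponential `e` and geometric sums.

`‖e x - 1‖ = 2|sin πx|`, and `|sin πx| ≥ 2‖x‖` (Jordan: write `x = z + y` with `z = round x`,
`|y| ≤ 1/2`, `nn x = |y|`; `Real.mul_le_sin`: `2/π * t ≤ sin t` on `[0,π/2]` with `t = π|y|`).

`norm_geom_le`: if `nn θ = 0` the right side is `∞`.  Otherwise `(e θ - 1) ∑_{q<N} e(qθ) = e(Nθ) - 1`
(induction, or `geom_sum_eq`/`mul_geom_sum` with `e (q*θ) = (e θ)^q`), so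
`4 nn θ * ‖∑‖ ≤ ‖e θ - 1‖ ‖∑‖ = ‖e(Nθ) - 1‖ ≤ 2`, i.e. `‖∑‖ ≤ 1/(2 nn θ)`.

`norm_avg_sq_le`: `‖∑‖ ≤ M` gives the bound `1`; `‖∑‖ ≤ 1/(2 nn θ)` gives
`(M⁻¹/(2 nn θ))² ≤ (1/(M nn θ))²`.
-/

namespace Pool.Agent.KUB

open Pool.Agent.FIB
open scoped ENNReal

theorem e_zero : e 0 = 1 := by
  simp [e]

theorem e_add (x y : ℝ) : e (x + y) = e x * e y := by
  unfold e
  rw [← Complex.exp_add]
  congr 1
  push_cast
  ring

theorem e_int (z : ℤ) : e z = 1 := by
  unfold e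
  rw [← Complex.exp_int_mul_two_pi_mul_I z]
  congr 1
  push_cast
  ring

theorem e_nat_mul (q : ℕ) (x : ℝ) : e (q * x) = e x ^ q := by
  unfold e
  rw [← Complex.exp_nat_mul]
  congr 1
  push_cast
  ring

theorem norm_e (x : ℝ) : ‖e x‖ = 1 := by
  unfold e
  have : (2 * Real.pi * Complex.I * x : ℂ) = ((2 * Real.pi * x : ℝ) : ℂ) * Complex.I := by
    push_cast
    ring
  rw [this, Complex.norm_exp_ofReal_mul_I]

theorem continuous_e : Continuous e := by
  unfold e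
  fun_prop

private theorem exp_norm_e_sub_one (x : ℝ) : ‖e x - 1‖ = ‖2 * Real.sin (Real.pi * x)‖ := by
  have h := Complex.norm_exp_I_mul_ofReal_sub_one (2 * Real.pi * x)
  have h1 : Complex.exp (Complex.I * ((2 * Real.pi * x : ℝ) : ℂ)) = e x := by
    unfold e
    congr 1
    push_cast
    ring
  rw [h1] at h
  rw [h]
  congr 3
  ring

theorem norm_e_sub_one_le (x : ℝ) : ‖e x - 1‖ ≤ 2 * Real.pi * |x| := by
  rw [exp_norm_e_sub_one, norm_mul, Real.norm_eq_abs, Real.norm_eq_abs]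
  have h1 : |Real.sin (Real.pi * x)| ≤ |Real.pi * x| := Real.abs_sin_le_abs
  rw [abs_mul, abs_of_pos Real.pi_pos] at h1
  rw [abs_of_pos (by norm_num : (0 : ℝ) < 2)]
  linarith

theorem four_nn_le (x : ℝ) : 4 * nn x ≤ ‖e x - 1‖ := by
  have hx : x = (round x : ℝ) + (x - round x) := by ring
  have h1 : e x = e (x - round x) := by
    conv_lhs => rw [hx, e_add, e_int, one_mul]
  have h2 : nn x = |x - round x| := nn_eq x
  have h3 : |x - round x| ≤ 1 / 2 := abs_sub_round x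
  obtain ⟨y, hy⟩ : ∃ y : ℝ, y = x - round x := ⟨_, rfl⟩
  rw [← hy] at h1 h2 h3
  rw [h1, h2, exp_norm_e_sub_one, norm_mul, Real.norm_eq_abs, Real.norm_eq_abs,
    abs_of_pos (by norm_num : (0 : ℝ) < 2)]
  have h4 : |Real.sin (Real.pi * y)| = Real.sin (Real.pi * |y|) := by
    have h5 : 0 ≤ Real.sin (Real.pi * |y|) := by
      apply Real.sin_nonneg_of_nonneg_of_le_pi
      · positivity
      · nlinarith [Real.pi_pos]
    rcases abs_cases y with ⟨h6, _⟩ | ⟨h6, _⟩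
    · rw [h6] at h5 ⊢
      exact abs_of_nonneg h5
    · rw [h6] at h5 ⊢
      rw [mul_neg, Real.sin_neg] at h5 ⊢
      rw [← abs_neg]
      exact abs_of_nonneg h5
  have h7 : 2 / Real.pi * (Real.pi * |y|) ≤ Real.sin (Real.pi * |y|) := by
    apply Real.mul_le_sin
    · positivity
    · nlinarith [Real.pi_pos]
  have h8 : 2 / Real.pi * (Real.pi * |y|) = 2 * |y| := by
    field_simp
  rw [h4]
  rw [h8] at h7
  linarith

private theorem exp_norm_geom (N : ℕ) (θ : ℝ) (h : 0 < nn θ) :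
    ‖∑ q ∈ Finset.range N, e (q * θ)‖ ≤ (2 * nn θ)⁻¹ := by
  have h1 : (∑ q ∈ Finset.range N, e (q * θ)) * (e θ - 1) = e (N * θ) - 1 := by
    simp only [e_nat_mul]
    exact geom_sum_mul (e θ) N
  have h2 : ‖e (N * θ) - 1‖ ≤ 2 := by
    refine (norm_sub_le _ _).trans ?_
    rw [norm_e, norm_one]
    norm_num
  have h3 : ‖∑ q ∈ Finset.range N, e (q * θ)‖ * ‖e θ - 1‖ ≤ 2 := by
    rw [← norm_mul, h1]
    exact h2
  have h4 := four_nn_le θ
  have h5 : 0 ≤ ‖∑ q ∈ Finset.range N, e (q * θ)‖ := norm_nonneg _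
  have h6 : ‖∑ q ∈ Finset.range N, e (q * θ)‖ * (4 * nn θ) ≤ 2 :=
    (mul_le_mul_of_nonneg_left h4 h5).trans h3
  rw [← one_div, le_div_iff₀ (by positivity)]
  linarith

theorem norm_geom_le (N : ℕ) (θ : ℝ) :
    ‖∑ q ∈ Finset.range N, e (q * θ)‖ₑ ≤ (ENNReal.ofReal (2 * nn θ))⁻¹ := by
  rcases (nn_nonneg θ).eq_or_lt with h | h
  · rw [← h, mul_zero, ENNReal.ofReal_zero, ENNReal.inv_zero]
    exact le_top
  · rw [← ENNReal.ofReal_inv_of_pos (by positivity), ← ofReal_norm]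
    exact ENNReal.ofReal_le_ofReal (exp_norm_geom N θ h)

theorem norm_avg_sq_le {M : ℕ} (hM : 0 < M) (θ : ℝ) :
    ‖((M : ℂ)⁻¹ * ∑ q ∈ Finset.range M, e (q * θ)) ^ 2‖ₑ ≤ Xf (M * nn θ) := by
  have hM' : (0 : ℝ) < M := by exact_mod_cast hM
  unfold Xf
  rw [← ofReal_norm, norm_pow, norm_mul, norm_inv, Complex.norm_natCast]
  refine le_min ?_ ?_
  · rw [← ENNReal.ofReal_one]
    refine ENNReal.ofReal_le_ofReal ?_
    have h1 : ‖∑ q ∈ Finset.range M, e (q * θ)‖ ≤ M := by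
      refine (norm_sum_le _ _).trans ?_
      simp [norm_e]
    refine pow_le_one₀ (by positivity) ?_
    rw [inv_mul_le_iff₀ hM', mul_one]
    exact h1
  · rcases (nn_nonneg θ).eq_or_lt with h | h
    · rw [← h, mul_zero, ENNReal.ofReal_zero, ENNReal.inv_zero, ENNReal.top_pow (by norm_num)]
      exact le_top
    · rw [← ENNReal.ofReal_inv_of_pos (by positivity), ← ENNReal.ofReal_pow (by positivity)]
      refine ENNReal.ofReal_le_ofReal ?_
      refine pow_le_pow_left₀ (by positivity) ?_ 2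
      rw [mul_inv]
      refine mul_le_mul_of_nonneg_left ?_ (by positivity)
      refine (exp_norm_geom M θ h).trans ?_
      exact inv_anti₀ h (by linarith)

theorem Xf_anti {y y' : ℝ} (h : y ≤ y') : Xf y' ≤ Xf y := by
  unfold Xf
  refine min_le_min le_rfl ?_
  refine pow_le_pow_left' ?_ 2
  exact ENNReal.inv_le_inv.mpr (ENNReal.ofReal_le_ofReal h)

end Pool.Agent.KUB
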