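import Mathlib
import Pool.Agent.KUB.Exp

set_option autoImplicit false

/-!
KUB module Kap: `κ(y) = ∫_0^1 e(yt) dt` and its bounds.

* `norm_kap_le_one`: norm of the integrand is `1`.
* `kap_eq`: for `y ≠ 0`, `κ(y) = (e y - 1)/(2πiy)` (derivative of `t ↦ e(yt)/(2πiy)`; or
  `integral_exp_mul_complex`), so `‖κ y‖ ≤ 2/(2π|y|) = 1/(π|y|)`.
* `norm_kap_sub_one`: `‖κ y - 1‖ = ‖∫_0^1 (e(yt) - 1) dt‖ ≤ sup ‖e(yt)-1‖ ≤ 2π|y|`
  (`intervalIntegral.norm_integral_le_of_norm_le_const`, `norm_e_sub_one_le`).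
-/

namespace Pool.Agent.KUB

/-- `κ(y) = ∫_0^1 e(yt) dt` -/
noncomputable def kap (y : ℝ) : ℂ := ∫ t in (0 : ℝ)..1, e (y * t)

theorem Kap_cont (y : ℝ) : Continuous (fun t : ℝ => e (y * t)) := by
  unfold e
  fun_prop

theorem Kap_norm (x : ℝ) : ‖e x‖ = 1 := by
  unfold e
  have h : (2 * (Real.pi : ℂ) * Complex.I * (x : ℂ)) = ((2 * Real.pi * x : ℝ) : ℂ) * Complex.I := by
    push_cast
    ring
  rw [h, Complex.norm_exp_ofReal_mul_I]

theorem Kap_sub (x : ℝ) : ‖e x - 1‖ ≤ 2 * Real.pi * |x| := by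
  have h : (2 * (Real.pi : ℂ) * Complex.I * (x : ℂ)) = Complex.I * ((2 * Real.pi * x : ℝ) : ℂ) := by
    push_cast
    ring
  have h1 := Real.norm_exp_I_mul_ofReal_sub_one_le (x := 2 * Real.pi * x)
  unfold e
  rw [h]
  refine h1.trans ?_
  rw [Real.norm_eq_abs, abs_mul, abs_of_pos (by positivity : (0 : ℝ) < 2 * Real.pi)]

theorem kap_zero : kap 0 = 1 := by
  unfold kap e
  simp

theorem norm_kap_le_one (y : ℝ) : ‖kap y‖ ≤ 1 := by
  unfold kap
  have h := intervalIntegral.norm_integral_le_of_norm_le_const (a := (0 : ℝ)) (b := 1)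
    (C := 1) (f := fun t => e (y * t)) (fun t _ => (Kap_norm (y * t)).le)
  simpa using h

theorem kap_eq {y : ℝ} (hy : y ≠ 0) :
    kap y = (e y - 1) / (2 * Real.pi * Complex.I * y) := by
  have hc : (2 * (Real.pi : ℂ) * Complex.I * (y : ℂ)) ≠ 0 := by
    have h1 : (Real.pi : ℂ) ≠ 0 := by exact_mod_cast Real.pi_ne_zero
    have h2 : (y : ℂ) ≠ 0 := by exact_mod_cast hy
    simp [h1, h2, Complex.I_ne_zero]
  have h := integral_exp_mul_complex (a := 0) (b := 1) hc
  unfold kap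
  have e1 : (fun t : ℝ => e (y * t)) =
      fun t : ℝ => Complex.exp ((2 * (Real.pi : ℂ) * Complex.I * (y : ℂ)) * t) := by
    funext t
    unfold e
    congr 1
    push_cast
    ring
  rw [e1, h]
  unfold e
  simp

theorem norm_kap_le {y : ℝ} (hy : y ≠ 0) : ‖kap y‖ ≤ 1 / (Real.pi * |y|) := by
  rw [kap_eq hy, norm_div]
  have h1 : ‖e y - 1‖ ≤ 2 := by
    refine (norm_sub_le _ _).trans ?_
    rw [Kap_norm, norm_one]
    norm_num
  have h2 : ‖(2 * (Real.pi : ℂ) * Complex.I * (y : ℂ))‖ = 2 * (Real.pi * |y|) := by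
    rw [norm_mul, norm_mul, norm_mul, Complex.norm_I, Complex.norm_real, Complex.norm_real,
      Real.norm_eq_abs, Real.norm_eq_abs, abs_of_pos Real.pi_pos, Complex.norm_ofNat]
    ring
  rw [h2]
  have h3 : 0 < Real.pi * |y| := mul_pos Real.pi_pos (abs_pos.2 hy)
  rw [div_le_div_iff₀ (by linarith) h3]
  nlinarith

theorem norm_kap_sub_one (y : ℝ) : ‖kap y - 1‖ ≤ 2 * Real.pi * |y| := by
  have h0 : kap y - 1 = ∫ t in (0 : ℝ)..1, (e (y * t) - 1) := by
    rw [intervalIntegral.integral_sub ((Kap_cont y).intervalIntegrable _ _)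
      intervalIntegrable_const]
    unfold kap
    simp
  rw [h0]
  have h := intervalIntegral.norm_integral_le_of_norm_le_const (a := (0 : ℝ)) (b := 1)
    (C := 2 * Real.pi * |y|) (f := fun t => e (y * t) - 1) (fun t ht => by
      rw [Set.uIoc_of_le zero_le_one] at ht
      refine (Kap_sub (y * t)).trans ?_
      rw [abs_mul, abs_of_pos ht.1]
      have h2 : |y| * t ≤ |y| * 1 := mul_le_mul_of_nonneg_left ht.2 (abs_nonneg y)
      have h3 : 0 < 2 * Real.pi := by positivity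
      nlinarith)
  simpa using h

end Pool.Agent.KUB
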