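import Mathlib
import Pool.Agent.KUB.Av
import Pool.Agent.KUB.Kap

set_option autoImplicit false

/-!
KUB module AvCoef: Fourier coefficients `coef F h = ∫_0^1 e(-hx) F(x) dx` of averages and shifts.

* `coef_shift`: `coef (F(·+s)) h = e(hs) coef F h`.  Substitute `y = x+s`:
  `∫_0^1 e(-hx) F(x+s) dx = ∫_s^{s+1} e(-h(y-s)) F(y) dy = e(hs) ∫_s^{s+1} e(-hy)F(y) dy`, and the
  integral of a 1-periodic function over `[s,s+1]` is that over `[0,1]`
  (`Function.Periodic.intervalIntegral_add_eq`).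
* `coef_av`: by Fubini (bounded measurable integrand on `[0,1] × [0,δ]`,
  `MeasureTheory.integral_integral_swap` or `intervalIntegral_integral_swap`)
  `coef (Av δ F) h = δ⁻¹ ∫_0^δ (∫_0^1 e(-hx) F(x+t) dx) dt = δ⁻¹ ∫_0^δ e(ht) dt * coef F h
   = κ(hδ) coef F h` (last step: substitution `t = δ u`).
* `norm_coef_le_one`.
-/

namespace Pool.Agent.KUB

open MeasureTheory

/-- Fourier coefficient -/
noncomputable def coef (F : ℝ → ℝ) (h : ℤ) : ℂ := ∫ x in (0 : ℝ)..1, e (-(h * x)) * (F x : ℂ)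

theorem coef_shift {F : ℝ → ℝ} (hF : Nice F) (s : ℝ) (h : ℤ) :
    coef (fun x => F (x + s)) h = e (h * s) * coef F h := by
  unfold coef
  have hper : Function.Periodic (fun x : ℝ => e (-(h * x)) * (F x : ℂ)) 1 := by
    intro x
    show e (-(h * (x + 1))) * (F (x + 1) : ℂ) = e (-(h * x)) * (F x : ℂ)
    have h1 : (-((h : ℝ) * (x + 1))) = -(h * x) + ((-h : ℤ) : ℝ) := by push_cast; ring
    rw [hF.per, h1, e_add, e_int, mul_one]
  have h2 : (∫ x in (0 : ℝ)..1, e (-(h * x)) * ((F (x + s) : ℝ) : ℂ)) =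
      ∫ x in (0 : ℝ)..1, e (h * s) * (fun x : ℝ => e (-(h * x)) * (F x : ℂ)) (x + s) := by
    refine intervalIntegral.integral_congr fun x _ => ?_
    show e (-(h * x)) * ((F (x + s) : ℝ) : ℂ) = e (h * s) * (e (-(h * (x + s))) * (F (x + s) : ℂ))
    have h3 : (-((h : ℝ) * x)) = h * s + -(h * (x + s)) := by ring
    rw [h3, e_add, mul_assoc]
  rw [h2, intervalIntegral.integral_const_mul, intervalIntegral.integral_comp_add_right
    (fun x : ℝ => e (-(h * x)) * (F x : ℂ)) s, zero_add, add_comm 1 s,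
    hper.intervalIntegral_add_eq s 0, zero_add]

theorem coef_av {F : ℝ → ℝ} (hF : Nice F) {δ : ℝ} (hδ : 0 < δ) (h : ℤ) :
    coef (Av δ F) h = kap (h * δ) * coef F h := by
  have h1 : coef (Av δ F) h = ∫ x in (0 : ℝ)..1, ∫ t in (0 : ℝ)..δ,
      (δ : ℂ)⁻¹ * (e (-(h * x)) * ((F (x + t) : ℝ) : ℂ)) := by
    unfold coef
    refine intervalIntegral.integral_congr fun x _ => ?_
    show e (-(h * x)) * ((Av δ F x : ℝ) : ℂ) = _
    unfold Av
    rw [intervalIntegral.integral_const_mul, intervalIntegral.integral_const_mul]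
    push_cast
    rw [← intervalIntegral.integral_ofReal]
    ring
  have hm : Measurable (Function.uncurry fun (x t : ℝ) =>
      (δ : ℂ)⁻¹ * (e (-(h * x)) * ((F (x + t) : ℝ) : ℂ))) := by
    have := hF.meas
    have hc := continuous_e.measurable
    refine measurable_const.mul (Measurable.mul ?_ ?_)
    · exact hc.comp (by fun_prop)
    · exact Complex.measurable_ofReal.comp (this.comp (by fun_prop))
  rw [h1, intervalIntegral_intervalIntegral_swap]
  · have h2 : ∀ t : ℝ, (∫ x in (0 : ℝ)..1, (δ : ℂ)⁻¹ * (e (-(h * x)) * ((F (x + t) : ℝ) : ℂ)))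
        = (δ : ℂ)⁻¹ * (e (h * t) * coef F h) := by
      intro t
      rw [intervalIntegral.integral_const_mul]
      congr 1
      exact coef_shift hF t h
    simp_rw [h2]
    rw [intervalIntegral.integral_const_mul, intervalIntegral.integral_mul_const, ← mul_assoc]
    congr 1
    unfold kap
    have h3 : (∫ t in (0 : ℝ)..1, e (h * δ * t)) = ∫ t in (0 : ℝ)..1, (fun y : ℝ => e (h * y)) (δ * t) := by
      refine intervalIntegral.integral_congr fun t _ => ?_
      show e (h * δ * t) = e (h * (δ * t))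
      rw [mul_assoc]
    rw [h3, intervalIntegral.integral_comp_mul_left (fun y : ℝ => e (h * y)) hδ.ne', mul_zero,
      mul_one, Complex.real_smul]
    push_cast
    rfl
  · rw [Set.uIoc_of_le zero_le_one, Set.uIoc_of_le hδ.le]
    refine Measure.integrableOn_of_bounded (M := ‖(δ : ℂ)⁻¹‖) ?_ hm.aestronglyMeasurable ?_
    · rw [Measure.volume_eq_prod, Measure.prod_prod, Real.volume_Ioc, Real.volume_Ioc]
      exact ENNReal.mul_ne_top ENNReal.ofReal_ne_top ENNReal.ofReal_ne_top
    · refine Filter.Eventually.of_forall fun p => ?_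
      show ‖(δ : ℂ)⁻¹ * (e (-(h * p.1)) * ((F (p.1 + p.2) : ℝ) : ℂ))‖ ≤ ‖(δ : ℂ)⁻¹‖
      rw [norm_mul, norm_mul, norm_e, one_mul, Complex.norm_real, Real.norm_eq_abs,
        abs_of_nonneg (hF.nonneg _)]
      exact mul_le_of_le_one_right (norm_nonneg _) (hF.le_one _)

theorem norm_coef_le_one {F : ℝ → ℝ} (hF : Nice F) (h : ℤ) : ‖coef F h‖ ≤ 1 := by
  unfold coef
  have := intervalIntegral.norm_integral_le_of_norm_le_const (a := (0 : ℝ)) (b := 1) (C := 1)
    (f := fun x : ℝ => e (-(h * x)) * (F x : ℂ)) (fun x _ => by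
      rw [norm_mul, norm_e, one_mul, Complex.norm_real, Real.norm_eq_abs, abs_of_nonneg (hF.nonneg x)]
      exact hF.le_one x)
  simpa using this

end Pool.Agent.KUB
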