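import Mathlib
import Pool.Agent.KUB.AvCoef

set_option autoImplicit false

/-!
KUB module FS: pointwise convergence of the Fourier series of a continuous 1-periodic function with
absolutely summable coefficients.

Proof: lift `F` to `F' : C(AddCircle (1:ℝ), ℂ)` (`Function.Periodic.lift`, continuity of the lift by
`AddCircle` quotient map).  `fourierCoeff_eq_intervalIntegral F' h 0` gives
`fourierCoeff F' h = (1/1) • ∫_0^1 fourier (-h) x • F' x = coef F h` because
`fourier (-h) (x : AddCircle 1) = exp(2πi(-h)x/1) = e(-(hx))` (`fourier_coe_apply`), then use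
`has_pointwise_sum_fourier_series_of_summable` and `fourier h x = e(hx)`.
-/

namespace Pool.Agent.KUB

theorem hasSum_fourier {F : ℝ → ℝ} (hc : Continuous F) (hp : ∀ x, F (x + 1) = F x)
    (hs : Summable (fun h : ℤ => ‖coef F h‖)) (x : ℝ) :
    HasSum (fun h : ℤ => coef F h * e (h * x)) (F x : ℂ) := by
  have hT : Fact ((0 : ℝ) < 1) := ⟨one_pos⟩
  have hper : Function.Periodic (fun x : ℝ => (F x : ℂ)) 1 := fun x => by
    show (F (x + 1) : ℂ) = F x
    rw [hp]
  have hcont : Continuous (fun x : ℝ => (F x : ℂ)) := Complex.continuous_ofReal.comp hc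
  let F' : C(AddCircle (1 : ℝ), ℂ) := ⟨hper.lift, continuous_coinduced_dom.2 hcont⟩
  have hF' : ∀ y : ℝ, F' (y : AddCircle (1 : ℝ)) = (F y : ℂ) := fun y => rfl
  have hfe : ∀ (n : ℤ) (y : ℝ), (fourier n (y : AddCircle (1 : ℝ)) : ℂ) = e (n * y) := by
    intro n y
    rw [fourier_coe_apply]
    unfold e
    congr 1
    push_cast
    ring
  have hco : ∀ h : ℤ, fourierCoeff F' h = coef F h := by
    intro h
    rw [fourierCoeff_eq_intervalIntegral F' h 0]
    unfold coef
    rw [zero_add, div_one, one_smul]
    refine intervalIntegral.integral_congr fun y _ => ?_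
    show (fourier (-h) (y : AddCircle (1 : ℝ)) : ℂ) • F' (y : AddCircle (1 : ℝ)) =
      e (-(h * y)) * (F y : ℂ)
    rw [hfe, hF', smul_eq_mul]
    congr 2
    push_cast
    ring
  have hsum : Summable (fourierCoeff F') := by
    have h1 : fourierCoeff F' = fun h : ℤ => coef F h := funext hco
    rw [h1]
    exact hs.of_norm
  have h2 := has_pointwise_sum_fourier_series_of_summable hsum (x : AddCircle (1 : ℝ))
  rw [hF'] at h2
  refine h2.congr_fun fun h => ?_
  rw [hco, hfe, smul_eq_mul]

end Pool.Agent.KUB
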