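import Mathlib
import Pool.Agent.KUB.AvCoef

set_option autoImplicit false

/-!
KUB module Ind: the periodic indicator `I a x = 1` if `{x} < a`, else `0`  (`0 ≤ a ≤ 1`).

* `coef_ind`: `coef (I a) h = ∫_0^a e(-hx) dx = a κ(-(h a))` (on `[0,1)` we have `{x} = x`; the
  end point `1` is a null set).  Hence `‖coef (I a) h‖ ≤ a` and, for `h ≠ 0`, `≤ 1/(π|h|)`
  (if `a = 0` it is `0`; else `norm_kap_le` with `y = -(h a)`), and `coef (I a) 0 = a`.
* `ind_const`: if `L > 0`, `L ≤ {x+L}` and `L ≤ {x+L-a}` then `I a (x+t) = I a x` for `0 ≤ t ≤ L`.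
  Proof: put `y = x+L`.  For `0 ≤ s ≤ L ≤ {y}` we have `{y-s} = {y}-s` (so `⌊y-s⌋ = ⌊y⌋`), and
  likewise `{y-a-s} = {y-a}-s`.  Now `{z} < a` iff `⌊z⌋ ≠ ⌊z-a⌋` for `0 ≤ a ≤ 1`
  (`z - a < ⌊z⌋` iff `{z} < a`), and both floors are constant for `z = y - s`, `0 ≤ s ≤ L`.
-/

namespace Pool.Agent.KUB

open MeasureTheory

/-- the 1-periodic indicator of `[0,a)` -/
noncomputable def I (a x : ℝ) : ℝ := if Int.fract x < a then 1 else 0

theorem nice_ind (a : ℝ) : Nice (I a) where
  meas := by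
    unfold I
    exact Measurable.ite (measurableSet_lt measurable_fract measurable_const) measurable_const
      measurable_const
  per := by
    intro x
    unfold I
    rw [Int.fract_add_one]
  nonneg := by
    intro x
    unfold I
    split_ifs <;> norm_num
  le_one := by
    intro x
    unfold I
    split_ifs <;> norm_num

theorem continuous_e_aux (h : ℤ) : Continuous (fun x : ℝ => e (-(h * x))) := by
  unfold e
  fun_prop

theorem coef_ind {a : ℝ} (ha0 : 0 ≤ a) (ha1 : a ≤ 1) (h : ℤ) :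
    coef (I a) h = a * kap (-(h * a)) := by
  have hcont := continuous_e_aux h
  have h1 : (a : ℂ) * kap (-(h * a)) = ∫ x in (0 : ℝ)..a, e (-(h * x)) := by
    have h2 := intervalIntegral.smul_integral_comp_mul_left (a := (0 : ℝ)) (b := 1)
      (fun x : ℝ => e (-(h * x))) a
    rw [mul_zero, mul_one] at h2
    rw [← h2]
    unfold kap
    rw [Complex.real_smul]
    congr 1
    apply intervalIntegral.integral_congr
    intro t _
    simp only
    congr 1
    ring
  have hne : ∀ᵐ x : ℝ ∂volume, x ≠ a := by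
    have := (Set.countable_singleton a).ae_notMem (volume : Measure ℝ)
    filter_upwards [this] with x hx
    simpa using hx
  have hne1 : ∀ᵐ x : ℝ ∂volume, x ≠ 1 := by
    have := (Set.countable_singleton (1 : ℝ)).ae_notMem (volume : Measure ℝ)
    filter_upwards [this] with x hx
    simpa using hx
  have h3 : ∫ x in (0 : ℝ)..a, e (-(h * x)) * (I a x : ℂ) = ∫ x in (0 : ℝ)..a, e (-(h * x)) := by
    apply intervalIntegral.integral_congr_ae
    filter_upwards [hne] with x hx hx2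
    rw [Set.uIoc_of_le ha0] at hx2
    have h4 : x < a := lt_of_le_of_ne hx2.2 hx
    have h5 : Int.fract x = x := Int.fract_eq_self.2 ⟨hx2.1.le, by linarith⟩
    unfold I
    rw [h5, if_pos h4]
    simp
  have h4 : ∫ x in a..(1 : ℝ), e (-(h * x)) * (I a x : ℂ) = 0 := by
    have h5 : ∫ x in a..(1 : ℝ), e (-(h * x)) * (I a x : ℂ) = ∫ x in a..(1 : ℝ), (0 : ℂ) := by
      apply intervalIntegral.integral_congr_ae
      filter_upwards [hne1] with x hx hx2
      rw [Set.uIoc_of_le ha1] at hx2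
      have h4 : x < 1 := lt_of_le_of_ne hx2.2 hx
      have h5 : Int.fract x = x := Int.fract_eq_self.2 ⟨by linarith [hx2.1], by linarith⟩
      unfold I
      rw [h5, if_neg (by linarith [hx2.1])]
      simp
    rw [h5]
    simp
  have hint : ∀ u v : ℝ, IntervalIntegrable (fun x => e (-(h * x)) * (I a x : ℂ)) volume u v := by
    intro u v
    have h6 : IntervalIntegrable (I a) volume u v := (nice_ind a).intervalIntegrable u v
    have h7 : IntervalIntegrable (fun x => (I a x : ℂ)) volume u v := by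
      constructor
      · exact h6.1.ofReal
      · exact h6.2.ofReal
    exact h7.continuousOn_mul hcont.continuousOn
  unfold coef
  rw [h1, ← intervalIntegral.integral_add_adjacent_intervals (hint 0 a) (hint a 1), h3, h4,
    add_zero]

theorem norm_coef_ind_le {a : ℝ} (ha0 : 0 ≤ a) (ha1 : a ≤ 1) (h : ℤ) : ‖coef (I a) h‖ ≤ a := by
  rw [coef_ind ha0 ha1, norm_mul, Complex.norm_real, Real.norm_eq_abs, abs_of_nonneg ha0]
  calc a * ‖kap (-(h * a))‖ ≤ a * 1 := by gcongr; exact norm_kap_le_one _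
    _ = a := mul_one a

theorem norm_coef_ind_le' {a : ℝ} (ha0 : 0 ≤ a) (ha1 : a ≤ 1) {h : ℤ} (hh : h ≠ 0) :
    ‖coef (I a) h‖ ≤ 1 / (Real.pi * |(h : ℝ)|) := by
  have hh' : (h : ℝ) ≠ 0 := by exact_mod_cast hh
  have hh0 : 0 < |(h : ℝ)| := abs_pos.2 hh'
  rw [coef_ind ha0 ha1, norm_mul, Complex.norm_real, Real.norm_eq_abs, abs_of_nonneg ha0]
  rcases ha0.eq_or_lt with h0 | h0
  · rw [← h0]
    simp only [zero_mul]
    positivity
  · have h1 : -((h : ℝ) * a) ≠ 0 := neg_ne_zero.2 (mul_ne_zero hh' h0.ne')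
    calc a * ‖kap (-(h * a))‖ ≤ a * (1 / (Real.pi * |-((h : ℝ) * a)|)) := by
          gcongr; exact norm_kap_le h1
      _ = 1 / (Real.pi * |(h : ℝ)|) := by
          rw [abs_neg, abs_mul, abs_of_pos h0]
          have := Real.pi_pos
          field_simp

theorem coef_ind_zero {a : ℝ} (ha0 : 0 ≤ a) (ha1 : a ≤ 1) : coef (I a) 0 = a := by
  rw [coef_ind ha0 ha1]
  simp [kap_zero]

theorem ind_eq_floor {a : ℝ} (ha0 : 0 ≤ a) (z : ℝ) :
    I a z = if ⌊z - a⌋ = ⌊z⌋ then 0 else 1 := by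
  unfold I
  by_cases h : Int.fract z < a
  · rw [if_pos h, if_neg]
    intro h1
    rw [Int.floor_eq_iff] at h1
    have := Int.self_sub_floor z
    linarith [h1.1]
  · rw [if_neg h, if_pos]
    rw [Int.floor_eq_iff]
    have := Int.self_sub_floor z
    push Not at h
    have h2 := Int.lt_floor_add_one z
    constructor <;> linarith

theorem floor_sub_aux {y s L : ℝ} (hs0 : 0 ≤ s) (hsL : s ≤ L) (hL : L ≤ Int.fract y) :
    ⌊y - s⌋ = ⌊y⌋ := by
  rw [Int.floor_eq_iff]
  have h1 := Int.self_sub_floor y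
  have h2 := Int.lt_floor_add_one y
  constructor <;> linarith

theorem ind_const {a : ℝ} (ha0 : 0 ≤ a) (ha1 : a ≤ 1) {L : ℝ} (hL : 0 < L) {x : ℝ}
    (h0 : L ≤ Int.fract (x + L)) (h1 : L ≤ Int.fract (x + L - a)) {t : ℝ} (ht0 : 0 ≤ t)
    (ht : t ≤ L) : I a (x + t) = I a x := by
  have e1 : ⌊x + t⌋ = ⌊x + L⌋ := by
    rw [← floor_sub_aux (s := L - t) (by linarith) (by linarith) h0]
    congr 1; ring
  have e2 : ⌊x⌋ = ⌊x + L⌋ := by
    rw [← floor_sub_aux (s := L) (by linarith) le_rfl h0]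
    congr 1; ring
  have e3 : ⌊x + t - a⌋ = ⌊x + L - a⌋ := by
    rw [← floor_sub_aux (s := L - t) (by linarith) (by linarith) h1]
    congr 1; ring
  have e4 : ⌊x - a⌋ = ⌊x + L - a⌋ := by
    rw [← floor_sub_aux (s := L) (by linarith) le_rfl h1]
    congr 1; ring
  rw [ind_eq_floor ha0, ind_eq_floor ha0, e1, e2, e3, e4]

end Pool.Agent.KUB
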