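import Mathlib
import Pool.Agent.KUB.FS
import Pool.Agent.KUB.Ind

set_option autoImplicit false

/-!
KUB module A3: triple averages `A3 δ F = Av δ (Av δ (Av δ F))`.

* `Nice.a3`, `continuous_a3`, `coef_a3`: apply `Nice.av`, `continuous_av`, `coef_av` three times.
* `a3_of_const`: `F(x+t) = c` for `0 ≤ t ≤ 3δ` implies `A3 δ F x = c`: first
  `Av δ F (x+t) = c` for `0 ≤ t ≤ 2δ`, then `Av δ (Av δ F) (x+t) = c` for `0 ≤ t ≤ δ`, then the
  claim, each time by `av_of_const`.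
* `norm_kap3_le`: for `δ = 2^{-i}`, `‖κ(hδ)³‖ ≤ min(1, (2^i/r h)³) = psi' i h`: by
  `norm_kap_le_one`, and for `h ≠ 0` by `‖κ(hδ)‖ ≤ 1/(π|h|δ) ≤ 2^i/|h|`, `r h = |h|`;
  for `h = 0`, `2^i/r 0 = 2^i ≥ 1`, so `psi' i 0 = 1`.
* `summable_psi'`: `psi' i h ≤ (2^i)³/(r h)³` and `r h ≥ |h|`; `∑ 1/|h|³ < ∞` over `ℤ`
  (`Real.summable_one_div_int_pow` with exponent 3, or compare with exponent 2).
* `hasSum_a3`: `hasSum_fourier`; summability from `‖coef (A3 δ F) h‖ ≤ psi' i h * 1`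
  (`norm_coef_le_one`).
* `a3_one`: `Av 1 (I a) x = ∫_0^1 I a (x+t) dt = ∫_x^{x+1} I a = ∫_0^1 I a = a` for all `x`
  (periodicity), the further averages of the constant `a` are `a` (`av_of_const`).
-/

namespace Pool.Agent.KUB

/-- triple average -/
noncomputable def A3 (δ : ℝ) (F : ℝ → ℝ) : ℝ → ℝ := Av δ (Av δ (Av δ F))

theorem Nice.a3 {F : ℝ → ℝ} (hF : Nice F) {δ : ℝ} (hδ : 0 < δ) : Nice (A3 δ F) :=
  ((hF.av hδ).av hδ).av hδ

theorem continuous_a3 {F : ℝ → ℝ} (hF : Nice F) {δ : ℝ} (hδ : 0 < δ) : Continuous (A3 δ F) :=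
  continuous_av ((hF.av hδ).av hδ) δ

theorem coef_a3 {F : ℝ → ℝ} (hF : Nice F) {δ : ℝ} (hδ : 0 < δ) (h : ℤ) :
    coef (A3 δ F) h = kap (h * δ) ^ 3 * coef F h := by
  unfold A3
  rw [coef_av ((hF.av hδ).av hδ) hδ, coef_av (hF.av hδ) hδ, coef_av hF hδ]
  ring

theorem a3_of_const {F : ℝ → ℝ} {δ : ℝ} (hδ : 0 < δ) {x c : ℝ}
    (h : ∀ t, 0 ≤ t → t ≤ 3 * δ → F (x + t) = c) : A3 δ F x = c := by
  have h1 : ∀ t, 0 ≤ t → t ≤ 2 * δ → Av δ F (x + t) = c := by
    intro t ht0 ht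
    apply av_of_const hδ
    intro u hu0 hu
    rw [add_assoc]
    exact h (t + u) (by linarith) (by linarith)
  have h2 : ∀ t, 0 ≤ t → t ≤ δ → Av δ (Av δ F) (x + t) = c := by
    intro t ht0 ht
    apply av_of_const hδ
    intro u hu0 hu
    rw [add_assoc]
    exact h1 (t + u) (by linarith) (by linarith)
  exact av_of_const hδ h2

theorem norm_kap3_le (i : ℕ) (h : ℤ) : ‖kap (h * (2 ^ i)⁻¹) ^ 3‖ ≤ psi' i h := by
  have h2 : (1 : ℝ) ≤ 2 ^ i := one_le_pow₀ (by norm_num)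
  have h20 : (0 : ℝ) < 2 ^ i := by positivity
  rw [norm_pow]
  unfold psi'
  apply le_min
  · exact pow_le_one₀ (norm_nonneg _) (norm_kap_le_one _)
  · apply pow_le_pow_left₀ (norm_nonneg _)
    by_cases hh : h = 0
    · subst hh
      rw [r_zero, div_one]
      exact (norm_kap_le_one _).trans h2
    · have hr := r_of_ne hh
      have hr0 := r_pos h
      have hne : (h : ℝ) * (2 ^ i)⁻¹ ≠ 0 := by
        have : (h : ℝ) ≠ 0 := by exact_mod_cast hh
        positivity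
      refine (norm_kap_le hne).trans ?_
      rw [abs_mul, abs_of_pos (by positivity : (0 : ℝ) < (2 ^ i)⁻¹), ← hr]
      rw [div_le_div_iff₀ (by positivity) hr0]
      have h3 : 2 ^ i * (Real.pi * (r h * (2 ^ i)⁻¹)) = Real.pi * r h := by
        field_simp
      rw [h3, one_mul]
      nlinarith [Real.pi_gt_three]

theorem psi'_nonneg (i : ℕ) (h : ℤ) : 0 ≤ psi' i h := by
  unfold psi'
  have := r_pos h
  exact le_min zero_le_one (by positivity)

theorem summable_psi' (i : ℕ) : Summable (fun h : ℤ => psi' i h) := by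
  have h1 : Summable (fun h : ℤ => (2 ^ i : ℝ) ^ 3 * |1 / (h : ℝ) ^ 3|) :=
    ((Real.summable_one_div_int_pow.2 (by norm_num : 1 < 3)).abs).mul_left _
  refine Summable.of_norm_bounded_eventually h1 ?_
  have hfin : (({0} : Set ℤ)).Finite := Set.finite_singleton 0
  rw [Filter.eventually_cofinite]
  refine hfin.subset fun h hh => ?_
  rw [Set.mem_singleton_iff]
  by_contra hne
  apply hh
  rw [Real.norm_of_nonneg (psi'_nonneg i h)]
  refine (min_le_right _ _).trans (le_of_eq ?_)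
  rw [r_of_ne hne, abs_div, abs_one, abs_pow, div_pow]
  ring

theorem hasSum_a3 {F : ℝ → ℝ} (hF : Nice F) (i : ℕ) (x : ℝ) :
    HasSum (fun h : ℤ => coef (A3 (2 ^ i)⁻¹ F) h * e (h * x)) (A3 (2 ^ i)⁻¹ F x : ℂ) := by
  have hδ : (0 : ℝ) < (2 ^ i)⁻¹ := by positivity
  refine hasSum_fourier (continuous_a3 hF hδ) (hF.a3 hδ).per ?_ x
  refine Summable.of_nonneg_of_le (fun _ => norm_nonneg _) (fun h => ?_) (summable_psi' i)
  rw [coef_a3 hF hδ, norm_mul]
  calc ‖kap (h * (2 ^ i)⁻¹) ^ 3‖ * ‖coef F h‖ ≤ psi' i h * 1 :=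
        mul_le_mul (norm_kap3_le i h) (norm_coef_le_one hF h) (norm_nonneg _) (psi'_nonneg i h)
    _ = psi' i h := mul_one _

theorem a3_one {a : ℝ} (ha0 : 0 ≤ a) (ha1 : a ≤ 1) (x : ℝ) : A3 1 (I a) x = a := by
  have hI : ∫ t in (0 : ℝ)..1, I a t = a := by
    have h1 := coef_ind_zero ha0 ha1
    unfold coef at h1
    have h2 : ∫ x in (0 : ℝ)..1, e (-(((0 : ℤ) : ℝ) * x)) * ((I a x : ℝ) : ℂ) =
        ((∫ t in (0 : ℝ)..1, I a t : ℝ) : ℂ) := by
      rw [← intervalIntegral.integral_ofReal]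
      refine intervalIntegral.integral_congr fun y _ => ?_
      show e (-(((0 : ℤ) : ℝ) * y)) * ((I a y : ℝ) : ℂ) = ((I a y : ℝ) : ℂ)
      rw [Int.cast_zero, zero_mul, neg_zero, e_zero, one_mul]
    rw [h2] at h1
    exact_mod_cast h1
  have hper : Function.Periodic (I a) 1 := (nice_ind a).per
  have h1 : ∀ y : ℝ, Av 1 (I a) y = a := by
    intro y
    rw [av_eq, inv_one, one_mul, hper.intervalIntegral_add_eq y 0, zero_add]
    exact hI
  have h2 : ∀ y : ℝ, Av 1 (Av 1 (I a)) y = a := fun y =>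
    av_of_const one_pos fun t _ _ => h1 _
  exact av_of_const one_pos fun t _ _ => h2 _

end Pool.Agent.KUB
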