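import Mathlib
import Pool.Agent.KUB.Defs

set_option autoImplicit false

/-!
KUB module Sep: separation count for a badly approximable `α`.

Let `σ = c/2^(i+2)`.  For distinct `q, q' ∈ F` put `H = q.1 - q'.1`, `Q = q.2 - q'.2`, `|H| < 2^(i+2)`.
If `H ≠ 0`: `|Q - Hα| ≥ nn(Hα) ≥ c/|H| > σ` (`BA` with `|H|`, `nn_neg`, `nn_le_abs_sub_int`).  If
`H = 0` then `Q ≠ 0` and `|Q - Hα| = |Q| ≥ 1 ≥ c ≥ σ`.  So the map `q ↦ ⌊(q.2 - q.1 α - y)/σ⌋` is
injective on `F` (arguments differ by at least `1`) and has values in `[0, ⌊L/σ⌋]`, which has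
`≤ L/σ + 1 = 2^(i+2) L/c + 1` elements.
-/

namespace Pool.Agent.KUB

open Pool.Agent.FIB

/-- badly approximable, integer multiplier form -/
theorem BA_int {α c : ℝ} (hα : BA α c) {H : ℤ} (hH : H ≠ 0) : c ≤ |(H : ℝ)| * nn (H * α) := by
  have h1 : 1 ≤ H.natAbs := Int.natAbs_pos.2 hH
  have h2 := hα.2.2 H.natAbs h1
  have h3 : ((H.natAbs : ℕ) : ℝ) = |(H : ℝ)| := by rw [Nat.cast_natAbs]; push_cast; rfl
  rw [h3] at h2
  rcases abs_cases (H : ℝ) with ⟨h4, _⟩ | ⟨h4, _⟩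
  · rw [h4] at h2 ⊢; exact h2
  · rw [h4] at h2 ⊢
    rw [show -(H : ℝ) * α = -((H : ℝ) * α) by ring, nn_neg] at h2
    exact h2

theorem sep_aux {α c : ℝ} (hα : BA α c) (i : ℕ) {H Q : ℤ} (hHQ : ¬ (H = 0 ∧ Q = 0))
    (hH : |H| < 2 ^ (i + 2)) : c / 2 ^ (i + 2) ≤ |(Q : ℝ) - H * α| := by
  have hc0 := hα.1
  have hc1 := hα.2.1
  have hp : (1 : ℝ) ≤ 2 ^ (i + 2) := one_le_pow₀ (by norm_num)
  have hp0 : (0 : ℝ) < 2 ^ (i + 2) := by positivity
  by_cases h0 : H = 0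
  · subst h0
    have hQ : Q ≠ 0 := fun h => hHQ ⟨rfl, h⟩
    have h1 : (1 : ℝ) ≤ |(Q : ℝ)| := by exact_mod_cast Int.one_le_abs hQ
    have h2 : c / 2 ^ (i + 2) ≤ 1 := by
      rw [div_le_one hp0]; linarith
    simp only [Int.cast_zero, zero_mul, sub_zero]
    linarith
  · have h1 := BA_int hα h0
    have h2 : nn (H * α) ≤ |(Q : ℝ) - H * α| := by
      rw [abs_sub_comm]; exact nn_le_abs_sub_int _ _
    have h3 : |(H : ℝ)| ≤ 2 ^ (i + 2) := by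
      have : (|H| : ℤ) ≤ 2 ^ (i + 2) := hH.le
      exact_mod_cast this
    rw [div_le_iff₀ hp0]
    have h4 : 0 ≤ nn (H * α) := nn_nonneg _
    calc c ≤ |(H : ℝ)| * nn (H * α) := h1
      _ ≤ 2 ^ (i + 2) * nn (H * α) := by gcongr
      _ ≤ 2 ^ (i + 2) * |(Q : ℝ) - H * α| := by gcongr
      _ = |(Q : ℝ) - H * α| * 2 ^ (i + 2) := by ring

theorem sep_count {α c : ℝ} (hα : BA α c) (i : ℕ) (y : ℝ) {L : ℝ} (hL : 0 ≤ L)
    (F : Finset (ℤ × ℤ))
    (hF : ∀ q ∈ F, |q.1| < 2 ^ (i + 1) ∧ y ≤ q.2 - q.1 * α ∧ q.2 - q.1 * α ≤ y + L) :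
    (F.card : ℝ) ≤ 2 ^ (i + 2) * L / c + 1 := by
  have hc0 := hα.1
  have hp0 : (0 : ℝ) < 2 ^ (i + 2) := by positivity
  set σ : ℝ := c / 2 ^ (i + 2) with hσ
  have hσ0 : 0 < σ := by positivity
  let φ : ℤ × ℤ → ℕ := fun q => ⌊((q.2 : ℝ) - q.1 * α - y) / σ⌋₊
  have hinj : Set.InjOn φ F := by
    intro q hq q' hq' h
    by_contra hne
    have hq1 := hF q hq
    have hq2 := hF q' hq'
    have hHQ : ¬ (q.1 - q'.1 = 0 ∧ q.2 - q'.2 = 0) := by
      rintro ⟨h1, h2⟩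
      exact hne (Prod.ext (by linarith) (by linarith))
    have hH : |q.1 - q'.1| < 2 ^ (i + 2) := by
      have h1 := hq1.1
      have h2 := hq2.1
      have h3 : (2 : ℤ) ^ (i + 2) = 2 ^ (i + 1) + 2 ^ (i + 1) := by ring
      rw [h3]
      exact lt_of_le_of_lt (abs_sub _ _) (add_lt_add h1 h2)
    have h1 := sep_aux hα i hHQ hH
    have h2 : φ q = φ q' := h
    simp only [φ] at h2
    set u := ((q.2 : ℝ) - q.1 * α - y) / σ with hu
    set v := ((q'.2 : ℝ) - q'.1 * α - y) / σ with hv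
    have hu0 : 0 ≤ u := div_nonneg (by linarith [hq1.2.1]) hσ0.le
    have hv0 : 0 ≤ v := div_nonneg (by linarith [hq2.2.1]) hσ0.le
    have h3 : |u - v| < 1 := by
      have a1 := Nat.floor_le hu0
      have a2 := Nat.lt_floor_add_one u
      have a3 := Nat.floor_le hv0
      have a4 := Nat.lt_floor_add_one v
      rw [h2] at a1 a2
      rw [abs_lt]; constructor <;> linarith
    have h4 : ((q.2 - q'.2 : ℤ) : ℝ) - ((q.1 - q'.1 : ℤ) : ℝ) * α = (u - v) * σ := by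
      rw [hu, hv]; push_cast; field_simp; ring
    rw [h4, abs_mul, abs_of_pos hσ0] at h1
    have h5 : |u - v| * σ < 1 * σ := mul_lt_mul_of_pos_right h3 hσ0
    rw [← hσ] at h1
    linarith
  have hmap : ∀ q ∈ F, φ q ∈ Finset.range (⌊L / σ⌋₊ + 1) := by
    intro q hq
    have hq1 := hF q hq
    rw [Finset.mem_range, Nat.lt_succ_iff]
    apply Nat.floor_le_floor
    gcongr
    linarith [hq1.2.2]
  have hcard := Finset.card_le_card_of_injOn φ hmap hinj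
  rw [Finset.card_range] at hcard
  have h1 : (F.card : ℝ) ≤ (⌊L / σ⌋₊ : ℝ) + 1 := by exact_mod_cast hcard
  have h2 : (⌊L / σ⌋₊ : ℝ) ≤ L / σ := Nat.floor_le (by positivity)
  have h3 : L / σ = 2 ^ (i + 2) * L / c := by rw [hσ]; field_simp
  linarith

end Pool.Agent.KUB
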