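import Mathlib
import Pool.Agent.KUB.Sep

set_option autoImplicit false

/-!
KUB module Cnt: for a badly approximable `α`, a fixed `m ≠ 0` and an interval `J` of length
`l = 2^{-μ}` with `2^i |m| ≥ 2^μ`, the total measure of `{β ∈ J : nn(hα+mβ) < ε}` over
`|h| < 2^{i+1}`.

`nn(hα+mβ) < ε` means `|hα+mβ-p| < ε` for some integer `p` (`exists_int`).  For `β ∈ J = [x,x+l]`,
`mβ` lies in an interval `[y₀, y₀ + |m| l]` (`y₀ = min (m x) (m (x+l))`), so
`p - hα ∈ [y₀ - ε, y₀ - ε + L]`, `L = |m| l + 2ε`.  Let `F` be the finite set of all pairs `(h,p)`,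
`|h| < 2^{i+1}`, `p - hα` in this interval.  By
`sep_count`, `#F ≤ 2^{i+2} L/c + 1 ≤ (2^i/c)(5|m| l + 8ε)` (as `1 ≤ 2^i |m| l ≤ 2^i |m| l/c`).
For one pair, `vol{β ∈ J : |hα+mβ-p| < ε} ≤ min (2ε/|m|) l`.  So the sum is at most
`(2^i/c)(5|m|l · 2ε/|m| + 8ε · l) = (18/c) 2^i ε l`.
-/

namespace Pool.Agent.KUB

open Pool.Agent.FIB
open MeasureTheory

private theorem Cnt_range {m x l β : ℝ} (hl : 0 ≤ l) (h1 : x ≤ β) (h2 : β ≤ x + l) :
    min (m * x) (m * (x + l)) ≤ m * β ∧ m * β ≤ min (m * x) (m * (x + l)) + |m| * l := by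
  rcases le_total 0 m with hm | hm
  · have e1 : m * x ≤ m * β := mul_le_mul_of_nonneg_left h1 hm
    have e2 : m * β ≤ m * (x + l) := mul_le_mul_of_nonneg_left h2 hm
    rw [abs_of_nonneg hm, min_eq_left (e1.trans e2)]
    constructor
    · exact e1
    · linarith
  · have e1 : m * β ≤ m * x := mul_le_mul_of_nonpos_left h1 hm
    have e2 : m * (x + l) ≤ m * β := mul_le_mul_of_nonpos_left h2 hm
    rw [abs_of_nonpos hm, min_eq_right (e2.trans e1)]
    constructor
    · exact e2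
    · linarith

private theorem Cnt_one {m h p x ε : ℝ} (μ : ℕ) (hm : m ≠ 0) (α : ℝ) :
    volume (Jn x μ ∩ {β | |h * α + m * β - p| < ε}) ≤
      ENNReal.ofReal (min (2 * ε / |m|) ((2 ^ μ)⁻¹)) := by
  have hm0 : 0 < |m| := abs_pos.mpr hm
  rw [ENNReal.ofReal_min]
  refine le_min ?_ ?_
  · refine (measure_mono Set.inter_subset_right).trans ?_
    have hsub : {β : ℝ | |h * α + m * β - p| < ε} ⊆
        Set.Icc ((p - h * α) / m - ε / |m|) ((p - h * α) / m + ε / |m|) := by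
      intro β hβ
      rw [Set.mem_setOf_eq] at hβ
      have e1 : |β - (p - h * α) / m| ≤ ε / |m| := by
        rw [le_div_iff₀ hm0, ← abs_mul]
        have e2 : (β - (p - h * α) / m) * m = h * α + m * β - p := by
          field_simp; ring
        rw [e2]; exact hβ.le
      rw [abs_le] at e1
      constructor
      · linarith [e1.1]
      · linarith [e1.2]
    refine (measure_mono hsub).trans ?_
    rw [Real.volume_Icc]
    apply ENNReal.ofReal_le_ofReal
    apply le_of_eq; ring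
  · refine (measure_mono Set.inter_subset_left).trans ?_
    rw [volume_Jn]

theorem cnt {α c : ℝ} (hα : BA α c) {i μ : ℕ} {m : ℤ} (hm : m ≠ 0)
    (hmi : (2 : ℝ) ^ μ ≤ 2 ^ i * |(m : ℝ)|) (x : ℝ) {ε : ℝ} (hε : 0 < ε) :
    ∑ h ∈ Finset.Ioo (-(2 : ℤ) ^ (i + 1)) (2 ^ (i + 1)),
      volume (Jn x μ ∩ {β | nn (h * α + m * β) < ε}) ≤
      ENNReal.ofReal (18 / c * 2 ^ i * ε * (2 ^ μ)⁻¹) := by
  obtain ⟨hc0, hc1, -⟩ := id hα
  have hmr : (m : ℝ) ≠ 0 := by exact_mod_cast hm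
  have hm0 : 0 < |(m : ℝ)| := abs_pos.mpr hmr
  set l : ℝ := (2 ^ μ)⁻¹ with hl
  have hl0 : 0 < l := by rw [hl]; positivity
  set y : ℝ := min ((m : ℝ) * x) (m * (x + l)) - ε with hy
  set L : ℝ := |(m : ℝ)| * l + 2 * ε with hL
  have hL0 : 0 ≤ L := by rw [hL]; positivity
  set S : Finset ℤ := Finset.Ioo (-(2 : ℤ) ^ (i + 1)) (2 ^ (i + 1)) with hS
  -- bound for p
  obtain ⟨K, hK⟩ := exists_nat_ge (|y| + L + 2 ^ (i + 1) * |α|)
  set T : Finset ℤ := Finset.Icc (-(K : ℤ)) K with hT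
  set Pr : ℤ × ℤ → Prop := fun q => y ≤ q.2 - q.1 * α ∧ (q.2 : ℝ) - q.1 * α ≤ y + L with hPr
  classical
  set F : Finset (ℤ × ℤ) := (S ×ˢ T).filter Pr with hF
  set V : ENNReal := ENNReal.ofReal (min (2 * ε / |(m : ℝ)|) l) with hV
  have hSabs : ∀ h ∈ S, |h| < 2 ^ (i + 1) := by
    intro h hh
    rw [hS, Finset.mem_Ioo] at hh
    exact abs_lt.mpr hh
  have key : ∀ h ∈ S, volume (Jn x μ ∩ {β | nn (h * α + m * β) < ε}) ≤
      ∑ p ∈ T, if Pr (h, p) then V else 0 := by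
    intro h hh
    have hsub : Jn x μ ∩ {β | nn (h * α + m * β) < ε} ⊆
        ⋃ p ∈ T.filter (fun p => Pr (h, p)),
          (Jn x μ ∩ {β | |(h : ℝ) * α + m * β - (p : ℝ)| < ε}) := by
      rintro β ⟨h1, h2⟩
      rw [Set.mem_setOf_eq] at h2
      obtain ⟨p, hp⟩ := exists_int (h * α + m * β)
      rw [hp] at h2
      have h1' := h1
      unfold Jn at h1'
      rw [Set.mem_Icc] at h1'
      obtain ⟨r1, r2⟩ := Cnt_range (m := (m : ℝ)) hl0.le h1'.1 h1'.2
      have h3 := abs_lt.mp h2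
      have hPrp : Pr (h, p) := by
        rw [hPr]
        simp only
        constructor
        · rw [hy]; linarith [h3.2]
        · rw [hy, hL]; linarith [h3.1]
      have hpT : p ∈ T := by
        have hh2 : |(h : ℝ)| ≤ 2 ^ (i + 1) := by
          have := (hSabs h hh).le
          have h4 : ((|h| : ℤ) : ℝ) ≤ ((2 ^ (i + 1) : ℤ) : ℝ) := by exact_mod_cast this
          push_cast at h4
          exact h4
        have h5 : |(h : ℝ) * α| ≤ 2 ^ (i + 1) * |α| := by
          rw [abs_mul]; exact mul_le_mul_of_nonneg_right hh2 (abs_nonneg _)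
        rw [hPr] at hPrp
        simp only at hPrp
        have h6 : |(p : ℝ)| ≤ K := by
          rw [abs_le] at h5
          rw [abs_le]
          have h7 := neg_abs_le y
          have h8 := le_abs_self y
          constructor
          · linarith [hPrp.1, h5.1]
          · linarith [hPrp.2, h5.2]
        rw [hT, Finset.mem_Icc]
        rw [abs_le] at h6
        constructor
        · have := h6.1
          exact_mod_cast this
        · exact_mod_cast h6.2
      rw [Set.mem_iUnion₂]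
      exact ⟨p, Finset.mem_filter.mpr ⟨hpT, hPrp⟩, h1, h2⟩
    refine (measure_mono hsub).trans ((measure_biUnion_finset_le _ _).trans ?_)
    rw [← Finset.sum_filter]
    refine Finset.sum_le_sum fun p _ => ?_
    exact Cnt_one μ hmr α
  have hcard : (F.card : ℝ) ≤ 2 ^ (i + 2) * L / c + 1 := by
    refine sep_count hα i y hL0 F fun q hq => ?_
    rw [hF, Finset.mem_filter, Finset.mem_product] at hq
    exact ⟨hSabs _ hq.1.1, hq.2.1, hq.2.2⟩
  have hsum : ∑ h ∈ S, ∑ p ∈ T, (if Pr (h, p) then V else 0) = (F.card : ENNReal) * V := by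
    rw [← Finset.sum_product' S T (fun h p => if Pr (h, p) then V else 0)]
    rw [← Finset.sum_filter, Finset.sum_const, nsmul_eq_mul]
  refine (Finset.sum_le_sum key).trans ?_
  rw [hsum, hV, ← ENNReal.ofReal_natCast, ← ENNReal.ofReal_mul (by positivity)]
  apply ENNReal.ofReal_le_ofReal
  have hmin0 : 0 ≤ min (2 * ε / |(m : ℝ)|) l := le_min (by positivity) hl0.le
  have hone : 1 ≤ 2 ^ i * |(m : ℝ)| * l := by
    rw [hl, ← div_eq_mul_inv, le_div_iff₀ (by positivity), one_mul]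
    exact hmi
  have hone' : 1 ≤ 2 ^ i * |(m : ℝ)| * l / c := by
    rw [le_div_iff₀ hc0]; linarith
  have hF2 : (F.card : ℝ) ≤ 2 ^ i / c * (5 * (|(m : ℝ)| * l) + 8 * ε) := by
    have e : 2 ^ i / c * (5 * (|(m : ℝ)| * l) + 8 * ε) =
        2 ^ (i + 2) * L / c + 2 ^ i * |(m : ℝ)| * l / c := by
      rw [hL]; ring
    rw [e]; linarith
  have e1 : |(m : ℝ)| * l * min (2 * ε / |(m : ℝ)|) l ≤ 2 * ε * l := by
    have := mul_le_mul_of_nonneg_left (min_le_left (2 * ε / |(m : ℝ)|) l)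
      (show 0 ≤ |(m : ℝ)| * l by positivity)
    refine this.trans (le_of_eq ?_)
    field_simp
  have e2 : ε * min (2 * ε / |(m : ℝ)|) l ≤ ε * l :=
    mul_le_mul_of_nonneg_left (min_le_right _ _) hε.le
  calc (F.card : ℝ) * min (2 * ε / |(m : ℝ)|) l
      ≤ 2 ^ i / c * (5 * (|(m : ℝ)| * l) + 8 * ε) * min (2 * ε / |(m : ℝ)|) l :=
        mul_le_mul_of_nonneg_right hF2 hmin0
    _ = 2 ^ i / c * (5 * (|(m : ℝ)| * l * min (2 * ε / |(m : ℝ)|) l) +
        8 * (ε * min (2 * ε / |(m : ℝ)|) l)) := by ring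
    _ ≤ 2 ^ i / c * (5 * (2 * ε * l) + 8 * (ε * l)) := by
        apply mul_le_mul_of_nonneg_left _ (by positivity)
        linarith
    _ = 18 / c * 2 ^ i * ε * l := by ring

end Pool.Agent.KUB
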