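import Mathlib
import Pool.Agent.KUB.Cnt

set_option autoImplicit false

/-!
KUB module Avg1: the measure of the set where some weighted form in `P a b` is small.

Group the pairs `p = (h,m) ∈ P a b` by `(i,k) = (lg h, lg m)`, `i, k < b`, `a ≤ i+k`: at most `b²`
groups.  In one group `r h ≥ 2^i`, `r m = |m| ≥ 2^k` (`two_pow_lg_le`), so `w < t` implies
`nn(hα+mβ) < t/2^{i+k}`, and `|h| < 2^{i+1}`, `2^k ≤ |m| < 2^{k+1}` (`r_lt_two_pow`): at most
`2·2^k` values of `m`, and `2^i|m| ≥ 2^{i+k} ≥ 2^a ≥ 2^μ`.  By `cnt` with `ε = t/2^{i+k}` the group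
contributes at most `2·2^k · (18/c) 2^i (t/2^{i+k}) l = (36/c) t l`.  Sum: `≤ (36/c) b² t l`.
-/

namespace Pool.Agent.KUB

open MeasureTheory
open Pool.Agent.FIB (nn)

/-- the integers `m` with `2^k ≤ |m| < 2^(k+1)` -/
noncomputable def Mk (k : ℕ) : Finset ℤ :=
  Finset.Ico ((2 : ℤ) ^ k) (2 ^ (k + 1)) ∪ Finset.Ioc (-(2 : ℤ) ^ (k + 1)) (-(2 : ℤ) ^ k)

theorem card_Mk (k : ℕ) : (Mk k).card ≤ 2 * 2 ^ k := by
  unfold Mk
  refine (Finset.card_union_le _ _).trans ?_
  rw [Int.card_Ico, Int.card_Ioc]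
  have h1 : (2 : ℤ) ^ (k + 1) - 2 ^ k = ((2 ^ k : ℕ) : ℤ) := by push_cast; ring
  have h2 : -(2 : ℤ) ^ k - -(2 : ℤ) ^ (k + 1) = ((2 ^ k : ℕ) : ℤ) := by push_cast; ring
  rw [h1, h2, Int.toNat_natCast]
  omega

theorem two_pow_lg_le_abs {m : ℤ} (hm : m ≠ 0) : (2 : ℤ) ^ lg m ≤ |m| := by
  have h1 : m.natAbs ≠ 0 := by simpa using hm
  have h2 := Nat.pow_log_le_self 2 h1
  rw [Int.abs_eq_natAbs]
  unfold lg
  exact_mod_cast h2

theorem abs_lt_two_pow_lg (m : ℤ) : |m| < (2 : ℤ) ^ (lg m + 1) := by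
  have h2 := Nat.lt_pow_succ_log_self (b := 2) (by norm_num) m.natAbs
  rw [Int.abs_eq_natAbs]
  unfold lg
  exact_mod_cast h2

theorem mem_Mk {m : ℤ} (hm : m ≠ 0) : m ∈ Mk (lg m) := by
  have h1 := two_pow_lg_le_abs hm
  have h2 := abs_lt_two_pow_lg m
  unfold Mk
  rw [Finset.mem_union, Finset.mem_Ico, Finset.mem_Ioc]
  rcases abs_cases m with ⟨h3, h4⟩ | ⟨h3, h4⟩
  · left
    rw [h3] at h1 h2
    exact ⟨h1, h2⟩
  · right
    rw [h3] at h1 h2
    constructor <;> linarith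

theorem Mk_prop {k : ℕ} {m : ℤ} (hm : m ∈ Mk k) : m ≠ 0 ∧ (2 : ℤ) ^ k ≤ |m| := by
  have h0 : (0 : ℤ) < 2 ^ k := by positivity
  unfold Mk at hm
  rw [Finset.mem_union, Finset.mem_Ico, Finset.mem_Ioc] at hm
  rcases hm with ⟨h1, h2⟩ | ⟨h1, h2⟩
  · exact ⟨by linarith [h0], le_trans h1 (le_abs_self m)⟩
  · refine ⟨by linarith [h0], ?_⟩
    have h3 := neg_abs_le m
    linarith

theorem avg1 {α c : ℝ} (hα : BA α c) {μ a b : ℕ} (hμ : μ ≤ a) (x : ℝ) {t : ℝ} (ht : 0 < t) :
    ∑ p ∈ P a b, volume (Jn x μ ∩ {β | w α β p < t}) ≤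
      ENNReal.ofReal (36 / c * b ^ 2 * t * (2 ^ μ)⁻¹) := by
  classical
  have hc := hα.1
  set V : ℝ := 36 / c * t * (2 ^ μ)⁻¹ with hV
  have hV0 : 0 ≤ V := by positivity
  have hgroup : ∀ q ∈ (Finset.range b ×ˢ Finset.range b),
      ∑ p ∈ (P a b).filter (fun p => (lg p.1, lg p.2) = q),
        volume (Jn x μ ∩ {β | w α β p < t}) ≤ ENNReal.ofReal V := by
    rintro ⟨i, k⟩ -
    by_cases hik : a ≤ i + k
    · set ε : ℝ := t / 2 ^ (i + k) with hε
      have hε0 : 0 < ε := by positivity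
      have h1 : ∑ p ∈ (P a b).filter (fun p => (lg p.1, lg p.2) = (i, k)),
          volume (Jn x μ ∩ {β | w α β p < t}) ≤
          ∑ p ∈ (Finset.Ioo (-(2 : ℤ) ^ (i + 1)) (2 ^ (i + 1))) ×ˢ Mk k,
            volume (Jn x μ ∩ {β | nn (p.1 * α + p.2 * β) < ε}) := by
        refine (Finset.sum_le_sum (fun p hp => ?_)).trans
          (Finset.sum_le_sum_of_subset (f := fun p : ℤ × ℤ =>
            volume (Jn x μ ∩ {β | nn (p.1 * α + p.2 * β) < ε})) ?_)
        · rw [Finset.mem_filter, Prod.mk.injEq] at hp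
          obtain ⟨hp, hp1, hp2⟩ := hp
          refine measure_mono (Set.inter_subset_inter_right _ fun β hβ => ?_)
          rw [Set.mem_ofPred_eq] at hβ ⊢
          rw [hε, lt_div_iff₀ (by positivity)]
          refine lt_of_le_of_lt ?_ hβ
          have h2 := two_pow_lg_le p.1
          have h3 := two_pow_lg_le p.2
          rw [hp1] at h2
          rw [hp2] at h3
          have h4 : (2 : ℝ) ^ (i + k) ≤ r p.1 * r p.2 := by
            rw [pow_add]
            exact mul_le_mul h2 h3 (by positivity) (r_pos _).le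
          unfold w lf
          rw [mul_comm]
          exact mul_le_mul_of_nonneg_right h4 (Pool.Agent.FIB.nn_nonneg _)
        · intro p hp
          rw [Finset.mem_filter, Prod.mk.injEq, mem_P] at hp
          obtain ⟨⟨hp0, -, -⟩, hp1, hp2⟩ := hp
          rw [Finset.mem_product, Finset.mem_Ioo]
          constructor
          · have h2 := abs_lt_two_pow_lg p.1
            rw [hp1] at h2
            exact abs_lt.mp h2
          · have h3 := mem_Mk hp0
            rw [hp2] at h3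
            exact h3
      refine h1.trans ?_
      rw [Finset.sum_product_right]
      have h2 : ∀ m ∈ Mk k, ∑ h ∈ Finset.Ioo (-(2 : ℤ) ^ (i + 1)) (2 ^ (i + 1)),
          volume (Jn x μ ∩ {β | nn ((h : ℝ) * α + (m : ℝ) * β) < ε}) ≤
          ENNReal.ofReal (18 / c * 2 ^ i * ε * (2 ^ μ)⁻¹) := by
        intro m hm
        obtain ⟨hm0, hm1⟩ := Mk_prop hm
        refine cnt hα hm0 ?_ x hε0
        have h3 : (2 : ℝ) ^ k ≤ |(m : ℝ)| := by exact_mod_cast hm1
        calc (2 : ℝ) ^ μ ≤ 2 ^ (i + k) := pow_le_pow_right₀ (by norm_num) (hμ.trans hik)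
          _ = 2 ^ i * 2 ^ k := pow_add _ _ _
          _ ≤ 2 ^ i * |(m : ℝ)| := by gcongr
      refine (Finset.sum_le_sum h2).trans ?_
      rw [Finset.sum_const, nsmul_eq_mul, ← ENNReal.ofReal_natCast,
        ← ENNReal.ofReal_mul (by positivity)]
      refine ENNReal.ofReal_le_ofReal ?_
      have h4 : ((Mk k).card : ℝ) ≤ 2 * 2 ^ k := by exact_mod_cast card_Mk k
      calc ((Mk k).card : ℝ) * (18 / c * 2 ^ i * ε * (2 ^ μ)⁻¹)
          ≤ (2 * 2 ^ k) * (18 / c * 2 ^ i * ε * (2 ^ μ)⁻¹) := by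
            refine mul_le_mul_of_nonneg_right h4 ?_
            positivity
        _ = V := by
          rw [hV, hε, pow_add]
          field_simp
          ring
    · have h1 : (P a b).filter (fun p => (lg p.1, lg p.2) = (i, k)) = ∅ := by
        rw [Finset.filter_eq_empty_iff]
        intro p hp hp1
        rw [mem_P] at hp
        rw [Prod.mk.injEq] at hp1
        omega
      rw [h1, Finset.sum_empty]
      exact bot_le
  have hmaps : ∀ p ∈ P a b, (lg p.1, lg p.2) ∈ Finset.range b ×ˢ Finset.range b := by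
    intro p hp
    rw [mem_P] at hp
    rw [Finset.mem_product, Finset.mem_range, Finset.mem_range]
    constructor <;> simp only <;> omega
  rw [← Finset.sum_fiberwise_of_maps_to hmaps]
  refine (Finset.sum_le_sum hgroup).trans ?_
  rw [Finset.sum_const, Finset.card_product, Finset.card_range, nsmul_eq_mul,
    ← ENNReal.ofReal_natCast, ← ENNReal.ofReal_mul (by positivity)]
  refine ENNReal.ofReal_le_ofReal (le_of_eq ?_)
  rw [hV]
  push_cast
  ring

end Pool.Agent.KUB
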