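import Mathlib
import Pool.Agent.KUB.Avg1

set_option autoImplicit false

/-!
KUB module Avg2: averages of the truncated sums.

`min_Th_le`: for `y ≥ 0`
`min (2^A) (Th y) ≤ ∑_{j<A} 2^{j+1} 1[y < 2^{-j}] + 2^A 1[y < 2^{-A}] + ∑'_j 4^{-j} 1[y < 2^{j+1}]`:
if `y ≥ 1` take `j` with `2^j ≤ y < 2^{j+1}`, `Th y ≤ y^{-2} ≤ 4^{-j}`; if `y < 2^{-A}` the second
term is `2^A`; otherwise `2^{-j-1} ≤ y < 2^{-j}` for some `j < A` and `Th y ≤ y^{-1} ≤ 2^{j+1}`.

`avg2`: integrate over `J` (`lintegral_indicator`, `lintegral_tsum`, `lintegral_finset_sum`), sum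
over `p ∈ P a b` and use `avg1`: with `C = (36/c) b² l`,
`∫ ≤ C (∑_{j<A} 2^{j+1} 2^{-j} + 2^A 2^{-A} + ∑_j 4^{-j} 2^{j+1}) = C(2A + 1 + 4) ≤ 5C(A+1)`.

`avg3`: `∫_J NV = ∑_p vol(J ∩ {w < 2/2^A})`, `avg1` with `t = 2/2^A`.
-/

namespace Pool.Agent.KUB

open MeasureTheory
open scoped ENNReal

theorem min_Th_le (A : ℕ) {y : ℝ} (_hy : 0 ≤ y) :
    min (2 ^ A) (Th y) ≤
      (∑ j ∈ Finset.range A, (if y < ((2 : ℝ) ^ j)⁻¹ then (2 : ℝ≥0∞) ^ (j + 1) else 0)) +
      (if y < ((2 : ℝ) ^ A)⁻¹ then (2 : ℝ≥0∞) ^ A else 0) +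
      ∑' j : ℕ, (if y < (2 : ℝ) ^ (j + 1) then ((4 : ℝ≥0∞) ^ j)⁻¹ else 0) := by
  have hpow : ∀ j : ℕ, ENNReal.ofReal ((2 : ℝ) ^ j) = 2 ^ j := by
    intro j
    rw [ENNReal.ofReal_pow (by norm_num)]
    norm_num
  rcases le_or_gt 1 y with h1 | h1
  · obtain ⟨j, hj1, hj2⟩ := exists_nat_pow_near h1 (by norm_num : (1 : ℝ) < 2)
    have h2 : Th y ≤ ((4 : ℝ≥0∞) ^ j)⁻¹ := by
      unfold Th
      refine (min_le_right _ _).trans ?_
      have h3 : (ENNReal.ofReal y)⁻¹ ≤ ((2 : ℝ≥0∞) ^ j)⁻¹ := by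
        rw [← hpow j]
        exact ENNReal.inv_le_inv.mpr (ENNReal.ofReal_le_ofReal hj1)
      calc (ENNReal.ofReal y)⁻¹ ^ 2 ≤ (((2 : ℝ≥0∞) ^ j)⁻¹) ^ 2 := by gcongr
        _ = ((4 : ℝ≥0∞) ^ j)⁻¹ := by
          rw [← ENNReal.inv_pow, ← pow_mul, mul_comm j 2, pow_mul]
          norm_num
    have h4 : ((4 : ℝ≥0∞) ^ j)⁻¹ ≤
        ∑' j : ℕ, (if y < (2 : ℝ) ^ (j + 1) then ((4 : ℝ≥0∞) ^ j)⁻¹ else 0) := by
      have h5 := ENNReal.le_tsum (f := fun j : ℕ =>
        (if y < (2 : ℝ) ^ (j + 1) then ((4 : ℝ≥0∞) ^ j)⁻¹ else 0)) j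
      simp only [if_pos hj2] at h5
      exact h5
    exact (min_le_right _ _).trans (h2.trans (h4.trans le_add_self))
  · rcases lt_or_ge y ((2 : ℝ) ^ A)⁻¹ with h2 | h2
    · rw [if_pos h2]
      exact (min_le_left _ _).trans (le_add_self.trans le_self_add)
    · have hex : ∃ j : ℕ, ((2 : ℝ) ^ (j + 1))⁻¹ ≤ y := by
        refine ⟨A, le_trans ?_ h2⟩
        exact inv_anti₀ (by positivity) (pow_le_pow_right₀ (by norm_num) (by omega))
      classical
      set j := Nat.find hex with hj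
      have hj1 : ((2 : ℝ) ^ (j + 1))⁻¹ ≤ y := Nat.find_spec hex
      have hA : A ≠ 0 := by
        rintro rfl
        simp at h2
        linarith
      have hjA : j < A := by
        have h3 : j ≤ A - 1 := by
          refine Nat.find_min' hex ?_
          rw [Nat.sub_add_cancel (Nat.one_le_iff_ne_zero.mpr hA)]
          exact h2
        omega
      have hj2 : y < ((2 : ℝ) ^ j)⁻¹ := by
        rcases Nat.eq_zero_or_pos j with h0 | h0
        · rw [h0]
          simpa using h1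
        · have h3 := Nat.find_min hex (m := j - 1) (by omega)
          rw [Nat.sub_add_cancel h0, not_le] at h3
          exact h3
      have h3 : Th y ≤ (2 : ℝ≥0∞) ^ (j + 1) := by
        unfold Th
        refine (min_le_left _ _).trans ?_
        rw [ENNReal.inv_le_iff_inv_le, ← hpow (j + 1),
          ← ENNReal.ofReal_inv_of_pos (by positivity)]
        exact ENNReal.ofReal_le_ofReal hj1
      have h4 : (2 : ℝ≥0∞) ^ (j + 1) ≤
          ∑ j ∈ Finset.range A, (if y < ((2 : ℝ) ^ j)⁻¹ then (2 : ℝ≥0∞) ^ (j + 1) else 0) := by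
        have h5 := Finset.single_le_sum (f := fun j : ℕ =>
          (if y < ((2 : ℝ) ^ j)⁻¹ then (2 : ℝ≥0∞) ^ (j + 1) else 0)) (s := Finset.range A)
          (fun _ _ => bot_le) (Finset.mem_range.mpr hjA)
        simp only [if_pos hj2] at h5
        exact h5
      exact (min_le_right _ _).trans (h3.trans (h4.trans (le_self_add.trans le_self_add)))

/-- the integral of a truncated indicator -/
theorem lintegral_ite_w (x : ℝ) (μ : ℕ) (α : ℝ) (p : ℤ × ℤ) (t : ℝ) (v : ℝ≥0∞) :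
    ∫⁻ β in Jn x μ, (if w α β p < t then v else 0) =
      v * volume (Jn x μ ∩ {β | w α β p < t}) := by
  have h1 : (fun β => if w α β p < t then v else 0) =
      Set.indicator {β | w α β p < t} (fun _ => v) := by
    funext β
    by_cases h : w α β p < t
    · rw [if_pos h, Set.indicator_of_mem (by exact h)]
    · rw [if_neg h, Set.indicator_of_notMem (by exact h)]
  rw [h1, lintegral_indicator (measurableSet_w_lt α t p), setLIntegral_const,
    Measure.restrict_apply (measurableSet_w_lt α t p), Set.inter_comm]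

theorem avg2 {α c : ℝ} (hα : BA α c) {μ a b : ℕ} (hμ : μ ≤ a) (x : ℝ) (A : ℕ) :
    ∫⁻ β in Jn x μ, STA A a b α β ≤
      ENNReal.ofReal (180 / c * b ^ 2 * (A + 1) * (2 ^ μ)⁻¹) := by
  have hc := hα.1
  set C : ℝ := 36 / c * b ^ 2 * (2 ^ μ)⁻¹ with hC
  have hC0 : 0 ≤ C := by positivity
  have hmeas : ∀ (p : ℤ × ℤ) (t : ℝ) (v : ℝ≥0∞),
      Measurable (fun β => if w α β p < t then v else 0) := fun p t v =>
    Measurable.ite (measurableSet_w_lt α _ p) measurable_const measurable_const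
  have hpow : ∀ j : ℕ, ENNReal.ofReal ((2 : ℝ) ^ j) = 2 ^ j := by
    intro j
    rw [ENNReal.ofReal_pow (by norm_num)]
    norm_num
  have key : ∀ t : ℝ, 0 < t → ∀ v : ℝ≥0∞,
      ∑ p ∈ P a b, v * volume (Jn x μ ∩ {β | w α β p < t}) ≤ v * ENNReal.ofReal (C * t) := by
    intro t ht v
    rw [← Finset.mul_sum]
    gcongr
    refine (avg1 hα hμ x ht).trans (ENNReal.ofReal_le_ofReal (le_of_eq ?_))
    rw [hC]
    ring
  have h1 : ∫⁻ β in Jn x μ, STA A a b α β ≤ ∑ p ∈ P a b,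
      ((∑ j ∈ Finset.range A, (2 : ℝ≥0∞) ^ (j + 1) *
        volume (Jn x μ ∩ {β | w α β p < ((2 : ℝ) ^ j)⁻¹})) +
      (2 : ℝ≥0∞) ^ A * volume (Jn x μ ∩ {β | w α β p < ((2 : ℝ) ^ A)⁻¹}) +
      ∑' j : ℕ, ((4 : ℝ≥0∞) ^ j)⁻¹ * volume (Jn x μ ∩ {β | w α β p < (2 : ℝ) ^ (j + 1)})) := by
    unfold STA
    have hm : ∀ p ∈ P a b, Measurable (fun β => min ((2 : ℝ≥0∞) ^ A) (Th (w α β p))) :=
      fun p _ => measurable_const.min (measurable_Th.comp (continuous_w α p).measurable)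
    rw [lintegral_finsetSum _ hm]
    refine Finset.sum_le_sum fun p _ => ?_
    refine (lintegral_mono fun β => min_Th_le A (w_nonneg α β p)).trans (le_of_eq ?_)
    rw [lintegral_add_right _ (Measurable.tsum fun j => hmeas p _ _),
      lintegral_add_right _ (hmeas p _ _), lintegral_finsetSum _ (fun j _ => hmeas p _ _),
      lintegral_tsum (fun j => (hmeas p _ _).aemeasurable), lintegral_ite_w]
    congr 1
    · congr 1
      exact Finset.sum_congr rfl fun j _ => lintegral_ite_w x μ α p _ _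
    · exact tsum_congr fun j => lintegral_ite_w x μ α p _ _
  refine h1.trans ?_
  rw [Finset.sum_add_distrib, Finset.sum_add_distrib, Finset.sum_comm,
    ← Summable.tsum_finsetSum (fun _ _ => ENNReal.summable)]
  have h2 : ∑ j ∈ Finset.range A, ∑ p ∈ P a b, (2 : ℝ≥0∞) ^ (j + 1) *
      volume (Jn x μ ∩ {β | w α β p < ((2 : ℝ) ^ j)⁻¹}) ≤ ENNReal.ofReal (2 * A * C) := by
    have h3 : ∀ j ∈ Finset.range A, ∑ p ∈ P a b, (2 : ℝ≥0∞) ^ (j + 1) *
        volume (Jn x μ ∩ {β | w α β p < ((2 : ℝ) ^ j)⁻¹}) ≤ ENNReal.ofReal (2 * C) := by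
      intro j _
      refine (key _ (by positivity) _).trans (le_of_eq ?_)
      rw [← hpow (j + 1), ← ENNReal.ofReal_mul (by positivity)]
      congr 1
      rw [pow_succ]
      field_simp
    refine (Finset.sum_le_sum h3).trans (le_of_eq ?_)
    rw [Finset.sum_const, Finset.card_range, nsmul_eq_mul, ← ENNReal.ofReal_natCast,
      ← ENNReal.ofReal_mul (by positivity)]
    congr 1
    ring
  have h4 : ∑ p ∈ P a b, (2 : ℝ≥0∞) ^ A *
      volume (Jn x μ ∩ {β | w α β p < ((2 : ℝ) ^ A)⁻¹}) ≤ ENNReal.ofReal C := by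
    refine (key _ (by positivity) _).trans (le_of_eq ?_)
    rw [← hpow A, ← ENNReal.ofReal_mul (by positivity)]
    congr 1
    field_simp
  have h5 : ∑' j : ℕ, ∑ p ∈ P a b, ((4 : ℝ≥0∞) ^ j)⁻¹ *
      volume (Jn x μ ∩ {β | w α β p < (2 : ℝ) ^ (j + 1)}) ≤ ENNReal.ofReal (4 * C) := by
    have h6 : ∀ j : ℕ, ∑ p ∈ P a b, ((4 : ℝ≥0∞) ^ j)⁻¹ *
        volume (Jn x μ ∩ {β | w α β p < (2 : ℝ) ^ (j + 1)}) ≤
        ENNReal.ofReal (2 * C * (1 / 2) ^ j) := by
      intro j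
      refine (key _ (by positivity) _).trans (le_of_eq ?_)
      have h7 : ((4 : ℝ≥0∞) ^ j)⁻¹ = ENNReal.ofReal (((4 : ℝ) ^ j)⁻¹) := by
        rw [ENNReal.ofReal_inv_of_pos (by positivity), ENNReal.ofReal_pow (by norm_num)]
        norm_num
      rw [h7, ← ENNReal.ofReal_mul (by positivity)]
      congr 1
      have h8 : (4 : ℝ) ^ j = 2 ^ j * 2 ^ j := by
        rw [← mul_pow]
        norm_num
      rw [h8, pow_succ, one_div, inv_pow]
      field_simp
    refine (ENNReal.tsum_le_tsum h6).trans (le_of_eq ?_)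
    rw [← ENNReal.ofReal_tsum_of_nonneg (fun j => by positivity)
      ((summable_geometric_two).mul_left _), tsum_mul_left, tsum_geometric_two]
    congr 1
    ring
  refine (add_le_add (add_le_add h2 h4) h5).trans ?_
  rw [← ENNReal.ofReal_add (by positivity) (by positivity),
    ← ENNReal.ofReal_add (by positivity) (by positivity)]
  refine ENNReal.ofReal_le_ofReal ?_
  have h9 : 180 / c * (b : ℝ) ^ 2 * (A + 1) * (2 ^ μ)⁻¹ = 5 * (A + 1) * C := by
    rw [hC]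
    ring
  rw [h9]
  have h10 : 0 ≤ (A : ℝ) * C := by positivity
  nlinarith

theorem avg3 {α c : ℝ} (hα : BA α c) {μ a b : ℕ} (hμ : μ ≤ a) (x : ℝ) (A : ℕ) :
    ∫⁻ β in Jn x μ, NV A a b α β ≤
      ENNReal.ofReal (72 / c * b ^ 2 * (2 ^ A)⁻¹ * (2 ^ μ)⁻¹) := by
  unfold NV
  rw [lintegral_finsetSum _ (fun p _ =>
    Measurable.ite (measurableSet_w_lt α _ p) measurable_const measurable_const)]
  have h1 : ∀ p ∈ P a b, ∫⁻ β in Jn x μ, (if w α β p < 2 / 2 ^ A then (1 : ℝ≥0∞) else 0) =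
      volume (Jn x μ ∩ {β | w α β p < 2 / 2 ^ A}) := by
    intro p _
    rw [lintegral_ite_w, one_mul]
  rw [Finset.sum_congr rfl h1]
  refine (avg1 hα hμ x (by positivity)).trans (ENNReal.ofReal_le_ofReal (le_of_eq ?_))
  rw [div_eq_mul_inv (2 : ℝ)]
  ring

end Pool.Agent.KUB
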