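import Mathlib
import Pool.Agent.KUB.Avg2

set_option autoImplicit false

/-!
KUB module Ae: for badly approximable `α`, almost every `β` is good with rate `(log t)^{2+ε}`.

It suffices to treat `β ∈ Jn x 0 = [x, x+1]` for every integer `x` (countable union).  For `j ≥ 1` let
`A_j = 4j`: then `4^j 2^{-A_j} = 4^{-j}` and `A_j + 1 ≤ 5j`.
* `∫_J NV A_j 0 2^j ≤ (72/c) 4^j 2^{-A_j} ≤ (72/c)/4^j` (`avg3`, `μ = 0`): summable, so by
  `ae_lt_top` of the sum of integrals (or Borel–Cantelli) for a.e. `β ∈ J` we have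
  `NV A_j 0 2^j α β = 0` for all large `j`; then `Th(w) ≤ 1/w ≤ 2^{A_j}` for `p ∈ P 0 2^j`, so
  `ST 0 2^j α β = STA A_j 0 2^j α β`.
* `∫_J STA A_j 0 2^j ≤ (180/c) 4^j (A_j+1) ≤ C 4^j j` (`avg2`); so
  `∑_j 4^{-j} j^{-2-ε} ∫_J STA A_j 0 2^j ≤ C ∑ j^{-1-ε} < ∞`, and for a.e. `β ∈ J` the sum
  `∑_j 4^{-j} j^{-2-ε} STA A_j 0 2^j α β` is finite, so `STA A_j 0 2^j α β ≤ M 4^j j^{2+ε}` for all `j ≥ 1`.
Hence for a.e. `β` there are `j₁, M` with `ST 0 2^j α β ≤ M 4^j j^{2+ε}` for `j ≥ j₁`.  Given `t`, take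
`j ≥ j₁` minimal with `t ≤ 2^j`; `ST 0 t ≤ ST 0 2^j`, and `2^j ≤ 2t` or `j = j₁`, `j ≤ C log(t+3)`; this is
`Good` with `L t = (log (t+3))^{2+ε}`, which is `≥ 1` (for `j = j₁` use `ST 0 2^{j₁} ≤ M'`).
-/

namespace Pool.Agent.KUB

open MeasureTheory
open scoped ENNReal

open Filter

private theorem ae_ST_mono {a b : ℕ} (hab : a ≤ b) (α β : ℝ) : ST 0 a α β ≤ ST 0 b α β := by
  rw [ST_add (Nat.zero_le a) hab]
  exact le_self_add

private theorem ae_ST_eq {A b : ℕ} {α β : ℝ} (h : NV A 0 b α β < 1) :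
    ST 0 b α β ≤ STA A 0 b α β := by
  have h1 : ∀ p ∈ P 0 b, 2 / 2 ^ A ≤ w α β p := by
    intro p hp
    by_contra hc
    have h2 : (1 : ℝ≥0∞) ≤ NV A 0 b α β := by
      unfold NV
      have h3 := Finset.single_le_sum (f := fun p => if w α β p < 2 / 2 ^ A then (1 : ℝ≥0∞) else 0)
        (fun _ _ => zero_le) hp
      simpa [not_le.mp hc] using h3
    exact absurd h (not_lt.mpr h2)
  unfold ST STA
  refine Finset.sum_le_sum fun p hp => le_min ?_ le_rfl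
  have h2 := h1 p hp
  have h3 : (0 : ℝ) < 2 / 2 ^ A := by positivity
  unfold Th
  refine (min_le_left _ _).trans ?_
  have h4 : ENNReal.ofReal ((2 : ℝ) / 2 ^ A) ≤ ENNReal.ofReal (w α β p) :=
    ENNReal.ofReal_le_ofReal h2
  refine (ENNReal.inv_le_inv.mpr h4).trans ?_
  rw [← ENNReal.ofReal_inv_of_pos h3]
  have h5 : ((2 : ℝ≥0∞)) ^ A = ENNReal.ofReal (2 ^ A) := by
    rw [ENNReal.ofReal_pow (by norm_num)]
    norm_num
  rw [h5]
  refine ENNReal.ofReal_le_ofReal ?_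
  rw [inv_div]
  have h6 : (0 : ℝ) < 2 ^ A := by positivity
  linarith

private theorem ae_NV {α c : ℝ} (hα : BA α c) (x : ℝ) :
    ∀ᵐ β ∂(volume.restrict (Jn x 0)), ∀ᶠ j : ℕ in atTop,
      NV (4 * (j + 1)) 0 (2 ^ (j + 1)) α β < 1 := by
  have hc : 0 < c := hα.1
  have h1 : ∑' j : ℕ, ∫⁻ β in Jn x 0, NV (4 * (j + 1)) 0 (2 ^ (j + 1)) α β ≠ ∞ := by
    have h2 : ∀ j : ℕ, ∫⁻ β in Jn x 0, NV (4 * (j + 1)) 0 (2 ^ (j + 1)) α β ≤
        ENNReal.ofReal (72 / c * (1 / 4) ^ (j + 1)) := by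
      intro j
      refine (avg3 hα le_rfl x (4 * (j + 1))).trans (ENNReal.ofReal_le_ofReal (le_of_eq ?_))
      push_cast
      rw [pow_mul, pow_zero, inv_one, mul_one, mul_assoc]
      congr 1
      rw [← pow_mul, mul_comm (j + 1) 2, pow_mul, ← div_eq_mul_inv, ← div_pow]
      norm_num
    refine ne_top_of_le_ne_top ?_ (ENNReal.tsum_le_tsum h2)
    refine Summable.tsum_ofReal_ne_top ?_
    refine Summable.mul_left _ ?_
    exact (summable_nat_add_iff 1).mpr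
      (summable_geometric_of_lt_one (by norm_num : (0 : ℝ) ≤ 1 / 4) (by norm_num))
  rw [← lintegral_tsum (fun j => (measurable_NV _ _ _ α).aemeasurable)] at h1
  have h3 := ae_lt_top' (AEMeasurable.tsum fun j =>
    (measurable_NV (4 * (j + 1)) 0 (2 ^ (j + 1)) α).aemeasurable) h1
  filter_upwards [h3] with β hβ
  have h4 := ENNReal.tendsto_atTop_zero_of_tsum_ne_top hβ.ne
  exact h4.eventually (gt_mem_nhds (by norm_num))

/-- the weights of the truncated sums -/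
private noncomputable def aeK (ε : ℝ) (j : ℕ) : ℝ :=
  ((4 : ℝ) ^ (j + 1))⁻¹ * (((j + 1 : ℕ) : ℝ) ^ (2 + ε))⁻¹

private theorem aeK_pos (ε : ℝ) (j : ℕ) : 0 < aeK ε j := by
  unfold aeK
  positivity

private theorem ae_STA {α c : ℝ} (hα : BA α c) {ε : ℝ} (hε : 0 < ε) (x : ℝ) :
    ∀ᵐ β ∂(volume.restrict (Jn x 0)),
      ∑' j : ℕ, ENNReal.ofReal (aeK ε j) * STA (4 * (j + 1)) 0 (2 ^ (j + 1)) α β < ∞ := by
  have hc : 0 < c := hα.1
  have hm : ∀ j : ℕ, Measurable (fun β =>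
      ENNReal.ofReal (aeK ε j) * STA (4 * (j + 1)) 0 (2 ^ (j + 1)) α β) := fun j =>
    (measurable_STA _ _ _ α).const_mul _
  have h1 : ∑' j : ℕ, ∫⁻ β in Jn x 0,
      ENNReal.ofReal (aeK ε j) * STA (4 * (j + 1)) 0 (2 ^ (j + 1)) α β ≠ ∞ := by
    have h2 : ∀ j : ℕ, ∫⁻ β in Jn x 0,
        ENNReal.ofReal (aeK ε j) * STA (4 * (j + 1)) 0 (2 ^ (j + 1)) α β ≤
        ENNReal.ofReal (900 / c * (((j + 1 : ℕ) : ℝ) ^ (1 + ε))⁻¹) := by
      intro j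
      rw [lintegral_const_mul _ (measurable_STA _ _ _ α)]
      refine (mul_le_mul' le_rfl (avg2 hα le_rfl x (4 * (j + 1)))).trans ?_
      rw [← ENNReal.ofReal_mul (aeK_pos ε j).le]
      refine ENNReal.ofReal_le_ofReal ?_
      unfold aeK
      push_cast
      have hj : (0 : ℝ) < (j : ℝ) + 1 := by positivity
      have h3 : ((j : ℝ) + 1) ^ (2 + ε) = ((j : ℝ) + 1) ^ (1 + ε) * ((j : ℝ) + 1) := by
        rw [show (2 + ε) = (1 + ε) + 1 by ring, Real.rpow_add_one hj.ne']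
      have h4 : (((2 : ℝ) ^ (j + 1)) ^ 2) = 4 ^ (j + 1) := by
        rw [← pow_mul, mul_comm (j + 1) 2, pow_mul]
        norm_num
      have h5 : (0 : ℝ) < ((j : ℝ) + 1) ^ (1 + ε) := Real.rpow_pos_of_pos hj _
      rw [h3, h4, pow_zero, inv_one, mul_one]
      have h6 : ((4 : ℝ) ^ (j + 1))⁻¹ * (((j : ℝ) + 1) ^ (1 + ε) * ((j : ℝ) + 1))⁻¹ *
          (180 / c * 4 ^ (j + 1) * (4 * ((j : ℝ) + 1) + 1)) =
          180 / c * (((j : ℝ) + 1) ^ (1 + ε))⁻¹ * ((4 * ((j : ℝ) + 1) + 1) / ((j : ℝ) + 1)) := by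
        field_simp
      rw [h6]
      have h7 : (4 * ((j : ℝ) + 1) + 1) / ((j : ℝ) + 1) ≤ 5 := by
        rw [div_le_iff₀ hj]
        have : (0 : ℝ) ≤ j := Nat.cast_nonneg j
        linarith
      calc 180 / c * (((j : ℝ) + 1) ^ (1 + ε))⁻¹ * ((4 * ((j : ℝ) + 1) + 1) / ((j : ℝ) + 1)) ≤
          180 / c * (((j : ℝ) + 1) ^ (1 + ε))⁻¹ * 5 :=
            mul_le_mul_of_nonneg_left h7 (by positivity)
        _ = 900 / c * (((j : ℝ) + 1) ^ (1 + ε))⁻¹ := by ring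
    refine ne_top_of_le_ne_top ?_ (ENNReal.tsum_le_tsum h2)
    refine Summable.tsum_ofReal_ne_top ?_
    refine Summable.mul_left _ ?_
    exact (summable_nat_add_iff (f := fun n : ℕ => ((n : ℝ) ^ (1 + ε))⁻¹) 1).mpr
      (Real.summable_nat_rpow_inv.mpr (by linarith))
  rw [← lintegral_tsum (fun j => (hm j).aemeasurable)] at h1
  exact ae_lt_top' (AEMeasurable.tsum fun j => (hm j).aemeasurable) h1

private theorem ae_good_of {α β ε : ℝ} (hε : 0 < ε)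
    (h1 : ∀ᶠ j : ℕ in atTop, NV (4 * (j + 1)) 0 (2 ^ (j + 1)) α β < 1)
    (h2 : ∑' j : ℕ, ENNReal.ofReal (aeK ε j) * STA (4 * (j + 1)) 0 (2 ^ (j + 1)) α β < ∞) :
    β ∈ Good α (fun t => (Real.log (t + 3)) ^ (2 + ε)) := by
  obtain ⟨j₁, hj₁⟩ := eventually_atTop.mp h1
  obtain ⟨S, hS⟩ : ∃ S : ℝ, 0 ≤ S ∧ ∀ j : ℕ,
      ENNReal.ofReal (aeK ε j) * STA (4 * (j + 1)) 0 (2 ^ (j + 1)) α β ≤ ENNReal.ofReal S := by
    refine ⟨(∑' j : ℕ, ENNReal.ofReal (aeK ε j) *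
      STA (4 * (j + 1)) 0 (2 ^ (j + 1)) α β).toReal, ENNReal.toReal_nonneg, fun j => ?_⟩
    rw [ENNReal.ofReal_toReal h2.ne]
    exact ENNReal.le_tsum (f := fun j : ℕ => ENNReal.ofReal (aeK ε j) *
      STA (4 * (j + 1)) 0 (2 ^ (j + 1)) α β) j
  obtain ⟨hS0, hS⟩ := hS
  refine ⟨(S + 1) * 4 ^ (j₁ + 1) * ((j₁ : ℝ) + 3) ^ (2 + ε), by positivity, fun t => ?_⟩
  obtain ⟨j, hj⟩ : ∃ j, j = j₁ + Nat.log 2 (t + 1) := ⟨_, rfl⟩
  have ht1 : t ≤ 2 ^ (j + 1) := by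
    have h3 := Nat.lt_pow_succ_log_self (b := 2) (by norm_num) (t + 1)
    have h4 : 2 ^ (Nat.log 2 (t + 1)).succ ≤ 2 ^ (j + 1) :=
      Nat.pow_le_pow_right (by norm_num) (by omega)
    omega
  have ht2 : ((2 : ℝ) ^ (j + 1)) ≤ 2 ^ (j₁ + 1) * (t + 1) := by
    have h3 := Nat.pow_log_le_self 2 (x := t + 1) (by omega)
    have h4 : ((2 : ℝ) ^ (Nat.log 2 (t + 1))) ≤ (t : ℝ) + 1 := by exact_mod_cast h3
    have h5 : (2 : ℝ) ^ (j + 1) = 2 ^ (j₁ + 1) * 2 ^ (Nat.log 2 (t + 1)) := by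
      rw [hj, ← pow_add]
      congr 1
      omega
    rw [h5]
    exact mul_le_mul_of_nonneg_left h4 (by positivity)
  have hlog3 : 1 ≤ Real.log ((t : ℝ) + 3) := by
    rw [Real.le_log_iff_exp_le (by positivity)]
    have h3 : Real.exp 1 < 3 := Real.exp_one_lt_three
    have h4 : (0 : ℝ) ≤ t := Nat.cast_nonneg t
    linarith
  have ht3 : ((j : ℝ) + 1) ≤ ((j₁ : ℝ) + 3) * Real.log (t + 3) := by
    have h3 := Nat.pow_log_le_self 2 (x := t + 1) (by omega)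
    have h4 : ((2 : ℝ) ^ (Nat.log 2 (t + 1))) ≤ (t : ℝ) + 1 := by exact_mod_cast h3
    have h5 : (Nat.log 2 (t + 1) : ℝ) * Real.log 2 ≤ Real.log ((t : ℝ) + 3) := by
      rw [← Real.log_pow]
      refine Real.log_le_log (by positivity) ?_
      linarith
    have h6 : (1 : ℝ) / 2 ≤ Real.log 2 := by
      have := Real.log_two_gt_d9
      linarith
    have h7 : (Nat.log 2 (t + 1) : ℝ) ≤ 2 * Real.log ((t : ℝ) + 3) := by
      have h8 : (0 : ℝ) ≤ (Nat.log 2 (t + 1) : ℝ) := Nat.cast_nonneg _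
      nlinarith
    have h8 : (j : ℝ) = j₁ + Nat.log 2 (t + 1) := by
      rw [hj]
      push_cast
      ring
    have h9 : (0 : ℝ) ≤ j₁ := Nat.cast_nonneg _
    rw [h8]
    nlinarith
  refine (ae_ST_mono ht1 α β).trans ((ae_ST_eq (hj₁ j (by omega))).trans ?_)
  have hK := aeK_pos ε j
  have h3 : STA (4 * (j + 1)) 0 (2 ^ (j + 1)) α β ≤ ENNReal.ofReal (S / aeK ε j) := by
    rw [ENNReal.ofReal_div_of_pos hK, ENNReal.le_div_iff_mul_le
      (Or.inl (by simpa using hK)) (Or.inl ENNReal.ofReal_ne_top), mul_comm]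
    exact hS j
  refine h3.trans (ENNReal.ofReal_le_ofReal ?_)
  have h4 : S / aeK ε j = S * (4 ^ (j + 1) * ((j : ℝ) + 1) ^ (2 + ε)) := by
    unfold aeK
    push_cast
    rw [div_eq_mul_inv, mul_inv, inv_inv, inv_inv]
  rw [h4]
  have h5 : (4 : ℝ) ^ (j + 1) ≤ 4 ^ (j₁ + 1) * ((t : ℝ) + 1) ^ 2 := by
    have h6 : (4 : ℝ) ^ (j + 1) = (2 ^ (j + 1)) ^ 2 := by
      rw [← pow_mul, mul_comm (j + 1) 2, pow_mul]
      norm_num
    have h7 : (4 : ℝ) ^ (j₁ + 1) = (2 ^ (j₁ + 1)) ^ 2 := by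
      rw [← pow_mul, mul_comm (j₁ + 1) 2, pow_mul]
      norm_num
    rw [h6, h7, ← mul_pow]
    exact pow_le_pow_left₀ (by positivity) ht2 2
  have h6 : ((j : ℝ) + 1) ^ (2 + ε) ≤
      ((j₁ : ℝ) + 3) ^ (2 + ε) * (Real.log (t + 3)) ^ (2 + ε) := by
    rw [← Real.mul_rpow (by positivity) (by linarith)]
    exact Real.rpow_le_rpow (by positivity) ht3 (by linarith)
  have h7 : (0 : ℝ) < (Real.log ((t : ℝ) + 3)) ^ (2 + ε) :=
    Real.rpow_pos_of_pos (by linarith) _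
  calc S * (4 ^ (j + 1) * ((j : ℝ) + 1) ^ (2 + ε)) ≤
      (S + 1) * ((4 ^ (j₁ + 1) * ((t : ℝ) + 1) ^ 2) *
        (((j₁ : ℝ) + 3) ^ (2 + ε) * (Real.log (t + 3)) ^ (2 + ε))) := by
        refine mul_le_mul (by linarith) ?_ (by positivity) (by positivity)
        exact mul_le_mul h5 h6 (by positivity) (by positivity)
    _ = (S + 1) * 4 ^ (j₁ + 1) * ((j₁ : ℝ) + 3) ^ (2 + ε) * (t + 1) ^ 2 *
        (Real.log (t + 3)) ^ (2 + ε) := by ring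

theorem ae_good {α c : ℝ} (hα : BA α c) {ε : ℝ} (hε : 0 < ε) :
    ∀ᵐ β : ℝ, β ∈ Good α (fun t => (Real.log (t + 3)) ^ (2 + ε)) := by
  have h1 : ∀ n : ℤ, ∀ᵐ β : ℝ, β ∈ Jn n 0 →
      β ∈ Good α (fun t => (Real.log (t + 3)) ^ (2 + ε)) := by
    intro n
    rw [← ae_restrict_iff' (measurableSet_Jn n 0)]
    filter_upwards [ae_NV hα n, ae_STA hα hε n] with β h2 h3
    exact ae_good_of hε h2 h3
  filter_upwards [ae_all_iff.mpr h1] with β hβ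
  refine hβ ⌊β⌋ ?_
  unfold Jn
  rw [pow_zero, inv_one]
  exact ⟨Int.floor_le β, (Int.lt_floor_add_one β).le⟩

end Pool.Agent.KUB
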