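import Mathlib
import Pool.Agent.KUB.Sep

set_option autoImplicit false

/-!
KUB module Alpha0: the terms `m = 0`.

For `2^i ≤ |h| < 2^{i+1}`: `nn(hα) ≥ c/|h| ≥ c/2^{i+1} =: τ`.  For `j ≥ 0`, the number of `h` with
`|h| < 2^{i+1}` and `nn(hα) < 2^{j+1} τ` is at most the number of pairs `(h,p)` with
`p - hα ∈ [-2^{j+1}τ, 2^{j+1}τ]`, `≤ 2^{i+2} · 2·2^{j+1} τ/c + 1 = 2^{j+3} + 1 ≤ 2^{j+4}` (`sep_count`).
For `2^j τ ≤ nn(hα) < 2^{j+1} τ`, `r h nn(hα) ≥ 2^i 2^j τ = 2^j c/2`, so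
`Th ≤ (2/(2^j c))² = 4/(c² 4^j)`.  Sum over `j`: `∑ 2^{j+4} 4/(c² 4^j) = 128/c²`.
`cn n h ≤ min(1, 2^{n - lg h})`, so the sum is at most
`∑_i min(1,2^{n-i}) 128/c² ≤ (n + 1 + 1) 128/c² ≤ (256/c²)(n+1)`.
-/

namespace Pool.Agent.KUB

open Pool.Agent.FIB
open scoped ENNReal

/-- the `h` with `|h| < 2^{i+1}` and `nn(hα) < 2^{j+1} c/2^{i+1}` -/
private noncomputable def Alpha0_S (α c : ℝ) (i j : ℕ) : Finset ℤ :=
  open Classical in
  (Finset.Ioo (-(2 : ℤ) ^ (i + 1)) (2 ^ (i + 1))).filter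
    (fun h => nn (h * α) < 2 ^ (j + 1) * (c / 2 ^ (i + 1)))

private theorem Alpha0_card {α c : ℝ} (hα : BA α c) (i j : ℕ) :
    ((Alpha0_S α c i j).card : ℝ) ≤ 2 ^ (j + 4) := by
  obtain ⟨hc0, hc1, -⟩ := id hα
  classical
  set D : ℝ := 2 ^ (j + 1) * (c / 2 ^ (i + 1)) with hD
  have hD0 : 0 ≤ D := by rw [hD]; positivity
  set F : Finset (ℤ × ℤ) := (Alpha0_S α c i j).image (fun h : ℤ => (h, round ((h : ℝ) * α))) with hF
  have hcard : F.card = (Alpha0_S α c i j).card := by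
    rw [hF]
    apply Finset.card_image_of_injective
    intro a b hab
    exact (Prod.mk.inj hab).1
  rw [← hcard]
  have h1 := sep_count hα i (-D) (L := 2 * D) (by linarith) F (by
    intro q hq
    rw [hF, Finset.mem_image] at hq
    obtain ⟨h, hh, rfl⟩ := hq
    unfold Alpha0_S at hh
    rw [Finset.mem_filter, Finset.mem_Ioo] at hh
    refine ⟨abs_lt.mpr hh.1, ?_⟩
    have h2 := hh.2
    rw [nn_eq, ← hD] at h2
    have h3 := abs_lt.mp h2
    constructor
    · simp only; linarith [h3.2]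
    · simp only; linarith [h3.1])
  refine h1.trans ?_
  have e : (2 : ℝ) ^ (i + 2) * (2 * D) / c = 2 ^ (j + 3) := by
    rw [hD]; field_simp; ring
  rw [e]
  have h4 : (1 : ℝ) ≤ 2 ^ (j + 3) := one_le_pow₀ (by norm_num)
  have h5 : (2 : ℝ) ^ (j + 4) = 2 ^ (j + 3) + 2 ^ (j + 3) := by ring
  linarith

private theorem Alpha0_nn {α c : ℝ} (hα : BA α c) {h : ℤ} (hh : h ≠ 0) :
    c ≤ r h * nn (h * α) := by
  obtain ⟨hc0, hc1, h3⟩ := hα
  have h1 : 1 ≤ h.natAbs := by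
    have := Int.natAbs_pos.mpr hh; omega
  have h2 := h3 h.natAbs h1
  rw [r_eq_natAbs hh]
  rcases Int.natAbs_eq h with h4 | h4
  · have e : ((h : ℤ) : ℝ) = (h.natAbs : ℝ) := by
      conv_lhs => rw [h4]
      simp
    rw [e]; exact h2
  · have e : ((h : ℤ) : ℝ) = -(h.natAbs : ℝ) := by
      conv_lhs => rw [h4]
      simp
    rw [e, neg_mul, nn_neg]; exact h2

private theorem Alpha0_pt {α c : ℝ} (hα : BA α c) (n : ℕ) {h : ℤ} (hh : h ≠ 0) :
    ∃ i j : ℕ, h ∈ Alpha0_S α c i j ∧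
      ENNReal.ofReal (cn n h) * Th (r h * nn (h * α)) ≤
        ENNReal.ofReal (min 1 (2 ^ n / 2 ^ i)) * ENNReal.ofReal (4 / c ^ 2 * (1 / 4) ^ j) := by
  obtain ⟨hc0, hc1, -⟩ := id hα
  have hnn := Alpha0_nn hα hh
  set i := lg h with hi
  have hlo : (2 : ℝ) ^ i ≤ r h := two_pow_lg_le h
  have hhi : r h < 2 ^ (i + 1) := r_lt_two_pow h
  have hτ0 : 0 < c / 2 ^ (i + 1) := by positivity
  have hn0 := nn_nonneg (h * α)
  have h1 : 1 ≤ nn (h * α) / (c / 2 ^ (i + 1)) := by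
    rw [le_div_iff₀ hτ0, one_mul, div_le_iff₀ (by positivity)]
    calc c ≤ r h * nn (h * α) := hnn
      _ ≤ 2 ^ (i + 1) * nn (h * α) := mul_le_mul_of_nonneg_right hhi.le hn0
      _ = nn (h * α) * 2 ^ (i + 1) := by ring
  obtain ⟨j, hj1, hj2⟩ := exists_nat_pow_near h1 (y := (2 : ℝ)) (by norm_num)
  rw [le_div_iff₀ hτ0] at hj1
  rw [div_lt_iff₀ hτ0] at hj2
  refine ⟨i, j, ?_, ?_⟩
  · unfold Alpha0_S
    rw [Finset.mem_filter, Finset.mem_Ioo]
    refine ⟨?_, hj2⟩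
    have h2 : |(h : ℝ)| < 2 ^ (i + 1) := lt_of_le_of_lt (abs_le_r h) hhi
    have h3 : |h| < 2 ^ (i + 1) := by
      have : ((|h| : ℤ) : ℝ) < ((2 ^ (i + 1) : ℤ) : ℝ) := by push_cast; exact h2
      exact_mod_cast this
    exact abs_lt.mp h3
  · refine mul_le_mul' ?_ ?_
    · apply ENNReal.ofReal_le_ofReal
      unfold cn
      apply min_le_min_left
      apply div_le_div_of_nonneg_left (by positivity) (by positivity) hlo
    · unfold Th
      refine (min_le_right _ _).trans ?_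
      have h5 : 2 ^ j * c / 2 ≤ r h * nn (h * α) := by
        calc 2 ^ j * c / 2 = 2 ^ i * (2 ^ j * (c / 2 ^ (i + 1))) := by
              rw [pow_succ]; field_simp
          _ ≤ r h * nn (h * α) := mul_le_mul hlo hj1 (by positivity) (r_pos h).le
      have h6 : 0 < 2 ^ j * c / 2 := by positivity
      have h7 : (ENNReal.ofReal (r h * nn (h * α)))⁻¹ ≤ (ENNReal.ofReal (2 ^ j * c / 2))⁻¹ :=
        ENNReal.inv_le_inv.mpr (ENNReal.ofReal_le_ofReal h5)
      refine (pow_le_pow_left' h7 2).trans (le_of_eq ?_)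
      rw [← ENNReal.ofReal_inv_of_pos h6, ← ENNReal.ofReal_pow (by positivity)]
      congr 1
      have e4 : ((1 : ℝ) / 4) ^ j = ((2 ^ j) ^ 2)⁻¹ := by
        rw [← pow_mul, mul_comm j 2, pow_mul, one_div, inv_pow]; norm_num
      rw [e4]
      field_simp
      norm_num

private theorem Alpha0_geo (a : ℝ) (ha : 0 ≤ a) :
    ∑' j : ℕ, ENNReal.ofReal (a * (1 / 2) ^ j) = ENNReal.ofReal (2 * a) := by
  rw [← ENNReal.ofReal_tsum_of_nonneg (fun j => by positivity)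
    (summable_geometric_two.mul_left a), tsum_mul_left, tsum_geometric_two]
  congr 1; ring

private theorem Alpha0_i (n : ℕ) :
    ∑' i : ℕ, ENNReal.ofReal (min 1 (2 ^ n / 2 ^ i)) ≤ ENNReal.ofReal (n + 2) := by
  rw [← ENNReal.summable.sum_add_tsum_nat_add' (k := n + 1)]
  have h1 : ∑ i ∈ Finset.range (n + 1), ENNReal.ofReal (min 1 (2 ^ n / 2 ^ i)) ≤
      ENNReal.ofReal (n + 1) := by
    calc ∑ i ∈ Finset.range (n + 1), ENNReal.ofReal (min 1 (2 ^ n / 2 ^ i))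
        ≤ ∑ i ∈ Finset.range (n + 1), 1 := by
          refine Finset.sum_le_sum fun i _ => ?_
          rw [← ENNReal.ofReal_one]
          exact ENNReal.ofReal_le_ofReal (min_le_left _ _)
      _ = ENNReal.ofReal (n + 1) := by
          rw [Finset.sum_const, Finset.card_range, nsmul_eq_mul, mul_one, ← ENNReal.ofReal_natCast]
          congr 1; push_cast; ring
  have h2 : ∑' i : ℕ, ENNReal.ofReal (min 1 (2 ^ n / 2 ^ (i + (n + 1)))) ≤ ENNReal.ofReal 1 := by
    calc ∑' i : ℕ, ENNReal.ofReal (min 1 (2 ^ n / 2 ^ (i + (n + 1))))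
        ≤ ∑' i : ℕ, ENNReal.ofReal (1 / 2 * (1 / 2) ^ i) := by
          refine ENNReal.tsum_le_tsum fun i => ENNReal.ofReal_le_ofReal ((min_le_right _ _).trans
            (le_of_eq ?_))
          rw [show i + (n + 1) = i + 1 + n by ring, pow_add, one_div, inv_pow, pow_succ]
          field_simp
      _ = ENNReal.ofReal 1 := by
          rw [Alpha0_geo _ (by norm_num)]; norm_num
  refine (add_le_add h1 h2).trans ?_
  rw [← ENNReal.ofReal_add (by positivity) (by norm_num)]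
  apply ENNReal.ofReal_le_ofReal
  linarith

theorem alpha0 {α c : ℝ} (hα : BA α c) (n : ℕ) :
    ∑' h : ℤ, (if h = 0 then 0 else ENNReal.ofReal (cn n h) * Th (r h * nn (h * α))) ≤
      ENNReal.ofReal (256 / c ^ 2 * (n + 1)) := by
  obtain ⟨hc0, hc1, -⟩ := id hα
  classical
  set A : ℕ → ℝ≥0∞ := fun i => ENNReal.ofReal (min 1 (2 ^ n / 2 ^ i)) with hA
  set B : ℕ → ℝ≥0∞ := fun j => ENNReal.ofReal (4 / c ^ 2 * (1 / 4) ^ j) with hB
  have h1 : ∀ h : ℤ, (if h = 0 then 0 else ENNReal.ofReal (cn n h) * Th (r h * nn (h * α))) ≤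
      ∑' i : ℕ, ∑' j : ℕ, if h ∈ Alpha0_S α c i j then A i * B j else 0 := by
    intro h
    by_cases hh : h = 0
    · rw [if_pos hh]; exact bot_le
    · rw [if_neg hh]
      obtain ⟨i, j, hm, hle⟩ := Alpha0_pt hα n hh
      refine hle.trans ?_
      refine le_trans ?_ (ENNReal.le_tsum i)
      refine le_trans ?_ (ENNReal.le_tsum j)
      rw [if_pos hm]
  refine (ENNReal.tsum_le_tsum h1).trans ?_
  rw [ENNReal.tsum_comm]
  have h2 : ∀ i : ℕ, ∑' h : ℤ, ∑' j : ℕ, (if h ∈ Alpha0_S α c i j then A i * B j else 0) ≤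
      A i * ENNReal.ofReal (128 / c ^ 2) := by
    intro i
    rw [ENNReal.tsum_comm]
    have h3 : ∀ j : ℕ, ∑' h : ℤ, (if h ∈ Alpha0_S α c i j then A i * B j else 0) ≤
        A i * ENNReal.ofReal (64 / c ^ 2 * (1 / 2) ^ j) := by
      intro j
      rw [tsum_eq_sum (s := Alpha0_S α c i j) (fun h hh => if_neg hh)]
      rw [Finset.sum_congr rfl (fun h hh => if_pos hh), Finset.sum_const, nsmul_eq_mul]
      have h4 : ((Alpha0_S α c i j).card : ℝ≥0∞) ≤ ENNReal.ofReal (2 ^ (j + 4)) := by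
        rw [← ENNReal.ofReal_natCast]
        exact ENNReal.ofReal_le_ofReal (Alpha0_card hα i j)
      calc ((Alpha0_S α c i j).card : ℝ≥0∞) * (A i * B j)
          ≤ ENNReal.ofReal (2 ^ (j + 4)) * (A i * B j) := by gcongr
        _ = A i * (ENNReal.ofReal (2 ^ (j + 4)) * B j) := by ring
        _ = A i * ENNReal.ofReal (64 / c ^ 2 * (1 / 2) ^ j) := by
            rw [hB]
            simp only
            rw [← ENNReal.ofReal_mul (by positivity)]
            congr 2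
            have e1 : ((1 : ℝ) / 4) ^ j = (1 / 2) ^ j * (1 / 2) ^ j := by
              rw [← mul_pow]; norm_num
            have e2 : (2 : ℝ) ^ j * (1 / 2) ^ j = 1 := by
              rw [← mul_pow]; norm_num
            rw [e1, pow_add]
            calc (2 : ℝ) ^ j * 2 ^ 4 * (4 / c ^ 2 * ((1 / 2) ^ j * (1 / 2) ^ j))
                = 64 / c ^ 2 * (2 ^ j * (1 / 2) ^ j) * (1 / 2) ^ j := by ring
              _ = 64 / c ^ 2 * (1 / 2) ^ j := by rw [e2]; ring
    refine (ENNReal.tsum_le_tsum h3).trans ?_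
    rw [ENNReal.tsum_mul_left, Alpha0_geo _ (by positivity)]
    apply le_of_eq
    congr 2; ring
  refine (ENNReal.tsum_le_tsum h2).trans ?_
  rw [ENNReal.tsum_mul_right]
  refine (mul_le_mul_left (Alpha0_i n) _).trans ?_
  rw [← ENNReal.ofReal_mul (by positivity)]
  apply ENNReal.ofReal_le_ofReal
  have h5 : (0 : ℝ) ≤ n := Nat.cast_nonneg n
  have h6 : 0 < 128 / c ^ 2 := by positivity
  have e : 256 / c ^ 2 * ((n : ℝ) + 1) = (2 * n + 2) * (128 / c ^ 2) := by ring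
  rw [e]
  exact mul_le_mul_of_nonneg_right (by linarith) h6.le

end Pool.Agent.KUB
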