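import Mathlib
import Pool.Agent.KUB.A3

set_option autoImplicit false

/-!
KUB module Maj: profiles, and the majorant near the two jumps of `I a`.

`Maj i K A`: `A ≥ 0` is an absolutely convergent Fourier series with coefficients
`≤ K ψ'_i(h)/2^i`.  `Prof i K G c`: `G` is an absolutely convergent Fourier series with coefficients
`‖c h‖ ≤ K ψ_i(h)/r(h)`, dominated by some `A` with `Maj i K A`.

`exists_maj`.  Put `δ = 2^{-i}`, `η = min 1 (6δ)` and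
  `A x = A3 δ (I η) (x + 3δ) + A3 δ (I η) (x + 3δ - a)`.
Coefficients: `coef_shift`, `coef_a3`, `norm_coef_ind_le`, `norm_kap3_le`:
`‖·‖ ≤ 2 * η * psi' i h ≤ 12 δ psi' i h`; summable by `summable_psi'`; pointwise sum by `hasSum_a3`
at the points `x + 3δ`, `x + 3δ - a` (`e(h(x+s)) = e(hs) e(hx)`).
Domination.  Fix `x`.  If `3δ ≤ {x+3δ}` and `3δ ≤ {x+3δ-a}`, then by `ind_const` (`L = 3δ`)
`I a (x+t) = I a x` for `0 ≤ t ≤ 3δ`, so by `a3_of_const` both `A3 δ (I a) x` and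
`A3 (δ/2) (I a) x` (`3 * (δ/2) ≤ 3δ`) equal `I a x`: the left sides vanish, and `A x ≥ 0`.
Otherwise one of `y = x+3δ`, `y = x+3δ-a` has `{y} < 3δ`; then for `0 ≤ t ≤ 3δ`
`{y+t} < η`: if `η = 1` this is `fract_lt_one`; if `6δ < 1` then `{y}+t < 6δ < 1`, so
`{y+t} = {y}+t < 6δ = η`.  So `I η (y+t) = 1` and `A3 δ (I η) y = 1`, `A x ≥ 1`, while the left
sides are differences of two numbers in `[0,1]`.
-/

namespace Pool.Agent.KUB

/-- majorants at level `i` -/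
structure Maj (i : ℕ) (K : ℝ) (A : ℝ → ℝ) : Prop where
  nonneg : ∀ x, 0 ≤ A x
  coefs : ∃ a : ℤ → ℂ, Summable (fun h => ‖a h‖) ∧
    (∀ x : ℝ, HasSum (fun h : ℤ => a h * e (h * x)) (A x : ℂ)) ∧
    ∀ h, ‖a h‖ ≤ K * psi' i h / 2 ^ i

/-- profiles at level `i` -/
structure Prof (i : ℕ) (K : ℝ) (G : ℝ → ℝ) (c : ℤ → ℂ) : Prop where
  sum : Summable (fun h => ‖c h‖)
  hasSum : ∀ x : ℝ, HasSum (fun h : ℤ => c h * e (h * x)) (G x : ℂ)
  bound : ∀ h, ‖c h‖ ≤ K * psi i h / r h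
  maj : ∃ A, Maj i K A ∧ ∀ x, |G x| ≤ A x

theorem psi_nonneg (i : ℕ) (h : ℤ) : 0 ≤ psi i h := by
  have := r_pos h
  unfold psi; positivity

theorem Maj.mono {i : ℕ} {K K' : ℝ} {A : ℝ → ℝ} (hA : Maj i K A) (h : K ≤ K') : Maj i K' A := by
  refine ⟨hA.nonneg, ?_⟩
  obtain ⟨a, h1, h2, h3⟩ := hA.coefs
  refine ⟨a, h1, h2, fun z => (h3 z).trans ?_⟩
  have := psi'_nonneg i z
  gcongr

theorem Prof.mono {i : ℕ} {K K' : ℝ} {G : ℝ → ℝ} {c : ℤ → ℂ} (hG : Prof i K G c) (h : K ≤ K') :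
    Prof i K' G c := by
  refine ⟨hG.sum, hG.hasSum, fun z => (hG.bound z).trans ?_, ?_⟩
  · have := psi_nonneg i z
    have := r_pos z
    gcongr
  · obtain ⟨A, h1, h2⟩ := hG.maj
    exact ⟨A, h1.mono h, h2⟩

theorem fract_add_lt {η δ y t : ℝ} (hη : η = min 1 (6 * δ)) (hy : Int.fract y < 3 * δ)
    (ht0 : 0 ≤ t) (ht : t ≤ 3 * δ) : Int.fract (y + t) < η := by
  rw [hη]
  rcases le_or_gt 1 (6 * δ) with h | h
  · rw [min_eq_left h]; exact Int.fract_lt_one _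
  · rw [min_eq_right h.le]
    have h0 := Int.fract_nonneg y
    have h1 : y + t = (⌊y⌋ : ℝ) + (Int.fract y + t) := by
      have := Int.floor_add_fract y
      linarith
    rw [h1, Int.fract_intCast_add, Int.fract_eq_self.mpr ⟨by linarith, by linarith⟩]
    linarith

/-- the pointwise domination, for a general step `δ` -/
theorem dom_aux {a δ η : ℝ} (ha0 : 0 ≤ a) (ha1 : a ≤ 1) (hδ : 0 < δ) (hη : η = min 1 (6 * δ))
    (x : ℝ) : |I a x - A3 δ (I a) x| ≤ A3 δ (I η) (x + 3 * δ) + A3 δ (I η) (x + (3 * δ - a)) ∧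
      |A3 (δ / 2) (I a) x - A3 δ (I a) x| ≤
        A3 δ (I η) (x + 3 * δ) + A3 δ (I η) (x + (3 * δ - a)) := by
  have hN : Nice (I a) := nice_ind a
  have hJ : Nice (A3 δ (I η)) := (nice_ind η).a3 hδ
  have hA1 : Nice (A3 δ (I a)) := hN.a3 hδ
  have hA2 : Nice (A3 (δ / 2) (I a)) := hN.a3 (by positivity)
  have key : ∀ y : ℝ, Int.fract y < 3 * δ → A3 δ (I η) y = 1 := by
    intro y hy
    refine a3_of_const hδ fun t ht0 ht => ?_
    unfold I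
    rw [if_pos (fract_add_lt hη hy ht0 ht)]
  have hp := hJ.nonneg (x + 3 * δ)
  have hq := hJ.nonneg (x + (3 * δ - a))
  have e1 := hN.nonneg x
  have e2 := hN.le_one x
  have e3 := hA1.nonneg x
  have e4 := hA1.le_one x
  have e5 := hA2.nonneg x
  have e6 := hA2.le_one x
  have big : 1 ≤ A3 δ (I η) (x + 3 * δ) + A3 δ (I η) (x + (3 * δ - a)) →
      |I a x - A3 δ (I a) x| ≤ A3 δ (I η) (x + 3 * δ) + A3 δ (I η) (x + (3 * δ - a)) ∧
      |A3 (δ / 2) (I a) x - A3 δ (I a) x| ≤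
        A3 δ (I η) (x + 3 * δ) + A3 δ (I η) (x + (3 * δ - a)) := by
    intro h
    constructor
    · exact (abs_le.mpr ⟨by linarith, by linarith⟩ : |I a x - A3 δ (I a) x| ≤ 1).trans h
    · exact (abs_le.mpr ⟨by linarith, by linarith⟩ :
        |A3 (δ / 2) (I a) x - A3 δ (I a) x| ≤ 1).trans h
  rcases lt_or_ge (Int.fract (x + 3 * δ)) (3 * δ) with h | h
  · exact big (by rw [key _ h]; linarith)
  rcases lt_or_ge (Int.fract (x + (3 * δ - a))) (3 * δ) with h' | h'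
  · exact big (by rw [key _ h']; linarith)
  have h'' : 3 * δ ≤ Int.fract (x + 3 * δ - a) := by
    rwa [show x + 3 * δ - a = x + (3 * δ - a) by ring]
  have hc : ∀ t, 0 ≤ t → t ≤ 3 * δ → I a (x + t) = I a x := fun t ht0 ht =>
    ind_const ha0 ha1 (by positivity) h h'' ht0 ht
  have f1 : A3 δ (I a) x = I a x := a3_of_const hδ hc
  have f2 : A3 (δ / 2) (I a) x = I a x :=
    a3_of_const (by positivity) fun t ht0 ht => hc t ht0 (by linarith)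
  rw [f1, f2, sub_self, abs_zero]
  exact ⟨by linarith, by linarith⟩

theorem exists_maj {a : ℝ} (ha0 : 0 ≤ a) (ha1 : a ≤ 1) (i : ℕ) : ∃ A, Maj i 12 A ∧
    (∀ x, |I a x - A3 (2 ^ i)⁻¹ (I a) x| ≤ A x) ∧
    ∀ x, |A3 (2 ^ (i + 1))⁻¹ (I a) x - A3 (2 ^ i)⁻¹ (I a) x| ≤ A x := by
  have hδ0 : (0 : ℝ) < (2 ^ i)⁻¹ := by positivity
  have hδ2 : ((2 : ℝ) ^ (i + 1))⁻¹ = (2 ^ i)⁻¹ / 2 := by rw [pow_succ]; field_simp
  rw [hδ2]
  obtain ⟨η, hη⟩ : ∃ η : ℝ, η = min 1 (6 * (2 ^ i)⁻¹) := ⟨_, rfl⟩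
  have hη0 : 0 ≤ η := by rw [hη]; positivity
  have hη1 : η ≤ 1 := by rw [hη]; exact min_le_left _ _
  have hη6 : η ≤ 6 * (2 ^ i)⁻¹ := by rw [hη]; exact min_le_right _ _
  have hJ : Nice (A3 (2 ^ i)⁻¹ (I η)) := (nice_ind η).a3 hδ0
  refine ⟨fun x => A3 (2 ^ i)⁻¹ (I η) (x + 3 * (2 ^ i)⁻¹) +
    A3 (2 ^ i)⁻¹ (I η) (x + (3 * (2 ^ i)⁻¹ - a)), ?_, fun x => (dom_aux ha0 ha1 hδ0 hη x).1,
    fun x => (dom_aux ha0 ha1 hδ0 hη x).2⟩
  have hcb : ∀ h : ℤ, ‖coef (A3 (2 ^ i)⁻¹ (I η)) h‖ ≤ psi' i h * (6 * (2 ^ i)⁻¹) := by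
    intro h
    rw [coef_a3 (nice_ind η) hδ0, norm_mul]
    exact mul_le_mul (norm_kap3_le i h) ((norm_coef_ind_le hη0 hη1 h).trans hη6)
      (norm_nonneg _) (psi'_nonneg i h)
  have hab : ∀ h : ℤ, ‖(e (h * (3 * (2 ^ i)⁻¹)) + e (h * (3 * (2 ^ i)⁻¹ - a))) *
      coef (A3 (2 ^ i)⁻¹ (I η)) h‖ ≤ 12 * psi' i h / 2 ^ i := by
    intro h
    rw [norm_mul]
    have h1 : ‖e (h * (3 * (2 ^ i)⁻¹)) + e (h * (3 * (2 ^ i)⁻¹ - a))‖ ≤ 2 := by
      refine (norm_add_le _ _).trans ?_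
      rw [norm_e, norm_e]; norm_num
    calc _ ≤ 2 * (psi' i h * (6 * (2 ^ i)⁻¹)) :=
          mul_le_mul h1 (hcb h) (norm_nonneg _) (by norm_num)
      _ = 12 * psi' i h / 2 ^ i := by rw [div_eq_mul_inv]; ring
  refine ⟨fun x => add_nonneg (hJ.nonneg _) (hJ.nonneg _),
    ⟨fun h => (e (h * (3 * (2 ^ i)⁻¹)) + e (h * (3 * (2 ^ i)⁻¹ - a))) *
      coef (A3 (2 ^ i)⁻¹ (I η)) h, ?_, ?_, hab⟩⟩
  · refine Summable.of_nonneg_of_le (fun h => norm_nonneg _) hab ?_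
    have := ((summable_psi' i).mul_left 12).div_const ((2 : ℝ) ^ i)
    exact this
  · intro x
    have h1 := hasSum_a3 (nice_ind η) i (x + 3 * (2 ^ i)⁻¹)
    have h2 := hasSum_a3 (nice_ind η) i (x + (3 * (2 ^ i)⁻¹ - a))
    have h3 := h1.add h2
    push_cast
    have h4 : ∀ s : ℝ, ∀ h : ℤ, e (h * (x + s)) = e (h * x) * e (h * s) := by
      intro s h
      rw [mul_add, e_add]
    convert h3 using 1
    funext h
    rw [h4, h4]
    ring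

end Pool.Agent.KUB
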