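import Mathlib
import Pool.Agent.KUB.Exp

set_option autoImplicit false

/-!
KUB module Ser: the double Fourier series of a time-averaged product.

`hasSum_prod`: product of two absolutely convergent series
(`HasSum.mul_of_nonarch..` no: use `Summable.mul_of_nonneg`/`summable_mul_of_summable_norm` and
`HasSum.mul`): `HasSum (fun p : ℤ × ℤ => c p.1 * c' p.2 * e (lf α β p * y))`; here
`e(p.1 x) e(p.2 x') = e(p.1 x + p.2 x')`; with `x = tα`, `x' = tβ`, `t` an integer, this is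
`e(t * lf α β p)`.
`hasSum_block`: sum `hasSum_prod` over the finite index sets (`hasSum_sum`) and use
`∑_{a<M} ∑_{b<M} ∑_{q<N} e((s+q+a+b)θ) = e(sθ) D N θ (D M θ)²`.
`summable_block`: norms: `‖e‖ = 1`, `‖D M θ‖ ≤ M`, so compare with `‖c p.1‖ ‖c' p.2‖ N M²`.
-/

namespace Pool.Agent.KUB

/-- `D N θ = ∑_{q<N} e(qθ)` -/
noncomputable def D (N : ℕ) (θ : ℝ) : ℂ := ∑ q ∈ Finset.range N, e (q * θ)

theorem norm_D_le (N : ℕ) (θ : ℝ) : ‖D N θ‖ ≤ N := by
  unfold D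
  refine (norm_sum_le _ _).trans ?_
  simp [norm_e]

theorem hasSum_prod {G G' : ℝ → ℝ} {c c' : ℤ → ℂ} (h1 : Summable (fun h => ‖c h‖))
    (h2 : Summable (fun h => ‖c' h‖))
    (hG : ∀ x : ℝ, HasSum (fun h : ℤ => c h * e (h * x)) (G x : ℂ))
    (hG' : ∀ x : ℝ, HasSum (fun h : ℤ => c' h * e (h * x)) (G' x : ℂ)) (α β : ℝ) (t : ℤ) :
    HasSum (fun p : ℤ × ℤ => c p.1 * c' p.2 * e (t * lf α β p))
      ((G (t * α) : ℂ) * (G' (t * β) : ℂ)) := by
  have hn1 : Summable (fun h : ℤ => ‖c h * e (h * (t * α))‖) := by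
    refine h1.congr fun h => ?_
    rw [norm_mul, norm_e, mul_one]
  have hn2 : Summable (fun h : ℤ => ‖c' h * e (h * (t * β))‖) := by
    refine h2.congr fun h => ?_
    rw [norm_mul, norm_e, mul_one]
  have hs := summable_mul_of_summable_norm hn1 hn2
  have key := (hG (t * α)).mul (hG' (t * β)) hs
  refine key.congr_fun ?_ |> fun h => h
  intro p
  have : e (t * lf α β p) = e (p.1 * (t * α)) * e (p.2 * (t * β)) := by
    rw [← e_add]; congr 1; unfold lf; ring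
  rw [this]; ring

theorem block_exp (s : ℤ) (N M : ℕ) (θ : ℝ) :
    ∑ a ∈ Finset.range M, ∑ b ∈ Finset.range M, ∑ q ∈ Finset.range N,
      e (((s + q + a + b : ℤ) : ℝ) * θ) = e (s * θ) * D N θ * D M θ ^ 2 := by
  have h : ∀ a b q : ℕ, e (((s + q + a + b : ℤ) : ℝ) * θ) =
      e (s * θ) * e (q * θ) * (e (a * θ) * e (b * θ)) := by
    intro a b q
    rw [← e_add, ← e_add, ← e_add]; congr 1; push_cast; ring
  simp_rw [h]
  simp_rw [← Finset.sum_mul, ← Finset.mul_sum, ← Finset.sum_mul]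
  unfold D
  rw [sq]

theorem hasSum_block {G G' : ℝ → ℝ} {c c' : ℤ → ℂ} (h1 : Summable (fun h => ‖c h‖))
    (h2 : Summable (fun h => ‖c' h‖))
    (hG : ∀ x : ℝ, HasSum (fun h : ℤ => c h * e (h * x)) (G x : ℂ))
    (hG' : ∀ x : ℝ, HasSum (fun h : ℤ => c' h * e (h * x)) (G' x : ℂ)) (α β : ℝ) (s : ℤ)
    (N M : ℕ) :
    HasSum (fun p : ℤ × ℤ => c p.1 * c' p.2 *
        (e (s * lf α β p) * D N (lf α β p) * D M (lf α β p) ^ 2))
      (∑ a ∈ Finset.range M, ∑ b ∈ Finset.range M, ∑ q ∈ Finset.range N,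
        (G (((s + q + a + b : ℤ) : ℝ) * α) : ℂ) * (G' (((s + q + a + b : ℤ) : ℝ) * β) : ℂ)) := by
  have h3 : HasSum (fun p : ℤ × ℤ => ∑ a ∈ Finset.range M, ∑ b ∈ Finset.range M,
      ∑ q ∈ Finset.range N, c p.1 * c' p.2 * e (((s + q + a + b : ℤ) : ℝ) * lf α β p))
      (∑ a ∈ Finset.range M, ∑ b ∈ Finset.range M, ∑ q ∈ Finset.range N,
        (G (((s + q + a + b : ℤ) : ℝ) * α) : ℂ) * (G' (((s + q + a + b : ℤ) : ℝ) * β) : ℂ)) :=
    hasSum_sum fun a _ => hasSum_sum fun b _ => hasSum_sum fun q _ =>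
      hasSum_prod h1 h2 hG hG' α β (s + q + a + b)
  convert h3 using 1
  funext p
  rw [← block_exp]
  simp_rw [Finset.mul_sum]

theorem summable_block {c c' : ℤ → ℂ} (h1 : Summable (fun h => ‖c h‖))
    (h2 : Summable (fun h => ‖c' h‖)) (α β : ℝ) (s : ℤ) (N M : ℕ) :
    Summable (fun p : ℤ × ℤ => ‖c p.1 * c' p.2 *
        (e (s * lf α β p) * D N (lf α β p) * D M (lf α β p) ^ 2)‖) := by
  have hs : Summable (fun p : ℤ × ℤ => ‖c p.1‖ * ‖c' p.2‖) :=
    summable_mul_of_summable_norm (f := fun h => ‖c h‖) (g := fun h => ‖c' h‖)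
      (by simpa using h1) (by simpa using h2)
  refine Summable.of_nonneg_of_le (fun p => norm_nonneg _) (fun p => ?_)
    (hs.mul_right ((N : ℝ) * (M : ℝ) ^ 2))
  rw [norm_mul, norm_mul, norm_mul, norm_mul, norm_pow, norm_e, one_mul]
  have hN := norm_D_le N (lf α β p)
  have hM := norm_D_le M (lf α β p)
  gcongr

end Pool.Agent.KUB
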