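import Mathlib

set_option autoImplicit false

/-!
KUB module Time: averaging over time (finite sums only).

`window_le`: in the double sum over `a, b < 4M`, the term `Y (s + t)` (`0 ≤ t < 2M`) occurs for
`a + b = t + 2M`, i.e. for `a = 0, …, t + 2M` and `b = t + 2M - a` (both `< 4M`): at least `2M`
pairs.  So `∑_{t<2M} 2M Y(s+t) ≤ ∑_{a,b<4M} Y(s-2M+a+b)`.
(Formally: the injection `(t, a) ↦ (a, t + 2M - a)` for `t < 2M`, `a < 2M`.)

`smooth_diff`: for fixed `a, b < M` put `t = a + b < 2M`.  Then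
`∑_{q<N} F q - ∑_{q<N} F(q+t) = ∑_{q<t} F q - ∑_{q<t} F(N+q)` (both equal
`∑_{q<N+t} F q` minus ...; `Finset.sum_range_add`), with norm `≤ B + B` by the hypothesis
(extend the sums from `q < t` to `q < 2M`).  Average over the `M²` pairs.
-/

namespace Pool.Agent.KUB

theorem window_le (Y : ℤ → ℝ) (hY : ∀ q, 0 ≤ Y q) {M : ℕ} (hM : 0 < M) (s : ℤ) :
    ∑ t ∈ Finset.range (2 * M), Y (s + t) ≤ (2 * (M : ℝ))⁻¹ *
      ∑ a ∈ Finset.range (4 * M), ∑ b ∈ Finset.range (4 * M), Y (s - 2 * M + a + b) := by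
  have hM' : (0 : ℝ) < 2 * (M : ℝ) := by positivity
  rw [inv_mul_eq_div, le_div_iff₀ hM']
  have hone : ∀ a ∈ Finset.range (2 * M), ∑ t ∈ Finset.range (2 * M), Y (s + t) ≤
      ∑ b ∈ Finset.range (4 * M), Y (s - 2 * M + a + b) := by
    intro a ha
    rw [Finset.mem_range] at ha
    have h1 : ∑ b ∈ Finset.Ico (2 * M - a) (4 * M - a), Y (s - 2 * M + a + b) ≤
        ∑ b ∈ Finset.range (4 * M), Y (s - 2 * M + a + b) := by
      apply Finset.sum_le_sum_of_subset_of_nonneg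
      · intro b hb
        rw [Finset.mem_Ico] at hb
        rw [Finset.mem_range]
        omega
      · intro b _ _
        exact hY _
    refine le_trans (le_of_eq ?_) h1
    rw [Finset.sum_Ico_eq_sum_range]
    have h2 : 4 * M - a - (2 * M - a) = 2 * M := by omega
    rw [h2]
    apply Finset.sum_congr rfl
    intro t _
    congr 1
    push_cast [Nat.cast_sub (le_of_lt ha)]
    ring
  calc (∑ t ∈ Finset.range (2 * M), Y (s + t)) * (2 * (M : ℝ))
      = ∑ a ∈ Finset.range (2 * M), ∑ t ∈ Finset.range (2 * M), Y (s + t) := by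
        rw [Finset.sum_const, Finset.card_range, nsmul_eq_mul]
        push_cast
        ring
    _ ≤ ∑ a ∈ Finset.range (2 * M), ∑ b ∈ Finset.range (4 * M), Y (s - 2 * M + a + b) :=
        Finset.sum_le_sum hone
    _ ≤ ∑ a ∈ Finset.range (4 * M), ∑ b ∈ Finset.range (4 * M), Y (s - 2 * M + a + b) := by
        apply Finset.sum_le_sum_of_subset_of_nonneg
        · intro b hb
          rw [Finset.mem_range] at hb ⊢
          omega
        · intro a _ _
          exact Finset.sum_nonneg fun b _ => hY _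

theorem shift_diff (F : ℤ → ℂ) (N t : ℕ) :
    ∑ q ∈ Finset.range N, F q - ∑ q ∈ Finset.range N, F ((t + q : ℕ) : ℤ) =
      ∑ q ∈ Finset.range t, F q - ∑ q ∈ Finset.range t, F ((N + q : ℕ) : ℤ) := by
  have h1 : ∑ q ∈ Finset.range (N + t), F ((q : ℕ) : ℤ) =
      ∑ q ∈ Finset.range N, F ((q : ℕ) : ℤ) + ∑ q ∈ Finset.range t, F ((N + q : ℕ) : ℤ) :=
    Finset.sum_range_add (fun q : ℕ => F (q : ℤ)) N t
  have h2 : ∑ q ∈ Finset.range (t + N), F ((q : ℕ) : ℤ) =
      ∑ q ∈ Finset.range t, F ((q : ℕ) : ℤ) + ∑ q ∈ Finset.range N, F ((t + q : ℕ) : ℤ) :=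
    Finset.sum_range_add (fun q : ℕ => F (q : ℤ)) t N
  rw [add_comm t N, h1] at h2
  linear_combination h2

theorem shift_norm (F : ℤ → ℂ) (N : ℕ) {M : ℕ} (B : ℝ)
    (hB : ∀ s : ℤ, ∑ t ∈ Finset.range (2 * M), ‖F (s + t)‖ ≤ B) (t : ℕ) (ht : t ≤ 2 * M) :
    ‖∑ q ∈ Finset.range N, F q - ∑ q ∈ Finset.range N, F ((t + q : ℕ) : ℤ)‖ ≤ 2 * B := by
  rw [shift_diff]
  have key : ∀ K : ℕ, ‖∑ q ∈ Finset.range t, F ((K + q : ℕ) : ℤ)‖ ≤ B := by
    intro K
    calc ‖∑ q ∈ Finset.range t, F ((K + q : ℕ) : ℤ)‖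
        ≤ ∑ q ∈ Finset.range t, ‖F ((K + q : ℕ) : ℤ)‖ := norm_sum_le _ _
      _ ≤ ∑ q ∈ Finset.range (2 * M), ‖F ((K + q : ℕ) : ℤ)‖ := by
          apply Finset.sum_le_sum_of_subset_of_nonneg
          · intro b hb
            rw [Finset.mem_range] at hb ⊢
            omega
          · intro a _ _
            exact norm_nonneg _
      _ ≤ B := by
          have h := hB K
          push_cast
          exact h
  have h0 := key 0
  simp only [zero_add] at h0
  calc ‖∑ q ∈ Finset.range t, F q - ∑ q ∈ Finset.range t, F ((N + q : ℕ) : ℤ)‖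
      ≤ ‖∑ q ∈ Finset.range t, F q‖ + ‖∑ q ∈ Finset.range t, F ((N + q : ℕ) : ℤ)‖ :=
        norm_sub_le _ _
    _ ≤ B + B := add_le_add h0 (key N)
    _ = 2 * B := by ring

theorem smooth_diff (F : ℤ → ℂ) (N : ℕ) {M : ℕ} (hM : 0 < M) (B : ℝ)
    (hB : ∀ s : ℤ, ∑ t ∈ Finset.range (2 * M), ‖F (s + t)‖ ≤ B) :
    ‖∑ q ∈ Finset.range N, F q - ((M : ℂ) ^ 2)⁻¹ *
      ∑ a ∈ Finset.range M, ∑ b ∈ Finset.range M, ∑ q ∈ Finset.range N, F (q + a + b)‖
      ≤ 2 * B := by
  have hM' : (M : ℂ) ≠ 0 := by exact_mod_cast hM.ne'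
  have hMr : (0 : ℝ) < (M : ℝ) := by exact_mod_cast hM
  have h1 : ∑ q ∈ Finset.range N, F q - ((M : ℂ) ^ 2)⁻¹ *
      ∑ a ∈ Finset.range M, ∑ b ∈ Finset.range M, ∑ q ∈ Finset.range N, F (q + a + b) =
      ((M : ℂ) ^ 2)⁻¹ * ∑ a ∈ Finset.range M, ∑ b ∈ Finset.range M,
        (∑ q ∈ Finset.range N, F q - ∑ q ∈ Finset.range N, F (q + a + b)) := by
    simp only [Finset.sum_sub_distrib, Finset.sum_const, Finset.card_range, nsmul_eq_mul]
    field_simp
  rw [h1, norm_mul]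
  have h2 : ‖((M : ℂ) ^ 2)⁻¹‖ = ((M : ℝ) ^ 2)⁻¹ := by
    rw [norm_inv, norm_pow, Complex.norm_natCast]
  rw [h2]
  have h3 : ‖∑ a ∈ Finset.range M, ∑ b ∈ Finset.range M,
        (∑ q ∈ Finset.range N, F q - ∑ q ∈ Finset.range N, F (q + a + b))‖ ≤
      (M : ℝ) ^ 2 * (2 * B) := by
    calc ‖∑ a ∈ Finset.range M, ∑ b ∈ Finset.range M,
        (∑ q ∈ Finset.range N, F q - ∑ q ∈ Finset.range N, F (q + a + b))‖
        ≤ ∑ a ∈ Finset.range M, ∑ b ∈ Finset.range M, (2 * B) := by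
          refine le_trans (norm_sum_le _ _) (Finset.sum_le_sum fun a ha => ?_)
          refine le_trans (norm_sum_le _ _) (Finset.sum_le_sum fun b hb => ?_)
          rw [Finset.mem_range] at ha hb
          have h4 := shift_norm F N B hB (a + b) (by omega)
          have h5 : ∑ q ∈ Finset.range N, F ((a + b + q : ℕ) : ℤ) =
              ∑ q ∈ Finset.range N, F (q + a + b) := by
            apply Finset.sum_congr rfl
            intro q _
            congr 1
            push_cast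
            ring
          rw [h5] at h4
          exact h4
      _ = (M : ℝ) ^ 2 * (2 * B) := by
          simp only [Finset.sum_const, Finset.card_range, nsmul_eq_mul]
          ring
  calc ((M : ℝ) ^ 2)⁻¹ * ‖∑ a ∈ Finset.range M, ∑ b ∈ Finset.range M,
        (∑ q ∈ Finset.range N, F q - ∑ q ∈ Finset.range N, F (q + a + b))‖
      ≤ ((M : ℝ) ^ 2)⁻¹ * ((M : ℝ) ^ 2 * (2 * B)) :=
        mul_le_mul_of_nonneg_left h3 (by positivity)
    _ = 2 * B := by
        field_simp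

end Pool.Agent.KUB
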