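import Mathlib
import Pool.Agent.KUB.Maj
import Pool.Agent.KUB.Time
import Pool.Agent.KUB.Ser

set_option autoImplicit false

/-!
KUB module Win: sums of majorants over time windows of length `2·2^{i+k}`.

Put `M = 2^{i+k}`, `Y q = A(qα) A'(qβ) ≥ 0` (`q ∈ ℤ`), coefficients `a, a'` of `A, A'`.
`window_le`: `∑_{t<2M} Y(s+t) ≤ (2M)⁻¹ ∑_{a,b<4M} Y(s-2M+a+b)`.
`hasSum_block` with `N = 1` (so `D 1 θ = 1`), `M := 4M`, `s := s-2M`: the double sum is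
`∑_p a(p.1) a'(p.2) e(..) (D (4M) θ_p)²`, so its norm is at most (`enorm_tsum_le_tsum_enorm`-type
bound in `ℝ≥0∞`) `∑_p ‖a p.1‖‖a' p.2‖ ‖D (4M) θ_p‖²`, and
`‖D (4M) θ‖² = (4M)² ‖(4M)⁻¹ D (4M) θ‖² ≤ 16 M² Xf(4M nn θ) ≤ 16 M² Xf(M nn θ)`
(`norm_avg_sq_le`, `Xf_anti`), `‖a p.1‖‖a' p.2‖ ≤ K K' ψ'_i ψ'_k / M`.
Altogether `∑_{t<2M} Y ≤ (2M)⁻¹ 16 M² (KK'/M) ∑_p ψ'ψ' Xf = 8KK' ∑_p Rw`.
The term `p = 0` is at most `1` (`ψ' ≤ 1`, `Xf ≤ 1`), the rest is `z0 Rw`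
(`tsum` over `p` = term at `0` + `∑' ite`: `ENNReal.tsum_eq_add_tsum_ite`).
-/

namespace Pool.Agent.KUB

open Pool.Agent.FIB (nn)
open scoped ENNReal

/-- window weight -/
noncomputable def Rw (i k : ℕ) (α β : ℝ) (p : ℤ × ℤ) : ℝ≥0∞ :=
  ENNReal.ofReal (psi' i p.1 * psi' k p.2) * Xf (2 ^ (i + k) * nn (lf α β p))

theorem psi'_le_one (i : ℕ) (h : ℤ) : psi' i h ≤ 1 := min_le_left _ _

theorem Xf_le_one (y : ℝ) : Xf y ≤ 1 := min_le_left _ _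

theorem Rw_zero_le (i k : ℕ) (α β : ℝ) : Rw i k α β 0 ≤ 1 := by
  unfold Rw
  have h1 : psi' i (0 : ℤ × ℤ).1 * psi' k (0 : ℤ × ℤ).2 ≤ 1 :=
    mul_le_one₀ (psi'_le_one _ _) (psi'_nonneg _ _) (psi'_le_one _ _)
  calc _ ≤ (1 : ℝ≥0∞) * 1 := mul_le_mul' (by
        rw [← ENNReal.ofReal_one]; exact ENNReal.ofReal_le_ofReal h1) (Xf_le_one _)
    _ = 1 := one_mul 1

theorem tsum_Rw_le (i k : ℕ) (α β : ℝ) : ∑' p, Rw i k α β p ≤ 1 + z0 (Rw i k α β) := by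
  rw [ENNReal.tsum_eq_add_tsum_ite (0 : ℤ × ℤ)]
  unfold z0
  refine add_le_add (Rw_zero_le i k α β) (le_of_eq (tsum_congr fun x => ?_))
  by_cases hx : x = 0 <;> simp [hx]

/-- `‖D M θ‖² ≤ M² Xf(M nn θ)` -/
theorem enorm_D_sq_le {M : ℕ} (hM : 0 < M) (θ : ℝ) :
    ‖D M θ ^ 2‖ₑ ≤ (M : ℝ≥0∞) ^ 2 * Xf (M * nn θ) := by
  have hM0 : (M : ℂ) ≠ 0 := by exact_mod_cast hM.ne'
  have h : D M θ ^ 2 = (M : ℂ) ^ 2 * ((M : ℂ)⁻¹ * ∑ q ∈ Finset.range M, e (q * θ)) ^ 2 := by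
    unfold D
    rw [mul_pow, ← mul_assoc, ← mul_pow, mul_inv_cancel₀ hM0, one_pow, one_mul]
  rw [h, enorm_mul, enorm_pow]
  have h2 : ‖(M : ℂ)‖ₑ = (M : ℝ≥0∞) := by
    rw [← ofReal_norm, Complex.norm_natCast, ENNReal.ofReal_natCast]
  rw [h2]
  gcongr
  exact norm_avg_sq_le hM θ

theorem D_one (θ : ℝ) : D 1 θ = 1 := by
  unfold D; simp [e_zero]

theorem win {i k : ℕ} {K K' : ℝ} {A A' : ℝ → ℝ} (hK : 0 ≤ K) (hK' : 0 ≤ K') (hA : Maj i K A)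
    (hA' : Maj k K' A') (α β : ℝ) (s : ℤ) :
    ENNReal.ofReal (∑ t ∈ Finset.range (2 * 2 ^ (i + k)),
      A (((s + t : ℤ) : ℝ) * α) * A' (((s + t : ℤ) : ℝ) * β)) ≤
      ENNReal.ofReal (8 * K * K') * (1 + z0 (Rw i k α β)) := by
  obtain ⟨a, ha1, ha2, ha3⟩ := hA.coefs
  obtain ⟨a', hb1, hb2, hb3⟩ := hA'.coefs
  set M : ℕ := 2 ^ (i + k) with hMdef
  have hM : 0 < M := by positivity
  have hMr : (M : ℝ) = 2 ^ i * 2 ^ k := by rw [hMdef]; push_cast; rw [pow_add]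
  have hM0 : (0 : ℝ) < M := by exact_mod_cast hM
  set Y : ℤ → ℝ := fun q => A ((q : ℝ) * α) * A' ((q : ℝ) * β) with hY
  have hY0 : ∀ q, 0 ≤ Y q := fun q => mul_nonneg (hA.nonneg _) (hA'.nonneg _)
  have hwin := window_le Y hY0 hM s
  set S : ℝ := ∑ x ∈ Finset.range (4 * M), ∑ y ∈ Finset.range (4 * M),
    Y (s - 2 * M + x + y) with hS
  -- the series for `S`
  have hblock := hasSum_block ha1 hb1 ha2 hb2 α β (s - 2 * M) 1 (4 * M)
  have hSc : (∑ x ∈ Finset.range (4 * M), ∑ y ∈ Finset.range (4 * M), ∑ q ∈ Finset.range 1,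
      (A ((((s - 2 * M) + q + x + y : ℤ) : ℝ) * α) : ℂ) *
        (A' ((((s - 2 * M) + q + x + y : ℤ) : ℝ) * β) : ℂ)) = (S : ℂ) := by
    rw [hS]
    push_cast
    refine Finset.sum_congr rfl fun x _ => Finset.sum_congr rfl fun y _ => ?_
    rw [Finset.sum_range_one]
    simp only [hY]
    push_cast
    norm_num
  rw [hSc] at hblock
  have hSn : ENNReal.ofReal S ≤ ENNReal.ofReal (16 * M * K * K') * ∑' p, Rw i k α β p := by
    have h1 : ENNReal.ofReal S ≤ ‖(S : ℂ)‖ₑ := by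
      rw [← ofReal_norm, Complex.norm_real]
      exact ENNReal.ofReal_le_ofReal (le_abs_self S)
    refine h1.trans ?_
    rw [← hblock.tsum_eq]
    refine enorm_tsum_le_tsum_enorm.trans ?_
    rw [← ENNReal.tsum_mul_left]
    refine ENNReal.tsum_le_tsum fun p => ?_
    rw [D_one, mul_one, enorm_mul, enorm_mul, enorm_mul]
    have he : ‖e ((s - 2 * M : ℤ) * lf α β p)‖ₑ = 1 := by
      rw [← ofReal_norm, norm_e, ENNReal.ofReal_one]
    rw [he, one_mul]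
    have hD := enorm_D_sq_le (M := 4 * M) (by omega) (lf α β p)
    have hX : Xf (((4 * M : ℕ) : ℝ) * nn (lf α β p)) ≤ Xf (2 ^ (i + k) * nn (lf α β p)) := by
      apply Xf_anti
      have : (0 : ℝ) ≤ nn (lf α β p) := Pool.Agent.FIB.nn_nonneg _
      have h5 : (2 : ℝ) ^ (i + k) = M := by rw [hMdef]; push_cast; rfl
      rw [h5]
      push_cast
      nlinarith
    have hea : ‖a p.1‖ₑ ≤ ENNReal.ofReal (K * psi' i p.1 / 2 ^ i) := by
      rw [← ofReal_norm]; exact ENNReal.ofReal_le_ofReal (ha3 _)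
    have heb : ‖a' p.2‖ₑ ≤ ENNReal.ofReal (K' * psi' k p.2 / 2 ^ k) := by
      rw [← ofReal_norm]; exact ENNReal.ofReal_le_ofReal (hb3 _)
    have hp1 := psi'_nonneg i p.1
    have hp2 := psi'_nonneg k p.2
    calc ‖a p.1‖ₑ * ‖a' p.2‖ₑ * ‖D (4 * M) (lf α β p) ^ 2‖ₑ
        ≤ ENNReal.ofReal (K * psi' i p.1 / 2 ^ i) * ENNReal.ofReal (K' * psi' k p.2 / 2 ^ k) *
          ((((4 * M : ℕ) : ℝ≥0∞)) ^ 2 * Xf (2 ^ (i + k) * nn (lf α β p))) := by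
          gcongr
          exact hD.trans (by gcongr)
      _ = ENNReal.ofReal (16 * M * K * K') * Rw i k α β p := by
          have h6 : (((4 * M : ℕ) : ℝ≥0∞)) ^ 2 = ENNReal.ofReal ((4 * M) ^ 2) := by
            rw [ENNReal.ofReal_pow (by positivity)]
            congr 1
            rw [← ENNReal.ofReal_natCast]
            push_cast
            rfl
          unfold Rw
          rw [h6, ← mul_assoc, ← mul_assoc, ← ENNReal.ofReal_mul (by positivity),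
            ← ENNReal.ofReal_mul (by positivity), ← ENNReal.ofReal_mul (by positivity)]
          congr 2
          rw [hMr]
          field_simp
          ring
  calc ENNReal.ofReal (∑ t ∈ Finset.range (2 * M),
        A (((s + t : ℤ) : ℝ) * α) * A' (((s + t : ℤ) : ℝ) * β))
      ≤ ENNReal.ofReal ((2 * (M : ℝ))⁻¹ * S) := ENNReal.ofReal_le_ofReal hwin
    _ = ENNReal.ofReal ((2 * (M : ℝ))⁻¹) * ENNReal.ofReal S :=
        ENNReal.ofReal_mul (by positivity)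
    _ ≤ ENNReal.ofReal ((2 * (M : ℝ))⁻¹) *
        (ENNReal.ofReal (16 * M * K * K') * ∑' p, Rw i k α β p) := by gcongr
    _ = ENNReal.ofReal (8 * K * K') * ∑' p, Rw i k α β p := by
        rw [← mul_assoc, ← ENNReal.ofReal_mul (by positivity)]
        congr 2
        field_simp
        ring
    _ ≤ ENNReal.ofReal (8 * K * K') * (1 + z0 (Rw i k α β)) := by
        gcongr
        exact tsum_Rw_le i k α β

end Pool.Agent.KUB
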