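import Mathlib
import Pool.Agent.KUB.Win

set_option autoImplicit false

/-!
KUB module CellB: the bound for one cell `(i,k)`.

Put `M = 2^{i+k}`, `F q = G(qα) G'(qβ)` (`q ∈ ℤ`), `S = ∑_{q<N} F q`.
We may assume `z0 (Rw i k α β) < ∞` (else the right side is `∞`, unless `KK' = 0`, when `G = 0` or
`G' = 0` by `|G| ≤ A` ... simpler: if `K*K' = 0` then `c = 0` or `c' = 0` by `Prof.bound`, so
`G = 0` or `G' = 0` and the left side is `0`).  Let `B = (8KK'(1+z0 Rw)).toReal`; by `win` (for the majorants of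
`G`, `G'`; `‖F(s+t)‖ ≤ A A'`) the hypothesis of `smooth_diff` holds with this `B`, so
`|S - M^{-2} ∑_{a,b<M} ∑_{q<N} F(q+a+b)| ≤ 2B`.
By `hasSum_block` (`s = 0`) the second term is `∑_p c(p.1)c'(p.2) D N θ_p (M⁻¹ D M θ_p)²`; its term
at `p = 0` vanishes (`c 0 * c' 0 = 0`) and for `p ≠ 0` the norm is, by `norm_geom_le` and
`norm_avg_sq_le`, at most `(K ψ_i/r)(K' ψ_k/r') (2 nn θ)⁻¹ Xf(M nn θ) ≤ KK' Rm`
(`w = r r' nn θ`; in `ℝ≥0∞`: `ofReal(1/(r r')) (ofReal (2 nn θ))⁻¹ ≤ (ofReal w)⁻¹`).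
Total: `≤ KK' z0 Rm + 16KK'(1 + z0 Rw)`.
-/

namespace Pool.Agent.KUB

open Pool.Agent.FIB (nn)
open scoped ENNReal

/-- main weight -/
noncomputable def Rm (i k : ℕ) (α β : ℝ) (p : ℤ × ℤ) : ℝ≥0∞ :=
  ENNReal.ofReal (psi i p.1 * psi k p.2) * (ENNReal.ofReal (w α β p))⁻¹ *
    Xf (2 ^ (i + k) * nn (lf α β p))

theorem Prof.eq_zero {i : ℕ} {G : ℝ → ℝ} {c : ℤ → ℂ} (hG : Prof i 0 G c) (x : ℝ) : G x = 0 := by
  have hc : ∀ h, c h = 0 := by
    intro h
    have := hG.bound h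
    rw [zero_mul, zero_div] at this
    exact norm_le_zero_iff.mp this
  have h1 := hG.hasSum x
  have h2 : HasSum (fun h : ℤ => c h * e (h * x)) 0 := by
    simp [hc]
  have h3 := h1.unique h2
  exact_mod_cast h3

theorem enorm_natCast_c (M : ℕ) : ‖(M : ℂ)‖ₑ = (M : ℝ≥0∞) := by
  rw [← ofReal_norm, Complex.norm_natCast, ENNReal.ofReal_natCast]

/-- bound of one term -/
theorem cell_term {i k : ℕ} {K K' : ℝ} {G G' : ℝ → ℝ} {c c' : ℤ → ℂ} (hK : 0 ≤ K)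
    (hK' : 0 ≤ K') (hG : Prof i K G c) (hG' : Prof k K' G' c') (α β : ℝ) (N : ℕ) (p : ℤ × ℤ) :
    ‖c p.1 * c' p.2 * (e ((0 : ℤ) * lf α β p) * D N (lf α β p) *
      D (2 ^ (i + k)) (lf α β p) ^ 2)‖ₑ ≤
      ((2 ^ (i + k) : ℕ) : ℝ≥0∞) ^ 2 * (ENNReal.ofReal (K * K') * Rm i k α β p) := by
  rw [enorm_mul, enorm_mul, enorm_mul, enorm_mul]
  have he : ‖e ((0 : ℤ) * lf α β p)‖ₑ = 1 := by
    rw [← ofReal_norm, norm_e, ENNReal.ofReal_one]
  rw [he, one_mul]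
  have hM : 0 < 2 ^ (i + k) := by positivity
  have hD := enorm_D_sq_le (M := 2 ^ (i + k)) hM (lf α β p)
  have hn : (0 : ℝ) ≤ nn (lf α β p) := Pool.Agent.FIB.nn_nonneg _
  have hr1 := r_pos p.1
  have hr2 := r_pos p.2
  have hN : ‖D N (lf α β p)‖ₑ ≤ (ENNReal.ofReal (nn (lf α β p)))⁻¹ := by
    refine (norm_geom_le N (lf α β p)).trans ?_
    apply ENNReal.inv_le_inv.mpr
    exact ENNReal.ofReal_le_ofReal (by linarith)
  have hea : ‖c p.1‖ₑ ≤ ENNReal.ofReal (K * psi i p.1 / r p.1) := by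
    rw [← ofReal_norm]; exact ENNReal.ofReal_le_ofReal (hG.bound _)
  have heb : ‖c' p.2‖ₑ ≤ ENNReal.ofReal (K' * psi k p.2 / r p.2) := by
    rw [← ofReal_norm]; exact ENNReal.ofReal_le_ofReal (hG'.bound _)
  have hp1 := psi_nonneg i p.1
  have hp2 := psi_nonneg k p.2
  have hcast : (((2 ^ (i + k) : ℕ) : ℝ)) = 2 ^ (i + k) := by push_cast; rfl
  rw [hcast] at hD
  have hw : (ENNReal.ofReal (w α β p))⁻¹ =
      ENNReal.ofReal ((r p.1 * r p.2)⁻¹) * (ENNReal.ofReal (nn (lf α β p)))⁻¹ := by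
    unfold w
    rw [ENNReal.ofReal_mul (by positivity), ENNReal.mul_inv, ENNReal.ofReal_inv_of_pos (by positivity)]
    · left
      exact (ENNReal.ofReal_pos.mpr (by positivity)).ne'
    · left
      exact ENNReal.ofReal_ne_top
  calc ‖c p.1‖ₑ * ‖c' p.2‖ₑ * (‖D N (lf α β p)‖ₑ * ‖D (2 ^ (i + k)) (lf α β p) ^ 2‖ₑ)
      ≤ ENNReal.ofReal (K * psi i p.1 / r p.1) * ENNReal.ofReal (K' * psi k p.2 / r p.2) *
        ((ENNReal.ofReal (nn (lf α β p)))⁻¹ *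
          (((2 ^ (i + k) : ℕ) : ℝ≥0∞) ^ 2 * Xf (2 ^ (i + k) * nn (lf α β p)))) := by
        gcongr
    _ = ((2 ^ (i + k) : ℕ) : ℝ≥0∞) ^ 2 * (ENNReal.ofReal (K * K') * Rm i k α β p) := by
        unfold Rm
        rw [hw, ← ENNReal.ofReal_mul (by positivity)]
        have h7 : K * psi i p.1 / r p.1 * (K' * psi k p.2 / r p.2) =
            (K * K') * ((psi i p.1 * psi k p.2) * (r p.1 * r p.2)⁻¹) := by
          field_simp
        rw [h7, ENNReal.ofReal_mul (p := K * K') (by positivity),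
          ENNReal.ofReal_mul (p := psi i p.1 * psi k p.2) (by positivity)]
        generalize ENNReal.ofReal (K * K') = x1
        generalize ENNReal.ofReal (psi i p.1 * psi k p.2) = x2
        generalize ENNReal.ofReal ((r p.1 * r p.2)⁻¹) = x3
        generalize (ENNReal.ofReal (nn (lf α β p)))⁻¹ = x4
        generalize ((2 ^ (i + k) : ℕ) : ℝ≥0∞) = x5
        generalize Xf (2 ^ (i + k) * nn (lf α β p)) = x6
        ring

theorem cell_bound {i k : ℕ} {K K' : ℝ} {G G' : ℝ → ℝ} {c c' : ℤ → ℂ} (hK : 0 ≤ K)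
    (hK' : 0 ≤ K') (hG : Prof i K G c) (hG' : Prof k K' G' c') (h0 : c 0 * c' 0 = 0)
    (α β : ℝ) (N : ℕ) :
    ENNReal.ofReal |∑ q ∈ Finset.range N, G (q * α) * G' (q * β)| ≤
      ENNReal.ofReal (16 * K * K') * (1 + z0 (Rm i k α β) + z0 (Rw i k α β)) := by
  rcases hK.eq_or_lt with hK0 | hK0
  · subst hK0
    have : ∀ x, G x = 0 := hG.eq_zero
    simp [this]
  rcases hK'.eq_or_lt with hK0' | hK0'
  · subst hK0'
    have : ∀ x, G' x = 0 := hG'.eq_zero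
    simp [this]
  have hKK : ENNReal.ofReal (16 * K * K') ≠ 0 := by
    rw [ne_eq, ENNReal.ofReal_eq_zero, not_le]; positivity
  by_cases htop : z0 (Rw i k α β) = ∞
  · rw [htop, add_top, ENNReal.mul_top hKK]
    exact le_top
  obtain ⟨A, hA, hGA⟩ := hG.maj
  obtain ⟨A', hA', hGA'⟩ := hG'.maj
  set M : ℕ := 2 ^ (i + k) with hMdef
  have hM : 0 < M := by positivity
  set Bw : ℝ≥0∞ := ENNReal.ofReal (8 * K * K') * (1 + z0 (Rw i k α β)) with hBw
  have hBt : Bw ≠ ∞ := by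
    rw [hBw]
    exact ENNReal.mul_ne_top ENNReal.ofReal_ne_top
      (ENNReal.add_ne_top.mpr ⟨ENNReal.one_ne_top, htop⟩)
  set F : ℤ → ℂ := fun q => (G ((q : ℝ) * α) : ℂ) * (G' ((q : ℝ) * β) : ℂ) with hF
  have hwin : ∀ s : ℤ, ∑ t ∈ Finset.range (2 * M), ‖F (s + t)‖ ≤ Bw.toReal := by
    intro s
    have h1 := win hK hK' hA hA' α β s
    have h2 : ∑ t ∈ Finset.range (2 * M), ‖F (s + t)‖ ≤ ∑ t ∈ Finset.range (2 * M),
        A (((s + t : ℤ) : ℝ) * α) * A' (((s + t : ℤ) : ℝ) * β) := by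
      refine Finset.sum_le_sum fun t _ => ?_
      simp only [hF]
      rw [norm_mul, Complex.norm_real, Complex.norm_real, Real.norm_eq_abs, Real.norm_eq_abs]
      exact mul_le_mul (hGA _) (hGA' _) (abs_nonneg _) (hA.nonneg _)
    refine h2.trans ?_
    exact (ENNReal.ofReal_le_iff_le_toReal hBt).mp h1
  have hsm := smooth_diff F N hM Bw.toReal hwin
  set T : ℂ := ((M : ℂ) ^ 2)⁻¹ * ∑ a ∈ Finset.range M, ∑ b ∈ Finset.range M,
    ∑ q ∈ Finset.range N, F (q + a + b) with hT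
  have hblock := hasSum_block hG.sum hG'.sum hG.hasSum hG'.hasSum α β 0 N M
  have hTn : ‖T‖ₑ ≤ ENNReal.ofReal (K * K') * z0 (Rm i k α β) := by
    have h1 : (∑ a ∈ Finset.range M, ∑ b ∈ Finset.range M, ∑ q ∈ Finset.range N,
        F (q + a + b)) = ∑' p : ℤ × ℤ, c p.1 * c' p.2 *
          (e ((0 : ℤ) * lf α β p) * D N (lf α β p) * D M (lf α β p) ^ 2) := by
      rw [hblock.tsum_eq]
      refine Finset.sum_congr rfl fun a _ => Finset.sum_congr rfl fun b _ =>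
        Finset.sum_congr rfl fun q _ => ?_
      simp only [hF]
      push_cast
      norm_num
    rw [hT, h1, enorm_mul]
    have h2 : ‖((M : ℂ) ^ 2)⁻¹‖ₑ = ((M : ℝ≥0∞) ^ 2)⁻¹ := by
      rw [enorm_inv (pow_ne_zero 2 (by exact_mod_cast hM.ne')), enorm_pow, enorm_natCast_c]
    rw [h2]
    have hMM : (M : ℝ≥0∞) ^ 2 ≠ 0 := pow_ne_zero 2 (by exact_mod_cast hM.ne')
    have hMt : (M : ℝ≥0∞) ^ 2 ≠ ∞ := ENNReal.pow_ne_top (ENNReal.natCast_ne_top M)
    have h3 : ‖∑' p : ℤ × ℤ, c p.1 * c' p.2 *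
          (e ((0 : ℤ) * lf α β p) * D N (lf α β p) * D M (lf α β p) ^ 2)‖ₑ ≤
        (M : ℝ≥0∞) ^ 2 * (ENNReal.ofReal (K * K') * z0 (Rm i k α β)) := by
      refine enorm_tsum_le_tsum_enorm.trans ?_
      unfold z0
      rw [← ENNReal.tsum_mul_left, ← ENNReal.tsum_mul_left]
      refine ENNReal.tsum_le_tsum fun p => ?_
      by_cases hp : p = 0
      · subst hp
        have : c (0 : ℤ × ℤ).1 * c' (0 : ℤ × ℤ).2 = 0 := h0
        rw [this]
        simp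
      · rw [if_neg hp]
        exact cell_term hK hK' hG hG' α β N p
    calc ((M : ℝ≥0∞) ^ 2)⁻¹ * ‖∑' p : ℤ × ℤ, c p.1 * c' p.2 *
          (e ((0 : ℤ) * lf α β p) * D N (lf α β p) * D M (lf α β p) ^ 2)‖ₑ
        ≤ ((M : ℝ≥0∞) ^ 2)⁻¹ * ((M : ℝ≥0∞) ^ 2 *
          (ENNReal.ofReal (K * K') * z0 (Rm i k α β))) := by gcongr
      _ = ENNReal.ofReal (K * K') * z0 (Rm i k α β) := by
          rw [← mul_assoc, ENNReal.inv_mul_cancel hMM hMt, one_mul]
  have hS : ENNReal.ofReal |∑ q ∈ Finset.range N, G (q * α) * G' (q * β)| =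
      ‖∑ q ∈ Finset.range N, F q‖ₑ := by
    rw [← ofReal_norm]
    congr 1
    rw [← Real.norm_eq_abs, ← Complex.norm_real]
    congr 1
    simp only [hF]
    push_cast
    rfl
  rw [hS]
  have hsplit : ∑ q ∈ Finset.range N, F q = (∑ q ∈ Finset.range N, F q - T) + T := by ring
  rw [hsplit]
  refine (enorm_add_le _ _).trans ?_
  have hd : ‖∑ q ∈ Finset.range N, F q - T‖ₑ ≤ 2 * Bw := by
    rw [← ofReal_norm]
    refine (ENNReal.ofReal_le_ofReal hsm).trans ?_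
    rw [ENNReal.ofReal_mul (by norm_num), ENNReal.ofReal_toReal hBt]
    norm_num
  refine (add_le_add hd hTn).trans ?_
  have h16 : ENNReal.ofReal (16 * K * K') = 2 * ENNReal.ofReal (8 * K * K') := by
    rw [show (2 : ℝ≥0∞) = ENNReal.ofReal 2 by norm_num, ← ENNReal.ofReal_mul (by norm_num)]
    congr 1; ring
  have hle : ENNReal.ofReal (K * K') ≤ ENNReal.ofReal (16 * K * K') := by
    apply ENNReal.ofReal_le_ofReal
    have : 0 ≤ K * K' := by positivity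
    nlinarith
  calc 2 * Bw + ENNReal.ofReal (K * K') * z0 (Rm i k α β)
      ≤ 2 * Bw + ENNReal.ofReal (16 * K * K') * z0 (Rm i k α β) := by gcongr
    _ = ENNReal.ofReal (16 * K * K') * (1 + z0 (Rm i k α β) + z0 (Rw i k α β)) := by
        rw [hBw, ← mul_assoc, ← h16]
        ring

end Pool.Agent.KUB
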