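import Mathlib
import Pool.Agent.KUB.Defs

set_option autoImplicit false

/-!
KUB module Cov: few of the `D = 2^ν` subintervals `J_t` (length `l' = l/D`) of `J` (length `l`)
carry too much of the cover `I_l = [x_l - d_l, x_l + d_l]`.

`W(J) = ∑'_{l : I_l ∩ J ≠ ∅} d_l^s ≤ ε l^s`.  Counting: `I_l` hits `J_t = [x + t l', x + (t+1) l']`
only if `x + t l' ≤ x_l + d_l` and `x + (t+1) l' ≥ x_l - d_l`, so at most `2 d_l/l' + 2` values of `t`.
* big `l` (`d_l ≥ l'`, `I_l` hits `J`): at most `4 d_l/l'` values of `t`; and each `d_l^s ≤ W(J) ≤ ε l^s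
  ≤ l^s`, so `d_l ≤ l` and `d_l = d_l^s d_l^{1-s} ≤ d_l^s l^{1-s}`.  The number of `t` hit by some big
  `l` is at most `∑ 4 d_l/l' ≤ (4/l') l^{1-s} W(J) ≤ 4 ε l/l' = 4εD ≤ D/20`.
* small `l` (`d_l < l'`): at most `4` values of `t`.  If `t` is not hit by a big `l` then
  `W(J_t) = ∑_{small l hitting J_t} d_l^s`, and the sum of this over all `t` is `≤ 4 W(J) ≤ 4 ε l^s`.
  So the number of such `t` with `W(J_t) > ε l'^s` is at most `4 (l/l')^s = 4 D^s ≤ 4D/80 = D/20`
  (`D^{1-s} ≥ 80`).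
Total `≤ D/10 ≤ D/8`.
-/

namespace Pool.Agent.KUB

open scoped ENNReal

private theorem cov_card {F : Finset ℕ} {A B : ℝ} (hB : 0 ≤ B)
    (hF : ∀ t ∈ F, A ≤ (t : ℝ) ∧ (t : ℝ) ≤ A + B) : (F.card : ℝ) ≤ B + 1 := by
  rcases F.eq_empty_or_nonempty with h0 | hne
  · rw [h0, Finset.card_empty]
    push_cast
    linarith
  · have h1 : F ⊆ Finset.Icc (F.min' hne) (F.max' hne) := fun t ht =>
      Finset.mem_Icc.mpr ⟨Finset.min'_le _ _ ht, Finset.le_max' _ _ ht⟩
    have h2 := Finset.card_le_card h1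
    rw [Nat.card_Icc] at h2
    have h3 : F.min' hne ≤ F.max' hne := Finset.min'_le _ _ (Finset.max'_mem _ _)
    have h4 : F.card + F.min' hne ≤ F.max' hne + 1 := by omega
    have h5 : (F.card : ℝ) + F.min' hne ≤ F.max' hne + 1 := by exact_mod_cast h4
    have h6 := (hF _ (Finset.min'_mem _ hne)).1
    have h7 := (hF _ (Finset.max'_mem _ hne)).2
    linarith

theorem cov {xs ds : ℕ → ℝ} {s : ℝ} (hs0 : 0 < s) (hs1 : s < 1) (hd : ∀ l, 0 < ds l) {x : ℝ}
    {μ : ℕ} (ν : ℕ) (hν : 80 ≤ ((2 : ℝ) ^ ν) ^ (1 - s)) {ε : ℝ} (hε0 : 0 < ε) (hε : ε ≤ 1 / 80)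
    (h : Wc xs ds s (Jn x μ) ≤ ENNReal.ofReal (ε * ((2 ^ μ)⁻¹) ^ s)) :
    8 * (open Classical in (Finset.range (2 ^ ν)).filter (fun t : ℕ =>
      ENNReal.ofReal (ε * ((2 ^ (μ + ν))⁻¹) ^ s) <
        Wc xs ds s (Jn (x + t * (2 ^ (μ + ν))⁻¹) (μ + ν)))).card ≤ 2 ^ ν := by
  classical
  obtain ⟨D, hD⟩ : ∃ D : ℝ, D = 2 ^ ν := ⟨_, rfl⟩
  obtain ⟨lp, hlp⟩ : ∃ lp : ℝ, lp = (2 ^ (μ + ν))⁻¹ := ⟨_, rfl⟩
  obtain ⟨L, hL⟩ : ∃ L : ℝ, L = (2 ^ μ)⁻¹ := ⟨_, rfl⟩
  have hlp0 : 0 < lp := by rw [hlp]; positivity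
  have hL0 : 0 < L := by rw [hL]; positivity
  have hD0 : 0 < D := by rw [hD]; positivity
  have hLD : L = D * lp := by
    rw [hL, hD, hlp, pow_add]
    field_simp
  -- the hitting relation
  obtain ⟨hit, hhit⟩ : ∃ hit : ℕ → ℕ → Prop, ∀ t l, hit t l ↔
      (Set.Icc (xs l - ds l) (xs l + ds l) ∩
        Jn (x + t * (2 ^ (μ + ν))⁻¹) (μ + ν)).Nonempty := ⟨_, fun _ _ => Iff.rfl⟩
  obtain ⟨hitJ, hhitJ⟩ : ∃ hitJ : ℕ → Prop, ∀ l, hitJ l ↔
      (Set.Icc (xs l - ds l) (xs l + ds l) ∩ Jn x μ).Nonempty := ⟨_, fun _ => Iff.rfl⟩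
  obtain ⟨wt, hwt⟩ : ∃ wt : ℕ → ℝ≥0∞, ∀ l, wt l = ENNReal.ofReal (ds l) ^ s :=
    ⟨_, fun _ => rfl⟩
  have hWJ : Wc xs ds s (Jn x μ) = ∑' l, if hitJ l then wt l else 0 := by
    unfold Wc
    refine tsum_congr fun l => ?_
    simp only [hwt, hhitJ]
  have hWt : ∀ t : ℕ, Wc xs ds s (Jn (x + t * (2 ^ (μ + ν))⁻¹) (μ + ν)) =
      ∑' l, if hit t l then wt l else 0 := by
    intro t
    unfold Wc
    refine tsum_congr fun l => ?_
    simp only [hwt, hhit]
  have hhJ : ∀ t ∈ Finset.range (2 ^ ν), ∀ l, hit t l → hitJ l := by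
    intro t ht l h1
    rw [hhit] at h1
    rw [hhitJ]
    obtain ⟨y, hy1, hy2⟩ := h1
    exact ⟨y, hy1, sub_Jn x μ ν t (Finset.mem_range.mp ht) hy2⟩
  -- number of the intervals hit
  have hcard : ∀ l, (((Finset.range (2 ^ ν)).filter (fun t => hit t l)).card : ℝ) ≤
      2 * ds l / lp + 2 := by
    intro l
    have h1 := cov_card (F := (Finset.range (2 ^ ν)).filter (fun t => hit t l))
      (A := (xs l - ds l - x) / lp - 1) (B := 2 * ds l / lp + 1)
      (by have := hd l; positivity) ?_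
    · linarith
    · intro t ht
      have h2 := (Finset.mem_filter.mp ht).2
      rw [hhit] at h2
      obtain ⟨y, ⟨hy1, hy2⟩, hy3⟩ := h2
      unfold Jn at hy3
      rw [← hlp] at hy3
      obtain ⟨hy3, hy4⟩ := hy3
      have h3 : (xs l - ds l - x) / lp - 1 + (2 * ds l / lp + 1) = (xs l + ds l - x) / lp := by
        field_simp
        ring
      rw [h3]
      constructor
      · rw [sub_le_iff_le_add, div_le_iff₀ hlp0]
        linarith
      · rw [le_div_iff₀ hlp0]
        linarith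
  -- the elements which hit `J` are short
  have hshort : ∀ l, hitJ l → ds l ≤ L := by
    intro l hl
    have h1 : wt l ≤ Wc xs ds s (Jn x μ) := by
      rw [hWJ]
      have h2 := ENNReal.le_tsum (f := fun l => if hitJ l then wt l else 0) l
      simpa [hl] using h2
    have h2 : ENNReal.ofReal (ε * ((2 ^ μ)⁻¹) ^ s) ≤ ENNReal.ofReal L ^ s := by
      rw [ENNReal.ofReal_rpow_of_pos hL0, ← hL]
      refine ENNReal.ofReal_le_ofReal ?_
      have h3 : 0 < L ^ s := Real.rpow_pos_of_pos hL0 s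
      nlinarith
    have h3 := (h1.trans h).trans h2
    rw [hwt, ENNReal.rpow_le_rpow_iff hs0] at h3
    exact (ENNReal.ofReal_le_ofReal_iff hL0.le).mp h3
  -- intervals hit by a big element
  obtain ⟨B1, hB1⟩ : ∃ B1 : Finset ℕ, B1 = (Finset.range (2 ^ ν)).filter
    (fun t => ∃ l, lp ≤ ds l ∧ hit t l) := ⟨_, rfl⟩
  have hB1c : (B1.card : ℝ) ≤ D / 20 := by
    have h1 : (B1.card : ℝ≥0∞) ≤ ∑ t ∈ Finset.range (2 ^ ν), ∑' l,
        (if lp ≤ ds l ∧ hit t l then (1 : ℝ≥0∞) else 0) := by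
      rw [hB1, Finset.card_filter]
      push_cast
      refine Finset.sum_le_sum fun t _ => ?_
      split_ifs with h2
      · obtain ⟨l, hl⟩ := h2
        have h3 := ENNReal.le_tsum
          (f := fun l => (if lp ≤ ds l ∧ hit t l then (1 : ℝ≥0∞) else 0)) l
        simpa [hl] using h3
      · exact zero_le
    have h2 : ∑ t ∈ Finset.range (2 ^ ν), ∑' l,
        (if lp ≤ ds l ∧ hit t l then (1 : ℝ≥0∞) else 0) =
        ∑' l, ∑ t ∈ Finset.range (2 ^ ν),
        (if lp ≤ ds l ∧ hit t l then (1 : ℝ≥0∞) else 0) :=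
      (Summable.tsum_finsetSum (fun _ _ => ENNReal.summable)).symm
    have h3 : ∀ l, ∑ t ∈ Finset.range (2 ^ ν),
        (if lp ≤ ds l ∧ hit t l then (1 : ℝ≥0∞) else 0) ≤
        ENNReal.ofReal (4 / lp * L ^ (1 - s)) * (if hitJ l then wt l else 0) := by
      intro l
      by_cases h4 : lp ≤ ds l
      · by_cases h5 : ∃ t ∈ Finset.range (2 ^ ν), hit t l
        · obtain ⟨t0, ht0, ht0'⟩ := h5
          have h6 : hitJ l := hhJ t0 ht0 l ht0'
          have h7 : ds l ≤ L := hshort l h6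
          simp only [h4, true_and, h6, if_true]
          have h8 : ∑ t ∈ Finset.range (2 ^ ν), (if hit t l then (1 : ℝ≥0∞) else 0) =
              (((Finset.range (2 ^ ν)).filter (fun t => hit t l)).card : ℝ≥0∞) := by
            rw [Finset.card_filter]
            push_cast
            rfl
          rw [h8, hwt, ENNReal.ofReal_rpow_of_pos (hd l),
            ← ENNReal.ofReal_mul (by positivity), ← ENNReal.ofReal_natCast]
          refine ENNReal.ofReal_le_ofReal ((hcard l).trans ?_)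
          have h9 : 2 * ds l / lp + 2 ≤ 4 / lp * ds l := by
            have h10 : 1 ≤ ds l / lp := by rwa [le_div_iff₀ hlp0, one_mul]
            have h11 : 2 * ds l / lp = 2 * (ds l / lp) := by ring
            have h12 : 4 / lp * ds l = 4 * (ds l / lp) := by ring
            rw [h11, h12]
            linarith
          have h10 : ds l = ds l ^ (1 - s) * ds l ^ s := by
            rw [← Real.rpow_add (hd l)]
            norm_num
          have h11 : ds l ^ (1 - s) ≤ L ^ (1 - s) :=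
            Real.rpow_le_rpow (hd l).le h7 (by linarith)
          have h12 : 0 < ds l ^ s := Real.rpow_pos_of_pos (hd l) s
          calc 2 * ds l / lp + 2 ≤ 4 / lp * ds l := h9
            _ = 4 / lp * (ds l ^ (1 - s) * ds l ^ s) := by rw [← h10]
            _ ≤ 4 / lp * (L ^ (1 - s) * ds l ^ s) := by
                refine mul_le_mul_of_nonneg_left ?_ (by positivity)
                exact mul_le_mul_of_nonneg_right h11 h12.le
            _ = 4 / lp * L ^ (1 - s) * ds l ^ s := by ring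
        · push Not at h5
          rw [Finset.sum_eq_zero fun t ht => by simp [h5 t ht]]
          exact zero_le
      · rw [Finset.sum_eq_zero fun t _ => by simp [h4]]
        exact zero_le
    have h4 : (B1.card : ℝ≥0∞) ≤ ENNReal.ofReal (4 / lp * L ^ (1 - s)) *
        ENNReal.ofReal (ε * L ^ s) := by
      refine h1.trans ?_
      rw [h2]
      refine (ENNReal.tsum_le_tsum h3).trans ?_
      rw [ENNReal.tsum_mul_left, ← hWJ]
      refine mul_le_mul' le_rfl ?_
      rw [hL]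
      exact h
    rw [← ENNReal.ofReal_mul (by positivity), ← ENNReal.ofReal_natCast,
      ENNReal.ofReal_le_ofReal_iff (by positivity)] at h4
    refine h4.trans ?_
    have h5 : L ^ (1 - s) * L ^ s = L := by
      rw [← Real.rpow_add hL0]
      norm_num
    have h6 : 4 / lp * L ^ (1 - s) * (ε * L ^ s) = 4 * ε * D := by
      calc 4 / lp * L ^ (1 - s) * (ε * L ^ s) = 4 / lp * ε * (L ^ (1 - s) * L ^ s) := by ring
        _ = 4 / lp * ε * (D * lp) := by rw [h5, hLD]
        _ = 4 * ε * D := by field_simp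
    rw [h6]
    nlinarith
  -- the other bad intervals
  obtain ⟨B2, hB2⟩ : ∃ B2 : Finset ℕ, B2 = (Finset.range (2 ^ ν)).filter
    (fun t => ¬ (∃ l, lp ≤ ds l ∧ hit t l) ∧ ENNReal.ofReal (ε * lp ^ s) <
      ∑' l, if hit t l then wt l else 0) := ⟨_, rfl⟩
  have hB2c : (B2.card : ℝ) ≤ D / 20 := by
    have h1 : (B2.card : ℝ≥0∞) * ENNReal.ofReal (ε * lp ^ s) ≤
        ∑ t ∈ Finset.range (2 ^ ν), ∑' l, (if ds l < lp ∧ hit t l then wt l else 0) := by
      have h2 : (B2.card : ℝ≥0∞) * ENNReal.ofReal (ε * lp ^ s) =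
          ∑ _t ∈ B2, ENNReal.ofReal (ε * lp ^ s) := by
        rw [Finset.sum_const, nsmul_eq_mul]
      rw [h2]
      have h3 : ∑ _t ∈ B2, ENNReal.ofReal (ε * lp ^ s) ≤
          ∑ t ∈ B2, ∑' l, (if ds l < lp ∧ hit t l then wt l else 0) := by
        refine Finset.sum_le_sum fun t ht => ?_
        rw [hB2, Finset.mem_filter] at ht
        obtain ⟨_, ht1, ht2⟩ := ht
        push Not at ht1
        refine ht2.le.trans (ENNReal.tsum_le_tsum fun l => ?_)
        by_cases h4 : hit t l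
        · have h5 : ds l < lp := by
            by_contra h6
            exact ht1 l (not_lt.mp h6) h4
          simp [h4, h5]
        · simp [h4]
      refine h3.trans ?_
      refine Finset.sum_le_sum_of_subset ?_
      rw [hB2]
      exact Finset.filter_subset _ _
    have h2 : ∑ t ∈ Finset.range (2 ^ ν), ∑' l, (if ds l < lp ∧ hit t l then wt l else 0) =
        ∑' l, ∑ t ∈ Finset.range (2 ^ ν), (if ds l < lp ∧ hit t l then wt l else 0) :=
      (Summable.tsum_finsetSum (fun _ _ => ENNReal.summable)).symm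
    have h3 : ∀ l, ∑ t ∈ Finset.range (2 ^ ν), (if ds l < lp ∧ hit t l then wt l else 0) ≤
        4 * (if hitJ l then wt l else 0) := by
      intro l
      by_cases h4 : ds l < lp
      · by_cases h5 : ∃ t ∈ Finset.range (2 ^ ν), hit t l
        · obtain ⟨t0, ht0, ht0'⟩ := h5
          have h6 : hitJ l := hhJ t0 ht0 l ht0'
          simp only [h4, true_and, h6, if_true]
          rw [← Finset.sum_filter, Finset.sum_const, nsmul_eq_mul]
          refine mul_le_mul' ?_ le_rfl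
          have h7 : (((Finset.range (2 ^ ν)).filter (fun t => hit t l)).card : ℝ) ≤ 4 := by
            refine (hcard l).trans ?_
            have h10 : ds l / lp ≤ 1 := by rw [div_le_iff₀ hlp0, one_mul]; exact h4.le
            have h11 : 2 * ds l / lp = 2 * (ds l / lp) := by ring
            rw [h11]
            linarith
          have h8 : ((Finset.range (2 ^ ν)).filter (fun t => hit t l)).card ≤ 4 := by
            exact_mod_cast h7
          exact_mod_cast h8
        · push Not at h5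
          rw [Finset.sum_eq_zero fun t ht => by simp [h5 t ht]]
          exact zero_le
      · rw [Finset.sum_eq_zero fun t _ => by simp [h4]]
        exact zero_le
    have h4 : (B2.card : ℝ≥0∞) * ENNReal.ofReal (ε * lp ^ s) ≤
        4 * ENNReal.ofReal (ε * L ^ s) := by
      refine h1.trans ?_
      rw [h2]
      refine (ENNReal.tsum_le_tsum h3).trans ?_
      rw [ENNReal.tsum_mul_left, ← hWJ]
      refine mul_le_mul' le_rfl ?_
      rw [hL]
      exact h
    have h4' : (4 : ℝ≥0∞) = ENNReal.ofReal 4 := by norm_num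
    have hlps : 0 < lp ^ s := Real.rpow_pos_of_pos hlp0 s
    have hLs : 0 < L ^ s := Real.rpow_pos_of_pos hL0 s
    rw [h4', ← ENNReal.ofReal_natCast, ← ENNReal.ofReal_mul (by positivity),
      ← ENNReal.ofReal_mul (by positivity), ENNReal.ofReal_le_ofReal_iff (by positivity)] at h4
    have h5 : L ^ s = D ^ s * lp ^ s := by
      rw [hLD, Real.mul_rpow hD0.le hlp0.le]
    have h6 : (B2.card : ℝ) ≤ 4 * D ^ s := by
      rw [h5] at h4
      have h7 : (B2.card : ℝ) * (ε * lp ^ s) ≤ (4 * D ^ s) * (ε * lp ^ s) := by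
        calc (B2.card : ℝ) * (ε * lp ^ s) ≤ 4 * (ε * (D ^ s * lp ^ s)) := h4
          _ = (4 * D ^ s) * (ε * lp ^ s) := by ring
      exact le_of_mul_le_mul_right h7 (by positivity)
    have h7 : 80 * D ^ s ≤ D := by
      have h8 : D = D ^ (1 - s) * D ^ s := by
        rw [← Real.rpow_add hD0]
        norm_num
      have h9 : 0 < D ^ s := Real.rpow_pos_of_pos hD0 s
      rw [← hD] at hν
      calc 80 * D ^ s ≤ D ^ (1 - s) * D ^ s := mul_le_mul_of_nonneg_right hν h9.le
        _ = D := h8.symm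
    linarith
  -- conclusion
  have hsub : (Finset.range (2 ^ ν)).filter (fun t : ℕ =>
      ENNReal.ofReal (ε * ((2 ^ (μ + ν))⁻¹) ^ s) <
        Wc xs ds s (Jn (x + t * (2 ^ (μ + ν))⁻¹) (μ + ν))) ⊆ B1 ∪ B2 := by
    intro t ht
    rw [Finset.mem_filter, hWt, ← hlp] at ht
    rw [Finset.mem_union, hB1, hB2, Finset.mem_filter, Finset.mem_filter]
    by_cases h1 : ∃ l, lp ≤ ds l ∧ hit t l
    · exact Or.inl ⟨ht.1, h1⟩
    · exact Or.inr ⟨ht.1, h1, ht.2⟩
  have hc1 := (Finset.card_le_card hsub).trans (Finset.card_union_le B1 B2)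
  have hc2 : (8 * ((Finset.range (2 ^ ν)).filter (fun t : ℕ =>
      ENNReal.ofReal (ε * ((2 ^ (μ + ν))⁻¹) ^ s) <
        Wc xs ds s (Jn (x + t * (2 ^ (μ + ν))⁻¹) (μ + ν)))).card : ℝ) ≤ 2 ^ ν := by
    have hc3 : (((Finset.range (2 ^ ν)).filter (fun t : ℕ =>
      ENNReal.ofReal (ε * ((2 ^ (μ + ν))⁻¹) ^ s) <
        Wc xs ds s (Jn (x + t * (2 ^ (μ + ν))⁻¹) (μ + ν)))).card : ℝ) ≤ B1.card + B2.card := by
      exact_mod_cast hc1
    rw [← hD]
    linarith
  exact_mod_cast hc2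

end Pool.Agent.KUB
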