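import Mathlib
import Pool.Agent.KUB.Maj

set_option autoImplicit false

/-!
KUB module Dec: the multiscale decomposition of the indicator.

`maj_one`: the constant `1` has coefficients `a 0 = 1`, `a h = 0` else; `psi' 0 0 = 1`.
`prof_const`: `psi 0 0 = 1`, `r 0 = 1`.

`decomp`: `G i = A3 δ_{i+1} (I a) - A3 δ_i (I a)`, `δ_i = 2^{-i}`,
`c i h = coef (A3 δ_{i+1} (I a)) h - coef (A3 δ_i (I a)) h = coef (I a) h (κ(hδ_{i+1})³ - κ(hδ_i)³)`.
* `h = 0`: `c i 0 = 0` (`κ(0) = 1`).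
* `h ≠ 0`: `‖coef (I a) h‖ ≤ 1/(π|h|)`.  With `y = hδ_{i+1}`, `y' = hδ_i`:
  `‖κ(y)³ - κ(y')³‖ ≤ 3‖κ(y)-1‖ + 3‖κ(y')-1‖ ≤ 6π(|y|+|y'|) = 9π|h|2^{-i}`
  (`κ³-1 = (κ-1)(κ²+κ+1)`, `‖κ‖ ≤ 1`), so `‖c i h‖ ≤ 9/2^i = 9 (r/2^i)/r`;
  and `‖κ(y)³ - κ(y')³‖ ≤ (8+1)(2^i/(π|h|))³`, so `‖c i h‖ ≤ 9 (2^i/r)³/r`.
  Together `‖c i h‖ ≤ 9 psi i h / r h ≤ 12 psi i h / r h`.
* summable: `‖c i h‖ ≤ 12 psi i h/r h ≤ 12 psi' i h * ...`; simplest: `‖c i h‖ ≤ ‖coef A3 ..‖ + ‖..‖`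
  each summable (see `hasSum_a3`, `summable_psi'`).
* `HasSum`: difference of the two instances of `hasSum_a3`.
* domination by `exists_maj`.
* telescoping: `a + ∑_{i<n} G i x = A3 1 (I a) x + ∑ ... = A3 δ_n (I a) x` (`a3_one`;
  `Finset.sum_range_sub`), which lies in `[0,1]` (`Nice.a3`), and the residual is dominated by
  `exists_maj` at `n`.
-/

namespace Pool.Agent.KUB

theorem dec_e_zero : e 0 = 1 := by
  unfold e
  simp

theorem dec_hasSum (a : ℂ) (x : ℝ) :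
    HasSum (fun h : ℤ => (if h = 0 then a else 0) * e (h * x)) a := by
  have h1 : (fun h : ℤ => (if h = 0 then a else 0) * e (h * x)) =
      fun h : ℤ => if h = 0 then a else 0 := by
    funext h
    by_cases hh : h = 0
    · subst hh
      simp [dec_e_zero]
    · simp [hh]
  rw [h1]
  exact hasSum_ite_eq 0 a

theorem dec_summable (a : ℂ) : Summable (fun h : ℤ => ‖(if h = 0 then a else 0 : ℂ)‖) := by
  have h1 : (fun h : ℤ => ‖(if h = 0 then a else 0 : ℂ)‖) = fun h : ℤ => if h = 0 then ‖a‖ else 0 := by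
    funext h
    split_ifs <;> simp
  rw [h1]
  exact (hasSum_ite_eq 0 ‖a‖).summable

theorem maj_one : Maj 0 1 (fun _ => 1) := by
  refine ⟨fun _ => zero_le_one, fun h => if h = 0 then (1 : ℂ) else 0, dec_summable 1, ?_, ?_⟩
  · intro x
    have := dec_hasSum 1 x
    simpa using this
  · intro h
    by_cases hh : h = 0
    · subst hh
      simp [psi', r_zero]
    · have := psi'_nonneg 0 h
      simp only [hh, if_false, norm_zero]
      positivity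

theorem prof_const {a : ℝ} (ha0 : 0 ≤ a) (ha1 : a ≤ 1) :
    Prof 0 1 (fun _ => a) (fun h => if h = 0 then (a : ℂ) else 0) := by
  refine ⟨dec_summable _, fun x => dec_hasSum _ x, ?_, fun _ => 1, maj_one, ?_⟩
  · intro h
    by_cases hh : h = 0
    · subst hh
      simp only [if_true, Complex.norm_real, Real.norm_eq_abs, abs_of_nonneg ha0]
      simp [psi, r_zero, ha1]
    · have := psi_nonneg 0 h
      have := r_pos h
      simp only [hh, if_false, norm_zero]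
      positivity
  · intro x
    rw [abs_of_nonneg ha0]
    exact ha1

theorem dec_cube {k : ℂ} (hk : ‖k‖ ≤ 1) : ‖k ^ 3 - 1‖ ≤ 3 * ‖k - 1‖ := by
  have h1 : k ^ 3 - 1 = (k ^ 2 + k + 1) * (k - 1) := by ring
  rw [h1, norm_mul]
  have h2 : ‖k ^ 2 + k + 1‖ ≤ 3 := by
    calc ‖k ^ 2 + k + 1‖ ≤ ‖k ^ 2 + k‖ + ‖(1 : ℂ)‖ := norm_add_le _ _
      _ ≤ ‖k ^ 2‖ + ‖k‖ + ‖(1 : ℂ)‖ := by gcongr; exact norm_add_le _ _
      _ ≤ 1 + 1 + 1 := by
          rw [norm_pow, norm_one]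
          have : ‖k‖ ^ 2 ≤ 1 := pow_le_one₀ (norm_nonneg _) hk
          linarith
      _ = 3 := by norm_num
  exact mul_le_mul_of_nonneg_right h2 (norm_nonneg _)

theorem dec_coef_le {a : ℝ} (ha0 : 0 ≤ a) (ha1 : a ≤ 1) (i : ℕ) (h : ℤ) :
    ‖coef (A3 (2 ^ i)⁻¹ (I a)) h‖ ≤ psi' i h := by
  rw [coef_a3 (nice_ind a) (by positivity), norm_mul]
  have h1 := norm_kap3_le i h
  have h2 := (norm_coef_ind_le ha0 ha1 h).trans ha1
  have h3 := psi'_nonneg i h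
  calc ‖kap (h * (2 ^ i)⁻¹) ^ 3‖ * ‖coef (I a) h‖ ≤ psi' i h * 1 :=
        mul_le_mul h1 h2 (norm_nonneg _) h3
    _ = psi' i h := mul_one _

theorem dec_psi'_le (i : ℕ) (h : ℤ) : psi' i h ≤ (2 ^ i / r h) ^ 3 := min_le_right _ _

theorem dec_bound {a : ℝ} (ha0 : 0 ≤ a) (ha1 : a ≤ 1) (i : ℕ) (h : ℤ) :
    ‖coef (A3 (2 ^ (i + 1))⁻¹ (I a)) h - coef (A3 (2 ^ i)⁻¹ (I a)) h‖ ≤ 12 * psi i h / r h := by
  have hr := r_pos h
  have hps := psi_nonneg i h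
  by_cases hh : h = 0
  · subst hh
    rw [coef_a3 (nice_ind a) (by positivity), coef_a3 (nice_ind a) (by positivity)]
    simp only [Int.cast_zero, zero_mul, kap_zero, sub_self, norm_zero]
    positivity
  have hrh : r h = |(h : ℝ)| := r_of_ne hh
  have hcoef := norm_coef_ind_le' ha0 ha1 hh
  rw [← hrh] at hcoef
  have hpi := Real.pi_gt_three
  have hpi0 := Real.pi_pos
  rw [coef_a3 (nice_ind a) (by positivity), coef_a3 (nice_ind a) (by positivity), ← sub_mul,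
    norm_mul]
  set k : ℂ := kap (h * (2 ^ (i + 1))⁻¹) with hk
  set k' : ℂ := kap (h * (2 ^ i)⁻¹) with hk'
  have b1 : ‖k ^ 3 - k' ^ 3‖ ≤ 9 * Real.pi * r h / 2 ^ i := by
    have e1 : k ^ 3 - k' ^ 3 = (k ^ 3 - 1) - (k' ^ 3 - 1) := by ring
    have e2 : ‖k ^ 3 - 1‖ ≤ 3 * (2 * Real.pi * (r h / (2 * 2 ^ i))) := by
      refine (dec_cube (norm_kap_le_one _)).trans ?_
      have := norm_kap_sub_one (h * (2 ^ (i + 1))⁻¹)
      rw [abs_mul, ← hrh, abs_of_pos (by positivity : (0 : ℝ) < (2 ^ (i + 1))⁻¹)] at this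
      have e3 : r h * (2 ^ (i + 1))⁻¹ = r h / (2 * 2 ^ i) := by
        rw [pow_succ, div_eq_mul_inv]; ring
      rw [e3] at this
      linarith
    have e4 : ‖k' ^ 3 - 1‖ ≤ 3 * (2 * Real.pi * (r h / 2 ^ i)) := by
      refine (dec_cube (norm_kap_le_one _)).trans ?_
      have := norm_kap_sub_one (h * (2 ^ i)⁻¹)
      rw [abs_mul, ← hrh, abs_of_pos (by positivity : (0 : ℝ) < (2 ^ i)⁻¹)] at this
      have e3 : r h * (2 ^ i)⁻¹ = r h / 2 ^ i := (div_eq_mul_inv _ _).symm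
      rw [e3] at this
      linarith
    rw [e1]
    refine (norm_sub_le _ _).trans ?_
    have e5 : 3 * (2 * Real.pi * (r h / (2 * 2 ^ i))) + 3 * (2 * Real.pi * (r h / 2 ^ i)) =
        9 * Real.pi * r h / 2 ^ i := by
      field_simp
      ring
    linarith
  have b2 : ‖k ^ 3 - k' ^ 3‖ ≤ 9 * (2 ^ i / r h) ^ 3 := by
    refine (norm_sub_le _ _).trans ?_
    have e1 := (norm_kap3_le (i + 1) h).trans (dec_psi'_le _ _)
    have e2 := (norm_kap3_le i h).trans (dec_psi'_le _ _)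
    have e3 : (2 ^ (i + 1) / r h) ^ 3 = 8 * (2 ^ i / r h) ^ 3 := by
      rw [pow_succ]
      ring
    rw [e3] at e1
    linarith
  have hc0 : 0 ≤ ‖k ^ 3 - k' ^ 3‖ := norm_nonneg _
  have c1 : ‖k ^ 3 - k' ^ 3‖ * ‖coef (I a) h‖ ≤ 12 * (r h / 2 ^ i) / r h := by
    calc ‖k ^ 3 - k' ^ 3‖ * ‖coef (I a) h‖
        ≤ (9 * Real.pi * r h / 2 ^ i) * (1 / (Real.pi * r h)) :=
          mul_le_mul b1 hcoef (norm_nonneg _) (by positivity)
      _ = 9 * (r h / 2 ^ i) / r h := by field_simp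
      _ ≤ 12 * (r h / 2 ^ i) / r h := by gcongr; norm_num
  have c2 : ‖k ^ 3 - k' ^ 3‖ * ‖coef (I a) h‖ ≤ 12 * (2 ^ i / r h) ^ 3 / r h := by
    have hcoef2 : ‖coef (I a) h‖ ≤ 1 / r h := by
      refine hcoef.trans ?_
      apply one_div_le_one_div_of_le hr
      nlinarith
    calc ‖k ^ 3 - k' ^ 3‖ * ‖coef (I a) h‖
        ≤ (9 * (2 ^ i / r h) ^ 3) * (1 / r h) :=
          mul_le_mul b2 hcoef2 (norm_nonneg _) (by positivity)
      _ = 9 * (2 ^ i / r h) ^ 3 / r h := by ring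
      _ ≤ 12 * (2 ^ i / r h) ^ 3 / r h := by gcongr; norm_num
  unfold psi
  rcases min_choice (r h / 2 ^ i) ((2 ^ i / r h) ^ 3) with hm | hm
  · rw [hm]; exact c1
  · rw [hm]; exact c2

theorem decomp {a : ℝ} (ha0 : 0 ≤ a) (ha1 : a ≤ 1) :
    ∃ (G : ℕ → ℝ → ℝ) (c : ℕ → ℤ → ℂ), (∀ i, Prof i 12 (G i) (c i) ∧ c i 0 = 0) ∧
      ∀ n, (∀ x, |a + ∑ i ∈ Finset.range n, G i x| ≤ 1) ∧
        ∃ A, Maj n 12 A ∧ ∀ x, |I a x - (a + ∑ i ∈ Finset.range n, G i x)| ≤ A x := by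
  refine ⟨fun i x => A3 (2 ^ (i + 1))⁻¹ (I a) x - A3 (2 ^ i)⁻¹ (I a) x,
    fun i h => coef (A3 (2 ^ (i + 1))⁻¹ (I a)) h - coef (A3 (2 ^ i)⁻¹ (I a)) h, ?_, ?_⟩
  · intro i
    refine ⟨⟨?_, ?_, fun h => dec_bound ha0 ha1 i h, ?_⟩, ?_⟩
    · refine Summable.of_nonneg_of_le (fun _ => norm_nonneg _) (fun h => norm_sub_le _ _) ?_
      refine Summable.add ?_ ?_
      · exact Summable.of_nonneg_of_le (fun _ => norm_nonneg _)
          (fun h => dec_coef_le ha0 ha1 (i + 1) h) (summable_psi' (i + 1))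
      · exact Summable.of_nonneg_of_le (fun _ => norm_nonneg _)
          (fun h => dec_coef_le ha0 ha1 i h) (summable_psi' i)
    · intro x
      have h1 := (hasSum_a3 (nice_ind a) (i + 1) x).sub (hasSum_a3 (nice_ind a) i x)
      push_cast
      refine h1.congr_fun ?_ |> id
      intro h
      ring
    · obtain ⟨A, hA, -, h2⟩ := exists_maj ha0 ha1 i
      exact ⟨A, hA, h2⟩
    · change coef (A3 (2 ^ (i + 1))⁻¹ (I a)) 0 - coef (A3 (2 ^ i)⁻¹ (I a)) 0 = 0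
      rw [coef_a3 (nice_ind a) (by positivity), coef_a3 (nice_ind a) (by positivity)]
      simp only [Int.cast_zero, zero_mul, kap_zero, sub_self]
  · intro n
    have htel : ∀ x, a + ∑ i ∈ Finset.range n,
        (A3 (2 ^ (i + 1))⁻¹ (I a) x - A3 (2 ^ i)⁻¹ (I a) x) = A3 (2 ^ n)⁻¹ (I a) x := by
      intro x
      rw [Finset.sum_range_sub (fun i => A3 (2 ^ i)⁻¹ (I a) x) n]
      have := a3_one ha0 ha1 x
      simp only [pow_zero, inv_one, this]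
      ring
    have hnice := (nice_ind a).a3 (δ := (2 ^ n)⁻¹) (by positivity)
    refine ⟨fun x => ?_, ?_⟩
    · rw [htel x, abs_of_nonneg (hnice.nonneg x)]
      exact hnice.le_one x
    · obtain ⟨A, hA, h1, -⟩ := exists_maj ha0 ha1 n
      refine ⟨A, hA, fun x => ?_⟩
      rw [htel x]
      exact h1 x

end Pool.Agent.KUB
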