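import Mathlib
import Pool.Agent.KUB.Defs

set_option autoImplicit false

/-!
KUB module Det: `w` is almost constant on very short intervals.

`p = (h,m) ∈ P 0 s`, `i = lg h`, `k = lg m`, `i + k ≤ s - 1`; `nn` is 1-Lipschitz
(`nn_add`/`nn_sub`, `nn_le_abs`), so
`|w(β) - w(β')| ≤ r(h) r(m) |m| |β-β'| ≤ 2^{i+1} 2^{2(k+1)} |β-β'| ≤ 2^{2s+1} 2^{-(2s+A+4)} ≤ 2^{-A-1}`.
If `w(β) ≥ 2·2^{-A}` then `w(β') ≥ w(β) - 2^{-A-1} ≥ (3/4) w(β) > 0`, so `1/w' ≤ 2/w` and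
`1/w'² ≤ 4/w²`, i.e. `Th(w') ≤ 4 Th(w)`, and `Th(w) ≤ 1/w ≤ 2^A`.
`det_sum`: if `NV = 0` then `w α β p ≥ 2/2^A` for all `p ∈ P a b`; sum `det` (`P a b ⊆ P 0 s`).
-/

namespace Pool.Agent.KUB

open scoped ENNReal

theorem nn_le_add_abs (x y : ℝ) : Pool.Agent.FIB.nn x ≤ Pool.Agent.FIB.nn y + |x - y| := by
  have h1 := Pool.Agent.FIB.nn_add y (x - y)
  have h2 := Pool.Agent.FIB.nn_le_abs (x - y)
  have h3 : y + (x - y) = x := by ring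
  rw [h3] at h1
  linarith

theorem det_w {α β β' : ℝ} {s A : ℕ} {p : ℤ × ℤ} (hp : p ∈ P 0 s)
    (h : |β - β'| ≤ (2 ^ (2 * s + A + 4))⁻¹) :
    w α β p ≤ w α β' p + (2 ^ (A + 3))⁻¹ := by
  obtain ⟨h0, -, h1⟩ := mem_P.1 hp
  have hr1 := r_lt_two_pow p.1
  have hr2 := r_lt_two_pow p.2
  have ha := abs_le_r p.2
  have hp1 := r_pos p.1
  have hp2 := r_pos p.2
  have hdiff : lf α β p - lf α β' p = p.2 * (β - β') := by unfold lf; ring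
  have hnn := nn_le_add_abs (lf α β p) (lf α β' p)
  rw [hdiff, abs_mul] at hnn
  have e1 : w α β p ≤ w α β' p + r p.1 * r p.2 * (|(p.2 : ℝ)| * |β - β'|) := by
    unfold w
    rw [← mul_add]
    exact mul_le_mul_of_nonneg_left hnn (by positivity)
  refine e1.trans ?_
  have e2 : r p.1 * r p.2 * (|(p.2 : ℝ)| * |β - β'|) ≤
      2 ^ (lg p.1 + 1) * 2 ^ (lg p.2 + 1) * (2 ^ (lg p.2 + 1) * (2 ^ (2 * s + A + 4))⁻¹) := by
    have h3 : |(p.2 : ℝ)| ≤ 2 ^ (lg p.2 + 1) := ha.trans hr2.le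
    gcongr
  have e3 : (2 : ℝ) ^ (lg p.1 + 1) * 2 ^ (lg p.2 + 1) *
      (2 ^ (lg p.2 + 1) * (2 ^ (2 * s + A + 4))⁻¹) ≤ (2 ^ (A + 3))⁻¹ := by
    have h4 : (2 : ℝ) ^ (lg p.1 + 1) * 2 ^ (lg p.2 + 1) *
        (2 ^ (lg p.2 + 1) * (2 ^ (2 * s + A + 4))⁻¹) =
        2 ^ (lg p.1 + 2 * lg p.2 + 3) * (2 ^ (2 * s + A + 4))⁻¹ := by
      ring
    rw [h4, ← div_eq_mul_inv, div_le_iff₀ (by positivity)]
    have h5 : (2 : ℝ) ^ (2 * s + A + 4) = 2 ^ (2 * s + 1) * 2 ^ (A + 3) := by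
      rw [← pow_add]; congr 1; omega
    rw [h5]
    have h6 : ((2 : ℝ) ^ (A + 3))⁻¹ * (2 ^ (2 * s + 1) * 2 ^ (A + 3)) = 2 ^ (2 * s + 1) := by
      field_simp
    rw [h6]
    exact pow_le_pow_right₀ (by norm_num) (by omega)
  linarith

theorem det {α β β' : ℝ} {s A : ℕ} {p : ℤ × ℤ} (hp : p ∈ P 0 s)
    (h : |β - β'| ≤ (2 ^ (2 * s + A + 4))⁻¹) (hw : 2 / 2 ^ A ≤ w α β p) :
    Th (w α β' p) ≤ 4 * min (2 ^ A) (Th (w α β p)) := by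
  have h1 := det_w (α := α) hp h
  set x := w α β p with hx
  set y := w α β' p with hy
  have hA : (0 : ℝ) < 2 / 2 ^ A := by positivity
  have hx0 : 0 < x := lt_of_lt_of_le hA hw
  have h2 : ((2 : ℝ) ^ (A + 3))⁻¹ ≤ x / 2 := by
    have : ((2 : ℝ) ^ (A + 3))⁻¹ ≤ (2 / 2 ^ A) / 2 := by
      rw [pow_add, mul_inv, div_div, div_eq_mul_inv]
      have h8 : (0 : ℝ) < (2 ^ A)⁻¹ := by positivity
      rw [mul_inv]
      norm_num
      nlinarith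
    linarith
  have hy2 : x / 2 ≤ y := by linarith
  have hy0 : 0 < y := by linarith
  have hinv : y⁻¹ ≤ 2 * x⁻¹ := by
    have : y⁻¹ ≤ (x / 2)⁻¹ := inv_anti₀ (by linarith) hy2
    calc y⁻¹ ≤ (x / 2)⁻¹ := this
      _ = 2 * x⁻¹ := by field_simp
  have hxinv : x⁻¹ ≤ 2 ^ A / 2 := by
    have : x⁻¹ ≤ (2 / 2 ^ A)⁻¹ := inv_anti₀ hA hw
    rwa [inv_div] at this
  set X : ℝ≥0∞ := (ENNReal.ofReal x)⁻¹ with hX
  set Y : ℝ≥0∞ := (ENNReal.ofReal y)⁻¹ with hY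
  have hXr : X = ENNReal.ofReal x⁻¹ := (ENNReal.ofReal_inv_of_pos hx0).symm
  have hYr : Y = ENNReal.ofReal y⁻¹ := (ENNReal.ofReal_inv_of_pos hy0).symm
  have hYX : Y ≤ 2 * X := by
    rw [hXr, hYr]
    calc ENNReal.ofReal y⁻¹ ≤ ENNReal.ofReal (2 * x⁻¹) := ENNReal.ofReal_le_ofReal hinv
      _ = 2 * ENNReal.ofReal x⁻¹ := by
        rw [ENNReal.ofReal_mul (by norm_num)]
        norm_num
  have hXA : 2 * X ≤ 2 ^ A := by
    rw [hXr]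
    have e1 : (2 : ℝ≥0∞) * ENNReal.ofReal x⁻¹ = ENNReal.ofReal (2 * x⁻¹) := by
      rw [ENNReal.ofReal_mul (by norm_num)]
      norm_num
    have e2 : (2 : ℝ≥0∞) ^ A = ENNReal.ofReal (2 ^ A) := by
      rw [ENNReal.ofReal_pow (by norm_num)]
      norm_num
    rw [e1, e2]
    apply ENNReal.ofReal_le_ofReal
    linarith
  have hm : ∀ u v : ℝ≥0∞, 4 * min u v = min (4 * u) (4 * v) := fun u v =>
    Monotone.map_min (f := fun z : ℝ≥0∞ => 4 * z) (fun a b hab => by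
      change 4 * a ≤ 4 * b
      gcongr)
  unfold Th
  rw [← hX, ← hY, hm, hm]
  refine le_min ?_ (le_min ?_ ?_)
  · refine (min_le_left _ _).trans (hYX.trans (hXA.trans ?_))
    calc (2 : ℝ≥0∞) ^ A = 1 * 2 ^ A := (one_mul _).symm
      _ ≤ 4 * 2 ^ A := by gcongr; norm_num
  · refine (min_le_left _ _).trans (hYX.trans ?_)
    gcongr
    norm_num
  · refine (min_le_right _ _).trans ?_
    calc Y ^ 2 ≤ (2 * X) ^ 2 := by gcongr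
      _ = 4 * X ^ 2 := by rw [mul_pow]; norm_num

theorem det_sum {α β β' : ℝ} {a b A : ℕ}
    (h : |β - β'| ≤ (2 ^ (2 * b + A + 4))⁻¹) (hNV : NV A a b α β = 0) :
    ST a b α β' ≤ 4 * STA A a b α β := by
  unfold ST STA
  rw [Finset.mul_sum]
  refine Finset.sum_le_sum fun p hp => ?_
  have hp0 : p ∈ P 0 b := by
    rw [mem_P] at hp ⊢
    exact ⟨hp.1, Nat.zero_le _, hp.2.2⟩
  refine det hp0 h ?_
  by_contra hc
  have hlt : w α β p < 2 / 2 ^ A := not_le.1 hc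
  unfold NV at hNV
  rw [Finset.sum_eq_zero_iff] at hNV
  have := hNV p hp
  rw [if_pos hlt] at this
  exact one_ne_zero this

end Pool.Agent.KUB
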