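import Mathlib
import Pool.Agent.KUB.CellB

set_option autoImplicit false

/-!
KUB module Geo: summing the cell weights over all cells `i, k ≤ n`.
-/

namespace Pool.Agent.KUB

open Pool.Agent.FIB (nn)
open scoped ENNReal

private theorem Geo_small (n : ℕ) (h : ℤ) :
    ∑ i ∈ Finset.range (n + 1), min (r h / 2 ^ i) (2 ^ i / r h) ≤ 2 * (2 ^ n / r h) := by
  have hr := r_pos h
  have h1 : ∑ i ∈ Finset.range (n + 1), min (r h / 2 ^ i) (2 ^ i / r h) ≤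
      ∑ i ∈ Finset.range (n + 1), (2 : ℝ) ^ i / r h :=
    Finset.sum_le_sum fun i _ => min_le_right _ _
  refine h1.trans ?_
  rw [← Finset.sum_div, geom_sum_eq (by norm_num : (2 : ℝ) ≠ 1), ← mul_div_assoc]
  apply div_le_div_of_nonneg_right _ hr.le
  rw [pow_succ]
  have : (0 : ℝ) < 2 ^ n := by positivity
  linarith

private theorem Geo_big (n : ℕ) (h : ℤ) :
    ∑ i ∈ Finset.range (lg h + n + 1), min (r h / 2 ^ i) (2 ^ i / r h) ≤
      4 - r h / 2 ^ (lg h + n) := by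
  have hr := r_pos h
  induction n with
  | zero =>
    refine (Geo_small (lg h) h).trans ?_
    rw [add_zero]
    have h1 := two_pow_lg_le h
    have h2 := r_lt_two_pow h
    have h0 : (0 : ℝ) < 2 ^ lg h := by positivity
    rw [pow_succ] at h2
    have h3 : (0 : ℝ) < r h * 2 ^ lg h := by positivity
    rw [← sub_nonneg]
    have e : 4 - r h / 2 ^ lg h - 2 * (2 ^ lg h / r h)
        = (4 * r h * 2 ^ lg h - r h ^ 2 - 2 * (2 ^ lg h) ^ 2) / (r h * 2 ^ lg h) := by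
      field_simp
    rw [e]
    apply div_nonneg _ h3.le
    nlinarith
  | succ n ih =>
    have e1 : lg h + (n + 1) + 1 = (lg h + n + 1) + 1 := by ring
    rw [e1, Finset.sum_range_succ]
    have h1 : min (r h / 2 ^ (lg h + n + 1)) (2 ^ (lg h + n + 1) / r h) ≤
      r h / 2 ^ (lg h + n + 1) := min_le_left _ _
    have e2 : r h / 2 ^ (lg h + n) = 2 * (r h / 2 ^ (lg h + n + 1)) := by
      rw [pow_succ]; field_simp
    have e3 : lg h + (n + 1) = lg h + n + 1 := by ring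
    rw [e3]
    rw [e2] at ih
    linarith

theorem sum_min_le (n : ℕ) (h : ℤ) :
    ∑ i ∈ Finset.range (n + 1), min (r h / 2 ^ i) (2 ^ i / r h) ≤ 4 * cn n h := by
  have hr := r_pos h
  unfold cn
  rcases le_or_gt n (lg h) with hn | hn
  · have h1 : (2 : ℝ) ^ n ≤ r h :=
      (pow_le_pow_right₀ (by norm_num) hn).trans (two_pow_lg_le h)
    have h2 : (2 : ℝ) ^ n / r h ≤ 1 := (div_le_one hr).2 h1
    rw [min_eq_right h2]
    have h3 := Geo_small n h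
    have : (0 : ℝ) ≤ 2 ^ n / r h := by positivity
    linarith
  · have h1 : r h ≤ (2 : ℝ) ^ n :=
      (r_lt_two_pow h).le.trans (pow_le_pow_right₀ (by norm_num) hn)
    have h2 : 1 ≤ (2 : ℝ) ^ n / r h := (one_le_div hr).2 h1
    rw [min_eq_left h2]
    obtain ⟨k, rfl⟩ := Nat.exists_eq_add_of_lt hn
    have h3 := Geo_big (k + 1) h
    have e : lg h + (k + 1) + 1 = lg h + k + 1 + 1 := by ring
    rw [e] at h3
    have : (0 : ℝ) ≤ r h / 2 ^ (lg h + (k + 1)) := by positivity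
    linarith

private theorem Geo_Th {x : ℝ} (hx : 0 < x) :
    Th x = ENNReal.ofReal (min x⁻¹ (x⁻¹ ^ 2)) := by
  unfold Th
  rw [ENNReal.ofReal_min, ENNReal.ofReal_pow (by positivity), ENNReal.ofReal_inv_of_pos hx]

private theorem Geo_Xf {x : ℝ} (hx : 0 < x) :
    Xf x = ENNReal.ofReal (min 1 (x⁻¹ ^ 2)) := by
  unfold Xf
  rw [ENNReal.ofReal_min, ENNReal.ofReal_pow (by positivity), ENNReal.ofReal_inv_of_pos hx,
    ENNReal.ofReal_one]

private theorem Geo_min_le_inv {y : ℝ} (hy : 0 < y) : min 1 (y⁻¹ ^ 2) ≤ y⁻¹ := by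
  have h0 : 0 < y⁻¹ := inv_pos.2 hy
  rcases le_total 1 y⁻¹ with h | h
  · exact (min_le_left _ _).trans h
  · exact (min_le_right _ _).trans (by nlinarith)

private noncomputable def Geo_g (u : ℝ) : ℝ := min u u⁻¹

private theorem Geo_g_pos {u : ℝ} (hu : 0 < u) : 0 < Geo_g u := lt_min hu (inv_pos.2 hu)

private theorem Geo_cases {u : ℝ} (hu : 0 < u) :
    (u ≤ 1 ∧ Geo_g u = u ∧ 1 ≤ u⁻¹) ∨ (1 ≤ u ∧ Geo_g u = u⁻¹ ∧ u⁻¹ ≤ 1) := by
  rcases le_total u 1 with h | h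
  · have h1 : 1 ≤ u⁻¹ := (one_le_inv₀ hu).2 h
    exact Or.inl ⟨h, min_eq_left (h.trans h1), h1⟩
  · have h1 : u⁻¹ ≤ 1 := inv_le_one_of_one_le₀ h
    exact Or.inr ⟨h, min_eq_right (h1.trans h), h1⟩

private theorem Geo_psi1 {u : ℝ} (hu : 0 < u) : min u (u⁻¹ ^ 3) ≤ Geo_g u := by
  rcases Geo_cases hu with ⟨h1, h2, h3⟩ | ⟨h1, h2, h3⟩ <;> rw [h2]
  · exact min_le_left _ _
  · refine (min_le_right _ _).trans ?_
    have := inv_pos.2 hu
    exact pow_le_of_le_one this.le h3 (by norm_num)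

private theorem Geo_psi2 {u : ℝ} (hu : 0 < u) : u * min u (u⁻¹ ^ 3) ≤ Geo_g u := by
  have hi := inv_pos.2 hu
  rcases Geo_cases hu with ⟨h1, h2, h3⟩ | ⟨h1, h2, h3⟩ <;> rw [h2]
  · refine (mul_le_mul_of_nonneg_left (min_le_left _ _) hu.le).trans ?_
    nlinarith
  · refine (mul_le_mul_of_nonneg_left (min_le_right _ _) hu.le).trans ?_
    have e : u * u⁻¹ ^ 3 = u⁻¹ ^ 2 := by field_simp
    rw [e]
    exact pow_le_of_le_one hi.le h3 (by norm_num)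

private theorem Geo_psi3 {u : ℝ} (hu : 0 < u) : u * min 1 (u⁻¹ ^ 3) ≤ Geo_g u := by
  have hi := inv_pos.2 hu
  rcases Geo_cases hu with ⟨h1, h2, h3⟩ | ⟨h1, h2, h3⟩ <;> rw [h2]
  · refine (mul_le_mul_of_nonneg_left (min_le_left _ _) hu.le).trans ?_
    rw [mul_one]
  · refine (mul_le_mul_of_nonneg_left (min_le_right _ _) hu.le).trans ?_
    have e : u * u⁻¹ ^ 3 = u⁻¹ ^ 2 := by field_simp
    rw [e]
    exact pow_le_of_le_one hi.le h3 (by norm_num)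

private theorem Geo_psi4 {u : ℝ} (hu : 0 < u) : u ^ 2 * min 1 (u⁻¹ ^ 3) ≤ Geo_g u := by
  have hi := inv_pos.2 hu
  have h2u : 0 ≤ u ^ 2 := by positivity
  rcases Geo_cases hu with ⟨h1, h2, h3⟩ | ⟨h1, h2, h3⟩ <;> rw [h2]
  · refine (mul_le_mul_of_nonneg_left (min_le_left _ _) h2u).trans ?_
    nlinarith
  · refine (mul_le_mul_of_nonneg_left (min_le_right _ _) h2u).trans ?_
    have e : u ^ 2 * u⁻¹ ^ 3 = u⁻¹ := by field_simp
    rw [e]

private theorem Geo_psi_eq (i : ℕ) (h : ℤ) :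
    psi i h = min (r h / 2 ^ i) ((r h / 2 ^ i)⁻¹ ^ 3) := by
  unfold psi; rw [inv_div]

private theorem Geo_psi'_eq (i : ℕ) (h : ℤ) :
    psi' i h = min 1 ((r h / 2 ^ i)⁻¹ ^ 3) := by
  unfold psi'; rw [inv_div]

private theorem Geo_g_eq (i : ℕ) (h : ℤ) :
    min (r h / 2 ^ i) (2 ^ i / r h) = Geo_g (r h / 2 ^ i) := by
  unfold Geo_g; rw [inv_div]

private theorem Geo_key {u v F1 F2 w y : ℝ} (hu : 0 < u) (hv : 0 < v) (hw : 0 < w)
    (hy : y = w / (u * v)) (hF1 : 0 ≤ F1) (hF2 : 0 ≤ F2)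
    (a1 : F1 ≤ Geo_g u) (a2 : F2 ≤ Geo_g v) (b1 : u * F1 ≤ Geo_g u) (b2 : v * F2 ≤ Geo_g v) :
    F1 * F2 * w⁻¹ * min 1 (y⁻¹ ^ 2) ≤ Geo_g u * Geo_g v * min w⁻¹ (w⁻¹ ^ 2) := by
  have hy0 : 0 < y := by rw [hy]; positivity
  have hwi := inv_pos.2 hw
  have hgu := Geo_g_pos hu
  have hgv := Geo_g_pos hv
  have c1 : F1 * F2 ≤ Geo_g u * Geo_g v := mul_le_mul a1 a2 hF2 hgu.le
  have c2 : (u * F1) * (v * F2) ≤ Geo_g u * Geo_g v := mul_le_mul b1 b2 (by positivity) hgu.le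
  have hyi : y⁻¹ = u * v * w⁻¹ := by rw [hy, inv_div]; field_simp
  rcases min_choice w⁻¹ (w⁻¹ ^ 2) with h | h <;> rw [h]
  · calc F1 * F2 * w⁻¹ * min 1 (y⁻¹ ^ 2) ≤ F1 * F2 * w⁻¹ * 1 :=
          mul_le_mul_of_nonneg_left (min_le_left _ _) (by positivity)
      _ = F1 * F2 * w⁻¹ := mul_one _
      _ ≤ _ := mul_le_mul_of_nonneg_right c1 hwi.le
  · calc F1 * F2 * w⁻¹ * min 1 (y⁻¹ ^ 2) ≤ F1 * F2 * w⁻¹ * y⁻¹ :=
          mul_le_mul_of_nonneg_left (Geo_min_le_inv hy0) (by positivity)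
      _ = (u * F1) * (v * F2) * w⁻¹ ^ 2 := by rw [hyi]; ring
      _ ≤ _ := mul_le_mul_of_nonneg_right c2 (by positivity)

private theorem Geo_key' {u v F1 F2 w y : ℝ} (hu : 0 < u) (hv : 0 < v) (hw : 0 < w)
    (hy : y = w / (u * v)) (hF1 : 0 ≤ F1) (hF2 : 0 ≤ F2)
    (a1 : u * F1 ≤ Geo_g u) (a2 : v * F2 ≤ Geo_g v) (b1 : u ^ 2 * F1 ≤ Geo_g u)
    (b2 : v ^ 2 * F2 ≤ Geo_g v) :
    F1 * F2 * min 1 (y⁻¹ ^ 2) ≤ Geo_g u * Geo_g v * min w⁻¹ (w⁻¹ ^ 2) := by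
  have hy0 : 0 < y := by rw [hy]; positivity
  have hwi := inv_pos.2 hw
  have hgu := Geo_g_pos hu
  have hgv := Geo_g_pos hv
  have c1 : (u * F1) * (v * F2) ≤ Geo_g u * Geo_g v := mul_le_mul a1 a2 (by positivity) hgu.le
  have c2 : (u ^ 2 * F1) * (v ^ 2 * F2) ≤ Geo_g u * Geo_g v :=
    mul_le_mul b1 b2 (by positivity) hgu.le
  have hyi : y⁻¹ = u * v * w⁻¹ := by rw [hy, inv_div]; field_simp
  rcases min_choice w⁻¹ (w⁻¹ ^ 2) with h | h <;> rw [h]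
  · calc F1 * F2 * min 1 (y⁻¹ ^ 2) ≤ F1 * F2 * y⁻¹ :=
          mul_le_mul_of_nonneg_left (Geo_min_le_inv hy0) (by positivity)
      _ = (u * F1) * (v * F2) * w⁻¹ := by rw [hyi]; ring
      _ ≤ _ := mul_le_mul_of_nonneg_right c1 hwi.le
  · calc F1 * F2 * min 1 (y⁻¹ ^ 2) ≤ F1 * F2 * (y⁻¹ ^ 2) :=
          mul_le_mul_of_nonneg_left (min_le_right _ _) (by positivity)
      _ = (u ^ 2 * F1) * (v ^ 2 * F2) * w⁻¹ ^ 2 := by rw [hyi]; ring
      _ ≤ _ := mul_le_mul_of_nonneg_right c2 (by positivity)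

private theorem Geo_nn_pos {α β : ℝ} {p : ℤ × ℤ} (hw : 0 < w α β p) : 0 < nn (lf α β p) := by
  unfold w at hw
  exact pos_of_mul_pos_right hw (mul_pos (r_pos _) (r_pos _)).le

private theorem Geo_y {i k : ℕ} {α β : ℝ} {p : ℤ × ℤ} :
    2 ^ (i + k) * nn (lf α β p) = w α β p / (r p.1 / 2 ^ i * (r p.2 / 2 ^ k)) := by
  have h1 := r_pos p.1
  have h2 := r_pos p.2
  unfold w
  rw [pow_add]
  field_simp

theorem rm_le (i k : ℕ) (α β : ℝ) (p : ℤ × ℤ) (hw : 0 < w α β p) :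
    Rm i k α β p ≤ ENNReal.ofReal (min (r p.1 / 2 ^ i) (2 ^ i / r p.1) *
      min (r p.2 / 2 ^ k) (2 ^ k / r p.2)) * Th (w α β p) := by
  have h1 := r_pos p.1
  have h2 := r_pos p.2
  have hnn := Geo_nn_pos hw
  have hu : 0 < r p.1 / 2 ^ i := by positivity
  have hv : 0 < r p.2 / 2 ^ k := by positivity
  have hy : (0 : ℝ) < 2 ^ (i + k) * nn (lf α β p) := by positivity
  have p1 : 0 ≤ min (r p.1 / 2 ^ i) ((r p.1 / 2 ^ i)⁻¹ ^ 3) := le_min hu.le (by positivity)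
  have p2 : 0 ≤ min (r p.2 / 2 ^ k) ((r p.2 / 2 ^ k)⁻¹ ^ 3) := le_min hv.le (by positivity)
  unfold Rm
  rw [Geo_Th hw, Geo_Xf hy, Geo_g_eq, Geo_g_eq, Geo_psi_eq, Geo_psi_eq,
    ← ENNReal.ofReal_inv_of_pos hw, ← ENNReal.ofReal_mul (mul_nonneg p1 p2),
    ← ENNReal.ofReal_mul (by positivity),
    ← ENNReal.ofReal_mul (mul_pos (Geo_g_pos hu) (Geo_g_pos hv)).le]
  refine ENNReal.ofReal_le_ofReal ?_
  exact Geo_key hu hv hw Geo_y p1 p2 (Geo_psi1 hu) (Geo_psi1 hv) (Geo_psi2 hu) (Geo_psi2 hv)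

theorem rw_le (i k : ℕ) (α β : ℝ) (p : ℤ × ℤ) (hw : 0 < w α β p) :
    Rw i k α β p ≤ ENNReal.ofReal (min (r p.1 / 2 ^ i) (2 ^ i / r p.1) *
      min (r p.2 / 2 ^ k) (2 ^ k / r p.2)) * Th (w α β p) := by
  have h1 := r_pos p.1
  have h2 := r_pos p.2
  have hnn := Geo_nn_pos hw
  have hu : 0 < r p.1 / 2 ^ i := by positivity
  have hv : 0 < r p.2 / 2 ^ k := by positivity
  have hy : (0 : ℝ) < 2 ^ (i + k) * nn (lf α β p) := by positivity
  have p1 : 0 ≤ min 1 ((r p.1 / 2 ^ i)⁻¹ ^ 3) := le_min zero_le_one (by positivity)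
  have p2 : 0 ≤ min 1 ((r p.2 / 2 ^ k)⁻¹ ^ 3) := le_min zero_le_one (by positivity)
  unfold Rw
  rw [Geo_Th hw, Geo_Xf hy, Geo_g_eq, Geo_g_eq, Geo_psi'_eq, Geo_psi'_eq,
    ← ENNReal.ofReal_mul (mul_nonneg p1 p2),
    ← ENNReal.ofReal_mul (mul_pos (Geo_g_pos hu) (Geo_g_pos hv)).le]
  refine ENNReal.ofReal_le_ofReal ?_
  exact Geo_key' hu hv hw Geo_y p1 p2 (Geo_psi3 hu) (Geo_psi3 hv) (Geo_psi4 hu) (Geo_psi4 hv)

theorem geo (n : ℕ) (α β : ℝ) (p : ℤ × ℤ) :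
    ∑ i ∈ Finset.range (n + 1), ∑ k ∈ Finset.range (n + 1), (Rm i k α β p + Rw i k α β p) ≤
      32 * (ENNReal.ofReal (cn n p.1 * cn n p.2) * Th (w α β p)) := by
  have h1 := r_pos p.1
  have h2 := r_pos p.2
  have hc1 : 0 < cn n p.1 := lt_min one_pos (by positivity)
  have hc2 : 0 < cn n p.2 := lt_min one_pos (by positivity)
  rcases (w_nonneg α β p).eq_or_lt with hw | hw
  · have hT : Th (w α β p) = ⊤ := by
      rw [← hw]; unfold Th; simp
    rw [hT, ENNReal.mul_top (ENNReal.ofReal_pos.2 (mul_pos hc1 hc2)).ne',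
      ENNReal.mul_top (by norm_num)]
    exact le_top
  · set g1 : ℕ → ℝ := fun i => min (r p.1 / 2 ^ i) (2 ^ i / r p.1) with hg1
    set g2 : ℕ → ℝ := fun k => min (r p.2 / 2 ^ k) (2 ^ k / r p.2) with hg2
    have q1 : ∀ i, 0 ≤ g1 i := fun i => le_min (by positivity) (by positivity)
    have q2 : ∀ i, 0 ≤ g2 i := fun i => le_min (by positivity) (by positivity)
    have e1 : ∑ i ∈ Finset.range (n + 1), ∑ k ∈ Finset.range (n + 1),
        (Rm i k α β p + Rw i k α β p) ≤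
        ∑ i ∈ Finset.range (n + 1), ∑ k ∈ Finset.range (n + 1),
          2 * (ENNReal.ofReal (g1 i * g2 k) * Th (w α β p)) := by
      refine Finset.sum_le_sum fun i _ => Finset.sum_le_sum fun k _ => ?_
      rw [two_mul]
      exact add_le_add (rm_le i k α β p hw) (rw_le i k α β p hw)
    refine e1.trans ?_
    have e2 : ∑ i ∈ Finset.range (n + 1), ∑ k ∈ Finset.range (n + 1),
          2 * (ENNReal.ofReal (g1 i * g2 k) * Th (w α β p)) =
        2 * (ENNReal.ofReal ((∑ i ∈ Finset.range (n + 1), g1 i) *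
          ∑ k ∈ Finset.range (n + 1), g2 k) * Th (w α β p)) := by
      rw [Finset.sum_mul_sum, ENNReal.ofReal_sum_of_nonneg
        (fun i _ => Finset.sum_nonneg fun k _ => mul_nonneg (q1 i) (q2 k)), Finset.sum_mul,
        Finset.mul_sum]
      refine Finset.sum_congr rfl fun i _ => ?_
      rw [ENNReal.ofReal_sum_of_nonneg (fun k _ => mul_nonneg (q1 i) (q2 k)), Finset.sum_mul,
        Finset.mul_sum]
    rw [e2]
    have e3 : (∑ i ∈ Finset.range (n + 1), g1 i) * ∑ k ∈ Finset.range (n + 1), g2 k ≤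
        16 * (cn n p.1 * cn n p.2) := by
      calc (∑ i ∈ Finset.range (n + 1), g1 i) * ∑ k ∈ Finset.range (n + 1), g2 k
          ≤ (4 * cn n p.1) * (4 * cn n p.2) :=
            mul_le_mul (sum_min_le n p.1) (sum_min_le n p.2)
              (Finset.sum_nonneg fun k _ => q2 k) (by positivity)
        _ = _ := by ring
    calc 2 * (ENNReal.ofReal ((∑ i ∈ Finset.range (n + 1), g1 i) *
          ∑ k ∈ Finset.range (n + 1), g2 k) * Th (w α β p))
        ≤ 2 * (ENNReal.ofReal (16 * (cn n p.1 * cn n p.2)) * Th (w α β p)) := by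
          gcongr
      _ = _ := by
          rw [ENNReal.ofReal_mul (by norm_num : (0 : ℝ) ≤ 16)]
          have : ENNReal.ofReal 16 = 16 := by norm_num
          rw [this, ← mul_assoc, ← mul_assoc, ← mul_assoc]
          norm_num

/-- summed over `p ≠ 0` -/
theorem geo_z0 (n : ℕ) (α β : ℝ) :
    ∑ i ∈ Finset.range (n + 1), ∑ k ∈ Finset.range (n + 1),
      (z0 (Rm i k α β) + z0 (Rw i k α β)) ≤
      32 * z0 (fun p => ENNReal.ofReal (cn n p.1 * cn n p.2) * Th (w α β p)) := by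
  have e1 : ∀ i k : ℕ, z0 (Rm i k α β) + z0 (Rw i k α β) =
      ∑' p : ℤ × ℤ, if p = 0 then 0 else (Rm i k α β p + Rw i k α β p) := by
    intro i k
    unfold z0
    rw [← ENNReal.tsum_add]
    refine tsum_congr fun p => ?_
    split_ifs <;> simp
  simp_rw [e1]
  have e2 : ∑ i ∈ Finset.range (n + 1), ∑ k ∈ Finset.range (n + 1),
      (∑' p : ℤ × ℤ, if p = 0 then 0 else (Rm i k α β p + Rw i k α β p)) =
      ∑' p : ℤ × ℤ, ∑ i ∈ Finset.range (n + 1), ∑ k ∈ Finset.range (n + 1),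
        (if p = 0 then 0 else (Rm i k α β p + Rw i k α β p)) := by
    rw [Summable.tsum_finsetSum (fun _ _ => ENNReal.summable)]
    refine Finset.sum_congr rfl fun i _ => ?_
    rw [Summable.tsum_finsetSum (fun _ _ => ENNReal.summable)]
  rw [e2]
  unfold z0
  rw [← ENNReal.tsum_mul_left]
  refine ENNReal.tsum_le_tsum fun p => ?_
  split_ifs with h
  · simp
  · exact geo n α β p

end Pool.Agent.KUB
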