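import Mathlib
import Pool.Agent.KUB.Dec
import Pool.Agent.KUB.Geo

set_option autoImplicit false

/-!
KUB module Din: the deterministic inequality.

Take `G, c` from `decomp` for `a` and `G', c'` for `b`.  Let
`S x = a + ∑_{i<n} G i x`, `S' y = b + ∑_{k<n} G' k y`.  Pointwise (`boxCount_eq`)
`I a x I b y - ab = (S x S' y - ab) + (I a x - S x) I b y + S x (I b y - S' y)`,
`|I b y| ≤ 1`, `|S x| ≤ 1`, `|I a x - S x| ≤ A x`, `|I b y - S' y| ≤ A' y`, `Maj n 12 A`,
`Maj n 12 A'`.  Sum over `q < N` at `x = qα`, `y = qβ`.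
* `∑_{q<N} A(qα) ≤ ∑_{q<2·2^{n+0}} A(qα)·1 ≤ 96 (1 + z0 (Rw n 0))` (`win` with `A' = 1`,
  `maj_one.mono`, `k = 0`, `s = 0`); likewise `∑_{q<N} A'(qβ) ≤ 96 (1 + z0 (Rw 0 n))`.
* `S S' - ab = a ∑_k G'_k + b ∑_i G_i + ∑_{i,k<n} G_i G'_k`; the sum over `q` of each summand is
  bounded by `cell_bound` (constants: `prof_const` at level `0`, `c i 0 = 0`), by
  `16·12·12 (1 + z0 Rm + z0 Rw)` at `(0,k)`, `(i,0)`, `(i,k)`.
Every cell `(i,k)` with `i,k ≤ n` is used at most `6` times in total; add up with `geo_z0`: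
`≤ 2304·6·((n+1)² + 32 z0 (..)) ≤ 10^6 (...)`.
-/

namespace Pool.Agent.KUB

open Pool.Agent.FIB (nn boxCount)
open scoped ENNReal

theorem nice_boxCount (α β : ℝ) (N : ℕ) (a b : ℝ) : (boxCount α β N a b : ℝ) =
    ∑ q ∈ Finset.range N, I a (q * α) * I b (q * β) := by
  rw [Pool.Agent.FIB.boxCount_eq]
  rfl

/-- the pointwise decomposition, summed -/
theorem split_sum {n N : ℕ} (a b : ℝ) (α β : ℝ) (G G' : ℕ → ℝ → ℝ) :
    ∑ q ∈ Finset.range N, I a (q * α) * I b (q * β) - N * (a * b) =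
      (∑ k ∈ Finset.range n, ∑ q ∈ Finset.range N, a * G' k (q * β)) +
      (∑ i ∈ Finset.range n, ∑ q ∈ Finset.range N, G i (q * α) * b) +
      (∑ i ∈ Finset.range n, ∑ k ∈ Finset.range n, ∑ q ∈ Finset.range N,
        G i (q * α) * G' k (q * β)) +
      (∑ q ∈ Finset.range N, (I a (q * α) - (a + ∑ i ∈ Finset.range n, G i (q * α))) *
        I b (q * β)) +
      (∑ q ∈ Finset.range N, (a + ∑ i ∈ Finset.range n, G i (q * α)) *
        (I b (q * β) - (b + ∑ k ∈ Finset.range n, G' k (q * β)))) := by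
  have e1 : ∑ k ∈ Finset.range n, ∑ q ∈ Finset.range N, a * G' k (q * β) =
      ∑ q ∈ Finset.range N, a * ∑ k ∈ Finset.range n, G' k (q * β) := by
    rw [Finset.sum_comm]
    exact Finset.sum_congr rfl fun q _ => (Finset.mul_sum _ _ _).symm
  have e2 : ∑ i ∈ Finset.range n, ∑ q ∈ Finset.range N, G i (q * α) * b =
      ∑ q ∈ Finset.range N, (∑ i ∈ Finset.range n, G i (q * α)) * b := by
    rw [Finset.sum_comm]
    exact Finset.sum_congr rfl fun q _ => (Finset.sum_mul _ _ _).symm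
  have e3 : ∑ i ∈ Finset.range n, ∑ k ∈ Finset.range n, ∑ q ∈ Finset.range N,
        G i (q * α) * G' k (q * β) = ∑ q ∈ Finset.range N,
        (∑ i ∈ Finset.range n, G i (q * α)) * ∑ k ∈ Finset.range n, G' k (q * β) := by
    have : ∀ i, ∑ k ∈ Finset.range n, ∑ q ∈ Finset.range N, G i (q * α) * G' k (q * β) =
        ∑ q ∈ Finset.range N, G i (q * α) * ∑ k ∈ Finset.range n, G' k (q * β) := by
      intro i
      rw [Finset.sum_comm]
      exact Finset.sum_congr rfl fun q _ => (Finset.mul_sum _ _ _).symm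
    simp only [this]
    rw [Finset.sum_comm]
    exact Finset.sum_congr rfl fun q _ => (Finset.sum_mul _ _ _).symm
  have e4 : (N : ℝ) * (a * b) = ∑ q ∈ Finset.range N, a * b := by
    rw [Finset.sum_const, Finset.card_range, nsmul_eq_mul]
  rw [e1, e2, e3, e4, ← Finset.sum_sub_distrib, ← Finset.sum_add_distrib, ← Finset.sum_add_distrib,
    ← Finset.sum_add_distrib, ← Finset.sum_add_distrib]
  exact Finset.sum_congr rfl fun q _ => by ring

theorem abs_I_le (a x : ℝ) : |I a x| ≤ 1 := by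
  unfold I
  split_ifs <;> simp

/-- window bound for one majorant, first variable -/
theorem resid_left {n N : ℕ} (hN : N ≤ 2 ^ n) {A : ℝ → ℝ} (hA : Maj n 12 A) (α β : ℝ) :
    ENNReal.ofReal (∑ q ∈ Finset.range N, A (q * α)) ≤
      ENNReal.ofReal 96 * (1 + z0 (Rw n 0 α β)) := by
  have h := win (by norm_num) (by norm_num) hA maj_one α β 0
  have e : (8 : ℝ) * 12 * 1 = 96 := by norm_num
  rw [e] at h
  refine le_trans ?_ h
  apply ENNReal.ofReal_le_ofReal
  have hsub : Finset.range N ⊆ Finset.range (2 * 2 ^ (n + 0)) := by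
    apply Finset.range_subset_range.mpr
    rw [Nat.add_zero]; omega
  refine (Finset.sum_le_sum_of_subset_of_nonneg hsub fun q _ _ => hA.nonneg _).trans
    (le_of_eq ?_)
  refine Finset.sum_congr rfl fun q _ => ?_
  push_cast
  rw [zero_add, mul_one]

theorem resid_right {n N : ℕ} (hN : N ≤ 2 ^ n) {A : ℝ → ℝ} (hA : Maj n 12 A) (α β : ℝ) :
    ENNReal.ofReal (∑ q ∈ Finset.range N, A (q * β)) ≤
      ENNReal.ofReal 96 * (1 + z0 (Rw 0 n α β)) := by
  have h := win (by norm_num) (by norm_num) maj_one hA α β 0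
  have e : (8 : ℝ) * 1 * 12 = 96 := by norm_num
  rw [e] at h
  refine le_trans ?_ h
  apply ENNReal.ofReal_le_ofReal
  have hsub : Finset.range N ⊆ Finset.range (2 * 2 ^ (0 + n)) := by
    apply Finset.range_subset_range.mpr
    rw [Nat.zero_add]; omega
  refine (Finset.sum_le_sum_of_subset_of_nonneg hsub fun q _ _ => hA.nonneg _).trans
    (le_of_eq ?_)
  refine Finset.sum_congr rfl fun q _ => ?_
  push_cast
  rw [zero_add, one_mul]

theorem din (α β : ℝ) {a b : ℝ} (ha0 : 0 ≤ a) (ha1 : a ≤ 1) (hb0 : 0 ≤ b) (hb1 : b ≤ 1)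
    {n N : ℕ} (hN : N ≤ 2 ^ n) :
    ENNReal.ofReal |(boxCount α β N a b : ℝ) - N * (a * b)| ≤
      10 ^ 6 * ((n + 1) ^ 2 +
        z0 (fun p => ENNReal.ofReal (cn n p.1 * cn n p.2) * Th (w α β p))) := by
  obtain ⟨G, cG, hG, hG2⟩ := decomp ha0 ha1
  obtain ⟨G', cG', hG', hG2'⟩ := decomp hb0 hb1
  obtain ⟨hS, A, hA, hA2⟩ := hG2 n
  obtain ⟨hS', A', hA', hA2'⟩ := hG2' n
  set Z : ℝ≥0∞ := z0 (fun p => ENNReal.ofReal (cn n p.1 * cn n p.2) * Th (w α β p)) with hZ
  set R : ℕ → ℕ → ℝ≥0∞ := fun i k => z0 (Rm i k α β) + z0 (Rw i k α β) with hR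
  have hgeo : ∑ i ∈ Finset.range (n + 1), ∑ k ∈ Finset.range (n + 1), R i k ≤ 32 * Z :=
    geo_z0 n α β
  have hRle : ∀ i k, i ≤ n → k ≤ n → R i k ≤ 32 * Z := by
    intro i k hi hk
    refine le_trans ?_ hgeo
    refine le_trans ?_ (Finset.single_le_sum (f := fun i => ∑ k ∈ Finset.range (n + 1), R i k)
      (fun _ _ => bot_le) (Finset.mem_range.mpr (Nat.lt_succ_of_le hi)))
    exact Finset.single_le_sum (f := fun k => R i k) (fun _ _ => bot_le)
      (Finset.mem_range.mpr (Nat.lt_succ_of_le hk))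
  have hrow : ∑ k ∈ Finset.range n, R 0 k ≤ 32 * Z := by
    refine le_trans ?_ hgeo
    refine le_trans ?_ (Finset.single_le_sum (f := fun i => ∑ k ∈ Finset.range (n + 1), R i k)
      (fun _ _ => bot_le) (Finset.mem_range.mpr (Nat.succ_pos n)))
    exact Finset.sum_le_sum_of_subset (Finset.range_subset_range.mpr (Nat.le_succ n))
  have hcol : ∑ i ∈ Finset.range n, R i 0 ≤ 32 * Z := by
    refine le_trans ?_ hgeo
    refine le_trans (Finset.sum_le_sum_of_subset
      (Finset.range_subset_range.mpr (Nat.le_succ n))) ?_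
    exact Finset.sum_le_sum fun i _ => Finset.single_le_sum (f := fun k => R i k)
      (fun _ _ => bot_le) (Finset.mem_range.mpr (Nat.succ_pos n))
  have hall : ∑ i ∈ Finset.range n, ∑ k ∈ Finset.range n, R i k ≤ 32 * Z := by
    refine le_trans ?_ hgeo
    refine le_trans (Finset.sum_le_sum_of_subset
      (Finset.range_subset_range.mpr (Nat.le_succ n))) ?_
    exact Finset.sum_le_sum fun i _ => Finset.sum_le_sum_of_subset
      (Finset.range_subset_range.mpr (Nat.le_succ n))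
  set K : ℝ≥0∞ := ENNReal.ofReal 2304 with hK
  -- the five parts
  have p1 : ENNReal.ofReal |∑ k ∈ Finset.range n, ∑ q ∈ Finset.range N, a * G' k (q * β)| ≤
      K * (n + 32 * Z) := by
    refine (ENNReal.ofReal_le_ofReal (Finset.abs_sum_le_sum_abs _ _)).trans ?_
    rw [ENNReal.ofReal_sum_of_nonneg fun _ _ => abs_nonneg _]
    refine (Finset.sum_le_sum (g := fun k => K * (1 + R 0 k)) fun k _ => ?_).trans ?_
    · have h := cell_bound (by norm_num) (by norm_num) ((prof_const ha0 ha1).mono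
        (by norm_num : (1 : ℝ) ≤ 12)) (hG' k).1 (by rw [(hG' k).2, mul_zero]) α β N
      have e : (16 : ℝ) * 12 * 12 = 2304 := by norm_num
      rw [e] at h
      refine h.trans (le_of_eq ?_)
      rw [hK, hR]; ring
    · rw [← Finset.mul_sum, Finset.sum_add_distrib, Finset.sum_const, Finset.card_range,
        nsmul_eq_mul, mul_one]
      gcongr
  have p2 : ENNReal.ofReal |∑ i ∈ Finset.range n, ∑ q ∈ Finset.range N, G i (q * α) * b| ≤
      K * (n + 32 * Z) := by
    refine (ENNReal.ofReal_le_ofReal (Finset.abs_sum_le_sum_abs _ _)).trans ?_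
    rw [ENNReal.ofReal_sum_of_nonneg fun _ _ => abs_nonneg _]
    refine (Finset.sum_le_sum (g := fun i => K * (1 + R i 0)) fun i _ => ?_).trans ?_
    · have h := cell_bound (by norm_num) (by norm_num) (hG i).1 ((prof_const hb0 hb1).mono
        (by norm_num : (1 : ℝ) ≤ 12)) (by rw [(hG i).2, zero_mul]) α β N
      have e : (16 : ℝ) * 12 * 12 = 2304 := by norm_num
      rw [e] at h
      refine h.trans (le_of_eq ?_)
      rw [hK, hR]; ring
    · rw [← Finset.mul_sum, Finset.sum_add_distrib, Finset.sum_const, Finset.card_range,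
        nsmul_eq_mul, mul_one]
      gcongr
  have p3 : ENNReal.ofReal |∑ i ∈ Finset.range n, ∑ k ∈ Finset.range n,
      ∑ q ∈ Finset.range N, G i (q * α) * G' k (q * β)| ≤ K * (n * n + 32 * Z) := by
    refine (ENNReal.ofReal_le_ofReal (Finset.abs_sum_le_sum_abs _ _)).trans ?_
    rw [ENNReal.ofReal_sum_of_nonneg fun _ _ => abs_nonneg _]
    refine (Finset.sum_le_sum (g := fun i => ∑ k ∈ Finset.range n, K * (1 + R i k))
      fun i _ => ?_).trans ?_
    · refine (ENNReal.ofReal_le_ofReal (Finset.abs_sum_le_sum_abs _ _)).trans ?_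
      rw [ENNReal.ofReal_sum_of_nonneg fun _ _ => abs_nonneg _]
      refine Finset.sum_le_sum fun k _ => ?_
      have h := cell_bound (by norm_num) (by norm_num) (hG i).1 (hG' k).1
        (by rw [(hG i).2, zero_mul]) α β N
      have e : (16 : ℝ) * 12 * 12 = 2304 := by norm_num
      rw [e] at h
      refine h.trans (le_of_eq ?_)
      rw [hK, hR]; ring
    · have e : ∑ i ∈ Finset.range n, ∑ k ∈ Finset.range n, K * (1 + R i k) =
          K * (n * n + ∑ i ∈ Finset.range n, ∑ k ∈ Finset.range n, R i k) := by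
        simp only [← Finset.mul_sum, Finset.sum_add_distrib, Finset.sum_const, Finset.card_range,
          nsmul_eq_mul, mul_one]
      rw [e]
      gcongr
  have p4 : ENNReal.ofReal |∑ q ∈ Finset.range N,
      (I a (q * α) - (a + ∑ i ∈ Finset.range n, G i (q * α))) * I b (q * β)| ≤
      K * (1 + 32 * Z) := by
    have h1 : |∑ q ∈ Finset.range N,
        (I a (q * α) - (a + ∑ i ∈ Finset.range n, G i (q * α))) * I b (q * β)| ≤
        ∑ q ∈ Finset.range N, A (q * α) := by
      refine (Finset.abs_sum_le_sum_abs _ _).trans (Finset.sum_le_sum fun q _ => ?_)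
      rw [abs_mul]
      calc _ ≤ A (q * α) * 1 := mul_le_mul (hA2 _) (abs_I_le _ _) (abs_nonneg _) (hA.nonneg _)
        _ = _ := mul_one _
    refine (ENNReal.ofReal_le_ofReal h1).trans ((resid_left hN hA α β).trans ?_)
    have h2 : z0 (Rw n 0 α β) ≤ 32 * Z :=
      le_trans (le_add_self : z0 (Rw n 0 α β) ≤ R n 0) (hRle n 0 le_rfl (Nat.zero_le _))
    have h3 : ENNReal.ofReal 96 ≤ K := ENNReal.ofReal_le_ofReal (by norm_num)
    gcongr
  have p5 : ENNReal.ofReal |∑ q ∈ Finset.range N,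
      (a + ∑ i ∈ Finset.range n, G i (q * α)) *
        (I b (q * β) - (b + ∑ k ∈ Finset.range n, G' k (q * β)))| ≤
      K * (1 + 32 * Z) := by
    have h1 : |∑ q ∈ Finset.range N, (a + ∑ i ∈ Finset.range n, G i (q * α)) *
        (I b (q * β) - (b + ∑ k ∈ Finset.range n, G' k (q * β)))| ≤
        ∑ q ∈ Finset.range N, A' (q * β) := by
      refine (Finset.abs_sum_le_sum_abs _ _).trans (Finset.sum_le_sum fun q _ => ?_)
      rw [abs_mul]
      calc _ ≤ 1 * A' (q * β) := mul_le_mul (hS _) (hA2' _) (abs_nonneg _) zero_le_one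
        _ = _ := one_mul _
    refine (ENNReal.ofReal_le_ofReal h1).trans ((resid_right hN hA' α β).trans ?_)
    have h2 : z0 (Rw 0 n α β) ≤ 32 * Z :=
      le_trans (le_add_self : z0 (Rw 0 n α β) ≤ R 0 n) (hRle 0 n (Nat.zero_le _) le_rfl)
    have h3 : ENNReal.ofReal 96 ≤ K := ENNReal.ofReal_le_ofReal (by norm_num)
    gcongr
  rw [nice_boxCount, split_sum (n := n) a b α β G G']
  have habs : ∀ x1 x2 x3 x4 x5 : ℝ, ENNReal.ofReal |x1 + x2 + x3 + x4 + x5| ≤
      ENNReal.ofReal |x1| + ENNReal.ofReal |x2| + ENNReal.ofReal |x3| + ENNReal.ofReal |x4| +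
        ENNReal.ofReal |x5| := by
    intro x1 x2 x3 x4 x5
    rw [← ENNReal.ofReal_add (by positivity) (by positivity),
      ← ENNReal.ofReal_add (by positivity) (by positivity),
      ← ENNReal.ofReal_add (by positivity) (by positivity),
      ← ENNReal.ofReal_add (by positivity) (by positivity)]
    apply ENNReal.ofReal_le_ofReal
    have t1 := abs_add_le (x1 + x2 + x3 + x4) x5
    have t2 := abs_add_le (x1 + x2 + x3) x4
    have t3 := abs_add_le (x1 + x2) x3
    have t4 := abs_add_le x1 x2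
    linarith
  refine (habs _ _ _ _ _).trans ?_
  refine (add_le_add (add_le_add (add_le_add (add_le_add p1 p2) p3) p4) p5).trans ?_
  have eK : K = 2304 := by rw [hK]; norm_num
  rw [eK]
  calc (2304 : ℝ≥0∞) * (n + 32 * Z) + 2304 * (n + 32 * Z) + 2304 * (n * n + 32 * Z) +
        2304 * (1 + 32 * Z) + 2304 * (1 + 32 * Z)
      = 2304 * ((n * n + 2 * n + 2) + 160 * Z) := by ring
    _ ≤ 2304 * (160 * (n + 1) ^ 2 + 160 * Z) := by
        gcongr
        calc ((n : ℝ≥0∞) * n + 2 * n + 2) ≤ n * n + 2 * n + 2 + (159 * (n * n) + 318 * n + 158) :=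
              le_self_add
          _ = 160 * (n + 1) ^ 2 := by ring
    _ = 368640 * ((n + 1) ^ 2 + Z) := by ring
    _ ≤ 10 ^ 6 * ((n + 1) ^ 2 + Z) := by
        gcongr
        norm_num

end Pool.Agent.KUB
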