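import Mathlib
import Pool.Agent.KUB.Alpha0

set_option autoImplicit false

/-!
KUB module Fin: from `Good` to the full weighted sum.

Split `z0` into `m = 0` and `m ≠ 0`.
* `m = 0`: `p = (h,0)`, `h ≠ 0`, `cn n 0 = 1`, `w α β (h,0) = r h nn(hα)`; `alpha0` gives
  `≤ (256/c²)(n+1) ≤ (512/c²) n² L n`.
* `m ≠ 0`: with `t = lg h + lg m` and `u = t - 2n` (natural subtraction) the pair is in
  `P 0 (2n+u+1)` and `cn n h · cn n m ≤ 2^{-u}`.  So the sum is at most
  `∑'_u 2^{-u} ST 0 (2n+u+1) ≤ Q ∑'_u 2^{-u} (2n+u+2)² L(2n+u+1)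
   ≤ 4 Q C₀ n² L n ∑'_u 2^{-u} (u+2)^{p+2}`.
-/

namespace Pool.Agent.KUB

open Pool.Agent.FIB (nn)
open scoped ENNReal

theorem cn_nonneg (n : ℕ) (h : ℤ) : 0 ≤ cn n h := by
  unfold cn
  have := r_pos h
  positivity

theorem cn_le_one (n : ℕ) (h : ℤ) : cn n h ≤ 1 := min_le_left _ _

theorem cn_le_div (n : ℕ) (h : ℤ) : cn n h ≤ 2 ^ n / 2 ^ lg h := by
  unfold cn
  refine (min_le_right _ _).trans ?_
  gcongr
  exact two_pow_lg_le h

theorem cn_zero (n : ℕ) : cn n 0 = 1 := by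
  unfold cn
  rw [r_zero, div_one]
  exact min_eq_left (one_le_pow₀ (by norm_num))

theorem cn_mul_le (n : ℕ) (h m : ℤ) :
    cn n h * cn n m ≤ ((2 : ℝ) ^ (lg h + lg m - 2 * n))⁻¹ := by
  rcases le_total (lg h + lg m) (2 * n) with h1 | h1
  · rw [Nat.sub_eq_zero_of_le h1, pow_zero, inv_one]
    exact mul_le_one₀ (cn_le_one n h) (cn_nonneg n m) (cn_le_one n m)
  · calc cn n h * cn n m ≤ (2 ^ n / 2 ^ lg h) * (2 ^ n / 2 ^ lg m) :=
        mul_le_mul (cn_le_div n h) (cn_le_div n m) (cn_nonneg n m) (by positivity)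
      _ = ((2 : ℝ) ^ (lg h + lg m - 2 * n))⁻¹ := by
        have h2 : (2 : ℝ) ^ (lg h + lg m) = 2 ^ (lg h + lg m - 2 * n) * 2 ^ (2 * n) := by
          rw [← pow_add, Nat.sub_add_cancel h1]
        have h3 : (2 : ℝ) ^ (2 * n) = 2 ^ n * 2 ^ n := by
          rw [two_mul, pow_add]
        have h4 : (2 : ℝ) ^ lg h * 2 ^ lg m = 2 ^ (lg h + lg m - 2 * n) * (2 ^ n * 2 ^ n) := by
          rw [← pow_add, h2, h3]
        rw [div_mul_div_comm, h4]
        field_simp

theorem summable_pow_half (p : ℕ) : Summable (fun u : ℕ => ((u : ℝ) + 2) ^ p * (1 / 2) ^ u) := by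
  have h1 : Summable (fun u : ℕ => (u : ℝ) ^ p * (1 / 2 : ℝ) ^ u) :=
    summable_pow_mul_geometric_of_norm_lt_one p (by norm_num)
  have h2 := ((summable_nat_add_iff 2).mpr h1).mul_left 4
  refine h2.congr fun u => ?_
  push_cast
  rw [pow_add (1 / 2 : ℝ) u 2]
  ring

theorem fin_sum {α c β : ℝ} (hα : BA α c) {L : ℕ → ℝ} (hβ : β ∈ Good α L)
    (hL1 : ∀ t, 1 ≤ L t) {C₀ : ℝ} {p : ℕ} (hC₀ : 0 < C₀)
    (hL : ∀ n u : ℕ, L (2 * n + u + 1) ≤ C₀ * (u + 1) ^ p * L n) :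
    ∃ C : ℝ, 0 < C ∧ ∀ n : ℕ, 1 ≤ n →
      z0 (fun q => ENNReal.ofReal (cn n q.1 * cn n q.2) * Th (w α β q)) ≤
        ENNReal.ofReal (C * n ^ 2 * L n) := by
  classical
  have hc := hα.1
  obtain ⟨Q, hQ, hST⟩ := hβ
  set S : ℝ := ∑' u : ℕ, ((u : ℝ) + 2) ^ (p + 2) * (1 / 2) ^ u with hS
  have hS0 : 0 ≤ S := tsum_nonneg fun u => by positivity
  refine ⟨512 / c ^ 2 + 4 * Q * C₀ * S, by positivity, fun n hn => ?_⟩
  have hn1 : (1 : ℝ) ≤ n := by exact_mod_cast hn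
  have hLn := hL1 n
  set f : ℤ × ℤ → ℝ≥0∞ := fun q => ENNReal.ofReal (cn n q.1 * cn n q.2) * Th (w α β q) with hf
  have hsplit : z0 f = (∑' q : ℤ × ℤ, if q.1 ≠ 0 ∧ q.2 = 0 then f q else 0) +
      ∑' q : ℤ × ℤ, if q.2 ≠ 0 then f q else 0 := by
    unfold z0
    rw [← ENNReal.tsum_add]
    refine tsum_congr fun q => ?_
    rcases q with ⟨h, m⟩
    by_cases hh : h = 0 <;> by_cases hm : m = 0 <;> simp [hh, hm, Prod.ext_iff]
  have hpart1 : (∑' q : ℤ × ℤ, if q.1 ≠ 0 ∧ q.2 = 0 then f q else 0) ≤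
      ENNReal.ofReal (512 / c ^ 2 * n ^ 2 * L n) := by
    rw [ENNReal.tsum_prod']
    have h1 : ∀ h : ℤ, (∑' m : ℤ, if (h, m).1 ≠ 0 ∧ (h, m).2 = 0 then f (h, m) else 0) =
        if h = 0 then 0 else ENNReal.ofReal (cn n h) * Th (r h * nn (h * α)) := by
      intro h
      rw [tsum_eq_single (0 : ℤ) (fun m hm => by simp [hm])]
      by_cases hh : h = 0
      · simp [hh]
      · simp only [ne_eq, hh, not_false_eq_true, and_self, if_true, if_false]
        rw [hf]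
        simp only [cn_zero, mul_one]
        congr 2
        unfold w lf
        rw [r_zero]
        simp
    rw [tsum_congr h1]
    refine (alpha0 hα n).trans (ENNReal.ofReal_le_ofReal ?_)
    have h2 : ((n : ℝ) + 1) ≤ 2 * (n ^ 2 * L n) := by
      have h3 : (n : ℝ) ≤ n ^ 2 := by nlinarith
      have h4 : (n : ℝ) ^ 2 * 1 ≤ n ^ 2 * L n := by gcongr
      nlinarith
    calc 256 / c ^ 2 * ((n : ℝ) + 1) ≤ 256 / c ^ 2 * (2 * (n ^ 2 * L n)) := by gcongr
      _ = 512 / c ^ 2 * n ^ 2 * L n := by ring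
  have hpart2 : (∑' q : ℤ × ℤ, if q.2 ≠ 0 then f q else 0) ≤
      ENNReal.ofReal (4 * Q * C₀ * S * n ^ 2 * L n) := by
    have h1 : ∀ q : ℤ × ℤ, (if q.2 ≠ 0 then f q else 0) ≤
        ∑' u : ℕ, ENNReal.ofReal ((1 / 2) ^ u) *
          (if q ∈ P 0 (2 * n + u + 1) then Th (w α β q) else 0) := by
      intro q
      by_cases hq : q.2 ≠ 0
      · rw [if_pos hq]
        set u : ℕ := lg q.1 + lg q.2 - 2 * n with hu
        have hmem : q ∈ P 0 (2 * n + u + 1) := by
          rw [mem_P]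
          refine ⟨hq, Nat.zero_le _, by omega⟩
        have h2 := ENNReal.le_tsum (f := fun u : ℕ => ENNReal.ofReal ((1 / 2) ^ u) *
          (if q ∈ P 0 (2 * n + u + 1) then Th (w α β q) else 0)) u
        refine le_trans ?_ h2
        simp only [if_pos hmem]
        rw [hf]
        simp only
        gcongr
        refine (cn_mul_le n q.1 q.2).trans (le_of_eq ?_)
        rw [one_div, inv_pow, hu]
      · rw [if_neg hq]
        exact bot_le
    refine (ENNReal.tsum_le_tsum h1).trans ?_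
    rw [ENNReal.tsum_comm]
    have h2 : ∀ u : ℕ, (∑' q : ℤ × ℤ, ENNReal.ofReal ((1 / 2) ^ u) *
        (if q ∈ P 0 (2 * n + u + 1) then Th (w α β q) else 0)) ≤
        ENNReal.ofReal (4 * Q * C₀ * n ^ 2 * L n * (((u : ℝ) + 2) ^ (p + 2) * (1 / 2) ^ u)) := by
      intro u
      rw [ENNReal.tsum_mul_left]
      have h3 : (∑' q : ℤ × ℤ, if q ∈ P 0 (2 * n + u + 1) then Th (w α β q) else 0) =
          ST 0 (2 * n + u + 1) α β := by
        rw [tsum_eq_sum (s := P 0 (2 * n + u + 1)) (fun q hq => if_neg hq)]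
        unfold ST
        exact Finset.sum_congr rfl fun q hq => if_pos hq
      rw [h3]
      have h4 := hST (2 * n + u + 1)
      have h5 : Q * (((2 * n + u + 1 : ℕ) : ℝ) + 1) ^ 2 * L (2 * n + u + 1) ≤
          Q * (2 * n * (u + 2)) ^ 2 * (C₀ * (u + 2) ^ p * L n) := by
        have h6 : (((2 * n + u + 1 : ℕ) : ℝ) + 1) ≤ 2 * n * (u + 2) := by
          push_cast
          have h7 : (0 : ℝ) ≤ u := Nat.cast_nonneg u
          nlinarith
        have h8 : L (2 * n + u + 1) ≤ C₀ * (u + 2) ^ p * L n := by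
          refine (hL n u).trans ?_
          gcongr
          norm_num
        have h9 : 0 ≤ L (2 * n + u + 1) := le_trans zero_le_one (hL1 _)
        have h10 : (0 : ℝ) ≤ (((2 * n + u + 1 : ℕ) : ℝ) + 1) := by positivity
        refine mul_le_mul ?_ h8 h9 (by positivity)
        gcongr
      refine (mul_le_mul_of_nonneg_left (h4.trans (ENNReal.ofReal_le_ofReal h5))
        bot_le).trans ?_
      rw [← ENNReal.ofReal_mul (by positivity)]
      refine ENNReal.ofReal_le_ofReal (le_of_eq ?_)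
      rw [pow_add ((u : ℝ) + 2) p 2]
      ring
    refine (ENNReal.tsum_le_tsum h2).trans ?_
    rw [← ENNReal.ofReal_tsum_of_nonneg (fun u => by positivity)
      ((summable_pow_half (p + 2)).mul_left _), tsum_mul_left]
    refine ENNReal.ofReal_le_ofReal (le_of_eq ?_)
    rw [← hS]
    ring
  rw [hsplit]
  refine (add_le_add hpart1 hpart2).trans ?_
  rw [← ENNReal.ofReal_add (by positivity) (by positivity)]
  refine ENNReal.ofReal_le_ofReal (le_of_eq ?_)
  ring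

end Pool.Agent.KUB
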