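import Mathlib
import Pool.Agent.KUB.Din
import Pool.Agent.KUB.Fin

set_option autoImplicit false

/-!
KUB module Fnl: the discrepancy bound for good `β`.
-/

namespace Pool.Agent.KUB

open Pool.Agent.FIB (nn boxCount)
open scoped ENNReal

theorem disc_le {α c β : ℝ} (hα : BA α c) {L : ℕ → ℝ} (hβ : β ∈ Good α L)
    (hL1 : ∀ t, 1 ≤ L t) {C₀ : ℝ} {p : ℕ} (hC₀ : 0 < C₀)
    (hL : ∀ n u : ℕ, L (2 * n + u + 1) ≤ C₀ * (u + 1) ^ p * L n) :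
    ∃ C : ℝ, 0 < C ∧ ∀ N : ℕ, 2 ≤ N → ∀ a b : ℝ, 0 ≤ a → a ≤ 1 → 0 ≤ b → b ≤ 1 →
      |(boxCount α β N a b : ℝ) - N * (a * b)| ≤
        C * (Nat.clog 2 N : ℝ) ^ 2 * L (Nat.clog 2 N) := by
  obtain ⟨C, hC, hf⟩ := fin_sum hα hβ hL1 hC₀ hL
  refine ⟨10 ^ 6 * (4 + C), by positivity, fun N hN a b ha0 ha1 hb0 hb1 => ?_⟩
  have hn1 : 1 ≤ Nat.clog 2 N := Nat.clog_pos (by norm_num) (by omega)
  have hNn : N ≤ 2 ^ Nat.clog 2 N := Nat.le_pow_clog (by norm_num) N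
  generalize hn : Nat.clog 2 N = n at hn1 hNn ⊢
  have h1 := din α β ha0 ha1 hb0 hb1 hNn
  have h2 := hf n hn1
  have hL1n := hL1 n
  have hnr : (1 : ℝ) ≤ (n : ℝ) := by exact_mod_cast hn1
  have h3 : ((n : ℝ≥0∞) + 1) ^ 2 ≤ ENNReal.ofReal (4 * (n : ℝ) ^ 2 * L n) := by
    have e1 : ((n : ℝ≥0∞) + 1) ^ 2 = ENNReal.ofReal (((n : ℝ) + 1) ^ 2) := by
      rw [ENNReal.ofReal_pow (by positivity), ENNReal.ofReal_add (by positivity) (by norm_num),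
        ENNReal.ofReal_natCast, ENNReal.ofReal_one]
    rw [e1]
    apply ENNReal.ofReal_le_ofReal
    have h4 : ((n : ℝ) + 1) ^ 2 ≤ 4 * (n : ℝ) ^ 2 := by nlinarith
    have h5 : 4 * (n : ℝ) ^ 2 ≤ 4 * (n : ℝ) ^ 2 * L n := by
      have : 0 ≤ 4 * (n : ℝ) ^ 2 := by positivity
      nlinarith
    linarith
  have h6 : ENNReal.ofReal |(boxCount α β N a b : ℝ) - N * (a * b)| ≤
      ENNReal.ofReal (10 ^ 6 * (4 + C) * (n : ℝ) ^ 2 * L n) := by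
    refine h1.trans ?_
    refine (mul_le_mul_right (add_le_add h3 h2) _).trans ?_
    rw [← ENNReal.ofReal_add (by positivity) (by positivity)]
    have e2 : (10 ^ 6 : ℝ≥0∞) = ENNReal.ofReal (10 ^ 6) := by
      rw [ENNReal.ofReal_pow (by norm_num)]; norm_num
    rw [e2, ← ENNReal.ofReal_mul (by norm_num)]
    apply ENNReal.ofReal_le_ofReal
    apply le_of_eq
    ring
  exact (ENNReal.ofReal_le_ofReal_iff (by positivity)).mp h6

end Pool.Agent.KUB
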