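import Mathlib
import Pool.Agent.KUB.Defs

set_option autoImplicit false

/-!
KUB module Gsel: Markov's inequality over the `2^ν` subintervals
`J_t = Jn (x + t 2^{-(μ+ν)}) (μ+ν)`, `t < 2^ν`, of `J = Jn x μ`.

They have pairwise null intersections and union `J`, so `∑_t ∫_{J_t} f = ∫_J f` (only `≤` is needed:
the half-open versions `[x + t l', x + (t+1) l')` are disjoint subsets of `J`, and
`Icc` and `Ico` differ by a null set, `lintegral` over `restrict_congr_set Ico_ae_eq_Icc`).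
Let `bad` be the set of `t` with `∫_{J_t} f > 8 B l'`, `l' = 2^{-(μ+ν)}`, `l = 2^ν l'`.  If `B = 0`,
all integrals vanish and `bad` is empty; if `B = ∞` it is empty as well.  Otherwise
`#bad · 8 B l' ≤ ∫_J f ≤ B l = B 2^ν l'`, so `8 #bad ≤ 2^ν`.
-/

namespace Pool.Agent.KUB

open MeasureTheory
open scoped ENNReal

private theorem gsel_sum {f : ℝ → ℝ≥0∞} {x : ℝ} {μ : ℕ} (ν : ℕ) (S : Finset ℕ)
    (hS : ∀ t ∈ S, t < 2 ^ ν) :
    ∑ t ∈ S, ∫⁻ β in Jn (x + t * (2 ^ (μ + ν))⁻¹) (μ + ν), f β ≤ ∫⁻ β in Jn x μ, f β := by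
  set l : ℝ := (2 ^ (μ + ν))⁻¹ with hl
  have hl0 : 0 < l := by rw [hl]; positivity
  have h1 : ∀ t : ℕ, ∫⁻ β in Jn (x + t * l) (μ + ν), f β =
      ∫⁻ β in Set.Ico (x + t * l) (x + t * l + l), f β := by
    intro t
    unfold Jn
    exact (setLIntegral_congr Ico_ae_eq_Icc).symm
  simp_rw [h1]
  rw [← lintegral_biUnion_finset]
  · refine lintegral_mono_set ?_
    refine Set.iUnion₂_subset fun t ht => ?_
    refine subset_trans ?_ (sub_Jn x μ ν t (hS t ht))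
    unfold Jn
    exact Set.Ico_subset_Icc_self
  · intro s _ t _ hst
    show Disjoint (Set.Ico (x + s * l) (x + s * l + l)) (Set.Ico (x + t * l) (x + t * l + l))
    rw [Set.disjoint_left]
    intro y hy1 hy2
    rw [Set.mem_Ico] at hy1 hy2
    rcases lt_or_gt_of_ne hst with h | h
    · have h2 : ((s : ℝ) + 1) ≤ t := by exact_mod_cast h
      nlinarith [hy1.2, hy2.1, mul_le_mul_of_nonneg_right h2 hl0.le]
    · have h2 : ((t : ℝ) + 1) ≤ s := by exact_mod_cast h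
      nlinarith [hy2.2, hy1.1, mul_le_mul_of_nonneg_right h2 hl0.le]
  · intro t _
    exact measurableSet_Ico

theorem gsel {f : ℝ → ℝ≥0∞} (hf : Measurable f) {x : ℝ} {μ : ℕ} (ν : ℕ) {B : ℝ≥0∞}
    (h : ∫⁻ β in Jn x μ, f β ≤ B * ENNReal.ofReal ((2 ^ μ)⁻¹)) :
    8 * (open Classical in (Finset.range (2 ^ ν)).filter (fun t : ℕ =>
      8 * B * ENNReal.ofReal ((2 ^ (μ + ν))⁻¹) <
        ∫⁻ β in Jn (x + t * (2 ^ (μ + ν))⁻¹) (μ + ν), f β)).card ≤ 2 ^ ν := by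
  classical
  set S : Finset ℕ := (Finset.range (2 ^ ν)).filter (fun t : ℕ =>
      8 * B * ENNReal.ofReal ((2 ^ (μ + ν))⁻¹) <
        ∫⁻ β in Jn (x + t * (2 ^ (μ + ν))⁻¹) (μ + ν), f β) with hSdef
  have hmem : ∀ t ∈ S, t < 2 ^ ν := fun t ht => by
    rw [hSdef, Finset.mem_filter, Finset.mem_range] at ht
    exact ht.1
  have hbad : ∀ t ∈ S, 8 * B * ENNReal.ofReal ((2 ^ (μ + ν))⁻¹) <
        ∫⁻ β in Jn (x + t * (2 ^ (μ + ν))⁻¹) (μ + ν), f β := fun t ht => by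
    rw [hSdef, Finset.mem_filter] at ht
    exact ht.2
  have hsum := (gsel_sum (f := f) (x := x) (μ := μ) ν S hmem).trans h
  set L' : ℝ≥0∞ := ENNReal.ofReal ((2 ^ (μ + ν))⁻¹) with hL'
  have hL'0 : L' ≠ 0 := by
    rw [hL']
    have : (0 : ℝ) < (2 ^ (μ + ν))⁻¹ := by positivity
    rw [Ne, ENNReal.ofReal_eq_zero, not_le]
    exact this
  have hL'top : L' ≠ ∞ := ENNReal.ofReal_ne_top
  have hL : ENNReal.ofReal ((2 ^ μ)⁻¹) = 2 ^ ν * L' := by
    rw [hL', ← ENNReal.ofReal_ofNat 2, ← ENNReal.ofReal_pow (by norm_num),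
      ← ENNReal.ofReal_mul (by positivity)]
    congr 1
    rw [pow_add]
    field_simp
  rw [hL] at hsum
  show 8 * S.card ≤ 2 ^ ν
  rcases S.eq_empty_or_nonempty with he | ⟨t0, ht0⟩
  · rw [he]
    simp
  have hlt := hbad t0 ht0
  have hBtop : B ≠ ∞ := by
    rintro rfl
    rw [ENNReal.mul_top (by norm_num), ENNReal.top_mul hL'0] at hlt
    exact not_top_lt hlt
  have hB0 : B ≠ 0 := by
    rintro rfl
    have h1 := (Finset.single_le_sum (f := fun t : ℕ =>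
      ∫⁻ β in Jn (x + t * (2 ^ (μ + ν))⁻¹) (μ + ν), f β) (fun _ _ => bot_le) ht0).trans hsum
    rw [zero_mul] at h1
    have h2 := lt_of_le_of_lt bot_le hlt
    exact absurd h1 (not_le.mpr h2)
  have hmain : (S.card : ℝ≥0∞) * (8 * B * L') ≤ B * (2 ^ ν * L') := by
    refine le_trans ?_ hsum
    rw [← nsmul_eq_mul, ← Finset.sum_const]
    exact Finset.sum_le_sum fun t ht => (hbad t ht).le
  have hBL0 : B * L' ≠ 0 := mul_ne_zero hB0 hL'0
  have hBLtop : B * L' ≠ ∞ := ENNReal.mul_ne_top hBtop hL'top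
  have h3 : (8 * (S.card : ℝ≥0∞)) * (B * L') ≤ 2 ^ ν * (B * L') := by
    calc (8 * (S.card : ℝ≥0∞)) * (B * L') = (S.card : ℝ≥0∞) * (8 * B * L') := by ring
      _ ≤ B * (2 ^ ν * L') := hmain
      _ = 2 ^ ν * (B * L') := by ring
  have h4 := (ENNReal.mul_le_mul_iff_left hBL0 hBLtop).mp h3
  exact_mod_cast h4

end Pool.Agent.KUB
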