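import Mathlib

set_option autoImplicit false

/-!
KUB module Hdim: a set that is never covered by cheap covers has Hausdorff dimension one.

`≤`: `dimH_mono (subset_univ _)` and `Real.dimH_univ`.
`≥`: suppose `dimH E < 1`.  Take a real `s` with `dimH E < s`, `0 < s < 1` (as `ℝ≥0`).  Then
`μH[s] E = 0` (`hausdorffMeasure_of_dimH_lt`).  By `MeasureTheory.Measure.hausdorffMeasure_apply`
(supremum over `r > 0`, take `r = 1`) the infimum over covers is `0`, so there are sets `t_n` with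
`E ⊆ ⋃ t_n`, `diam t_n ≤ 1` and `∑' ⨆ (_ : (t n).Nonempty), diam (t_n)^s < 1/400`.  Choose
`x_n ∈ t_n` (or `0`), `η_n > 0` with `∑ η_n^s ≤ 1/400` (e.g. `η_n^s = (1/400) 2^{-n-1}`), and
`d_n = (diam t_n).toReal + η_n > 0` (with `diam` replaced by `0` if `t_n` is empty).  Then
`t_n ⊆ [x_n - d_n, x_n + d_n]` and `d_n^s ≤ diam^s + η_n^s` (`ENNReal.rpow_add_le_add_rpow`,
`s ≤ 1`), so `∑ d_n^s ≤ 1/200 ≤ 1/80`.  The point `β ∈ E` given by `h` lies in some `t_n`: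
contradiction.
-/

namespace Pool.Agent.KUB

open scoped ENNReal NNReal MeasureTheory
open Metric

theorem dimH_eq_one {E : Set ℝ}
    (h : ∀ s : ℝ, 0 < s → s < 1 → ∀ xs ds : ℕ → ℝ, (∀ l, 0 < ds l) →
      ∑' l : ℕ, ENNReal.ofReal (ds l) ^ s ≤ ENNReal.ofReal (1 / 80) →
      ∃ β ∈ E, ∀ l, β ∉ Set.Icc (xs l - ds l) (xs l + ds l)) :
    dimH E = 1 := by
  apply le_antisymm
  · calc dimH E ≤ dimH (Set.univ : Set ℝ) := dimH_mono (Set.subset_univ _)
      _ = 1 := Real.dimH_univ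
  · by_contra hlt
    have hlt' : dimH E < 1 := not_le.mp hlt
    obtain ⟨s, hs1, hs2⟩ := ENNReal.lt_iff_exists_nnreal_btwn.mp hlt'
    have hs0 : (0 : ℝ) < (s : ℝ) := by
      have h1 : (0 : ℝ≥0∞) < (s : ℝ≥0∞) := lt_of_le_of_lt (zero_le) hs1
      exact_mod_cast ENNReal.coe_pos.mp h1
    have hs2' : (s : ℝ) < 1 := by
      have h1 : s < 1 := by exact_mod_cast hs2
      exact_mod_cast h1
    have hμ := hausdorffMeasure_of_dimH_lt hs1
    rw [MeasureTheory.Measure.hausdorffMeasure_apply] at hμ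
    have h400 : (0 : ℝ≥0∞) < ENNReal.ofReal (1 / 400) := ENNReal.ofReal_pos.mpr (by norm_num)
    have hinf : (⨅ (t : ℕ → Set ℝ) (_ : E ⊆ ⋃ n, t n) (_ : ∀ n, ediam (t n) ≤ 1),
        ∑' n, ⨆ _ : (t n).Nonempty, ediam (t n) ^ (s : ℝ)) < ENNReal.ofReal (1 / 400) := by
      refine lt_of_le_of_lt ?_ h400
      rw [← hμ]
      exact le_iSup₂_of_le (f := fun (r : ℝ≥0∞) (_ : 0 < r) =>
        ⨅ (t : ℕ → Set ℝ) (_ : E ⊆ ⋃ n, t n) (_ : ∀ n, ediam (t n) ≤ r),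
          ∑' n, ⨆ _ : (t n).Nonempty, ediam (t n) ^ (s : ℝ)) 1 one_pos le_rfl
    rw [iInf_lt_iff] at hinf
    obtain ⟨t, hinf⟩ := hinf
    rw [iInf_lt_iff] at hinf
    obtain ⟨hcov, hinf⟩ := hinf
    rw [iInf_lt_iff] at hinf
    obtain ⟨hdiam, hsum⟩ := hinf
    have hterm : ∀ n, (⨆ _ : (t n).Nonempty, ediam (t n) ^ (s : ℝ)) = ediam (t n) ^ (s : ℝ) := by
      intro n
      by_cases hn : (t n).Nonempty
      · simp [hn]
      · rw [Set.not_nonempty_iff_eq_empty] at hn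
        rw [hn]
        simp [ENNReal.zero_rpow_of_pos hs0]
    simp_rw [hterm] at hsum
    obtain ⟨ε, hε0, hε⟩ := ENNReal.exists_pos_sum_of_countable h400.ne' ℕ
    have hne : ∀ n, ∃ x : ℝ, ∀ y ∈ t n, edist y x ≤ ediam (t n) := by
      intro n
      by_cases hn : (t n).Nonempty
      · obtain ⟨x, hx⟩ := hn
        exact ⟨x, fun y hy => edist_le_ediam_of_mem hy hx⟩
      · rw [Set.not_nonempty_iff_eq_empty] at hn
        exact ⟨0, fun y hy => by rw [hn] at hy; exact absurd hy (Set.notMem_empty y)⟩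
    choose x hx using hne
    have hfin : ∀ n, ediam (t n) ≠ ⊤ := fun n => ne_top_of_le_ne_top ENNReal.one_ne_top (hdiam n)
    have hη : ∀ n, (((ε n ^ (1 / (s : ℝ)) : ℝ≥0) : ℝ≥0∞)) ^ (s : ℝ) = (ε n : ℝ≥0∞) := by
      intro n
      rw [← ENNReal.coe_rpow_of_nonneg _ hs0.le, ← NNReal.rpow_mul, one_div,
        inv_mul_cancel₀ hs0.ne', NNReal.rpow_one]
    obtain ⟨β, hβ, hβ2⟩ := h s hs0 hs2' x
      (fun n => (ediam (t n)).toReal + ((ε n ^ (1 / (s : ℝ)) : ℝ≥0) : ℝ))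
      (fun n => by
        have h1 : (0 : ℝ) < ((ε n ^ (1 / (s : ℝ)) : ℝ≥0) : ℝ) := by
          exact_mod_cast NNReal.rpow_pos (hε0 n)
        have h2 : 0 ≤ (ediam (t n)).toReal := ENNReal.toReal_nonneg
        linarith)
      (by
        have hle : ∀ n, ENNReal.ofReal ((ediam (t n)).toReal +
            ((ε n ^ (1 / (s : ℝ)) : ℝ≥0) : ℝ)) ^ (s : ℝ) ≤
            ediam (t n) ^ (s : ℝ) + (ε n : ℝ≥0∞) := by
          intro n
          rw [ENNReal.ofReal_add ENNReal.toReal_nonneg (NNReal.coe_nonneg _),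
            ENNReal.ofReal_toReal (hfin n), ENNReal.ofReal_coe_nnreal]
          refine le_trans (ENNReal.rpow_add_le_add_rpow _ _ hs0.le hs2'.le) ?_
          rw [hη n]
        calc ∑' n, ENNReal.ofReal ((ediam (t n)).toReal +
            ((ε n ^ (1 / (s : ℝ)) : ℝ≥0) : ℝ)) ^ (s : ℝ)
            ≤ ∑' n, (ediam (t n) ^ (s : ℝ) + (ε n : ℝ≥0∞)) := ENNReal.tsum_le_tsum hle
          _ = ∑' n, ediam (t n) ^ (s : ℝ) + ∑' n, (ε n : ℝ≥0∞) := ENNReal.tsum_add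
          _ ≤ ENNReal.ofReal (1 / 400) + ENNReal.ofReal (1 / 400) := add_le_add hsum.le hε.le
          _ = ENNReal.ofReal (1 / 400 + 1 / 400) := by
            rw [← ENNReal.ofReal_add (by norm_num) (by norm_num)]
          _ ≤ ENNReal.ofReal (1 / 80) := ENNReal.ofReal_le_ofReal (by norm_num))
    obtain ⟨n, hn⟩ := Set.mem_iUnion.mp (hcov hβ)
    apply hβ2 n
    have h1 := hx n β hn
    have h2 : dist β (x n) ≤ (ediam (t n)).toReal := by
      rw [dist_edist]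
      exact ENNReal.toReal_mono (hfin n) h1
    rw [Real.dist_eq, abs_le] at h2
    have h3 : (0 : ℝ) ≤ ((ε n ^ (1 / (s : ℝ)) : ℝ≥0) : ℝ) := NNReal.coe_nonneg _
    constructor
    · show x n - ((ediam (t n)).toReal + ((ε n ^ (1 / (s : ℝ)) : ℝ≥0) : ℝ)) ≤ β
      linarith [h2.1]
    · show β ≤ x n + ((ediam (t n)).toReal + ((ε n ^ (1 / (s : ℝ)) : ℝ≥0) : ℝ))
      linarith [h2.2]

end Pool.Agent.KUB
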