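import Mathlib
import Pool.Agent.KUB.Avg2
import Pool.Agent.KUB.Det
import Pool.Agent.KUB.Gsel
import Pool.Agent.KUB.Cov

set_option autoImplicit false

/-!
KUB module Step: one step of the construction.

`J = Jn x μ`, `l = 2^{-μ}`, `ν = μ' - μ`, `D = 2^ν` subintervals `J_t`, `l' = 2^{-μ'}`.
Let `B' = B + 180/c σ'² (A'+1) > 0`.
* `f1 = STA A' σ σ'`: `∫_J f1 = ∫_J STA A' σ μ + ∫_J STA A' μ σ' ≤ B' l` (`STA_add`, `hb`, `avg2`).
* `f2 = NV A' σ σ'`: `∫_J f2 ≤ (1/32 + 1/32) l = l/16` (`hc`, `avg3`, `hn1`).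
* `f3 = STA A'' σ' μ'`: `∫_J f3 ≤ 180/c μ'² (A''+1) l` (`avg2`, `μ ≤ σ'`).
* `f4 = NV A'' σ' μ'`: `∫_J f4 ≤ l/256` (`avg3`, `hn2`).
`gsel` for `f1, …, f4` and `cov`: the five bad sets have together at most `5D/8 < D` elements; take a
good `t < D` and `x' = x + t 2^{-μ'}`.  Then `∫_{J_t} f1 ≤ 8B' l'`, `∫_{J_t} f2 ≤ l'/2`,
`∫_{J_t} f3 ≤ 1440/c μ'² (A''+1) l'`, `∫_{J_t} f4 ≤ l'/32`, and the cover bound.
By Markov `vol{β ∈ J_t : f2 ≥ 1} ≤ l'/2` and `vol{β ∈ J_t : f1 ≥ 32 B'} ≤ l'/4`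
(`mul_meas_ge_le_lintegral`), so some `β₀ ∈ J_t` has `f2(β₀) < 1`, hence `f2(β₀) = 0` (it is a
natural number), and `f1(β₀) < 32 B'`.  For `β ∈ J_t`, `|β₀ - β| ≤ l' = 2^{-(2σ'+A'+4)}`, so
`det_sum` gives `ST σ σ' α β ≤ 4 · 32 B' = 128 B'`.
-/

namespace Pool.Agent.KUB

open MeasureTheory
open scoped ENNReal

theorem nv_eq_zero {A a b : ℕ} {α β : ℝ} (h : NV A a b α β < 1) : NV A a b α β = 0 := by
  by_contra hne
  unfold NV at h hne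
  obtain ⟨p, hp, hp1⟩ := Finset.exists_ne_zero_of_sum_ne_zero hne
  have h1 : (1 : ℝ≥0∞) ≤ ∑ p ∈ P a b, if w α β p < 2 / 2 ^ A then (1 : ℝ≥0∞) else 0 := by
    have h2 := Finset.single_le_sum (f := fun p => if w α β p < 2 / 2 ^ A then (1 : ℝ≥0∞) else 0)
      (fun _ _ => bot_le) hp
    have h3 : (if w α β p < 2 / 2 ^ A then (1 : ℝ≥0∞) else 0) = 1 := by
      by_cases hq : w α β p < 2 / 2 ^ A
      · simp [hq]
      · simp [hq] at hp1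
    simp only [h3] at h2
    exact h2
  exact absurd h (not_lt.mpr h1)

theorem exists_good_t {ν : ℕ} (F1 F2 F3 F4 F5 : Finset ℕ) (h1 : 8 * F1.card ≤ 2 ^ ν)
    (h2 : 8 * F2.card ≤ 2 ^ ν) (h3 : 8 * F3.card ≤ 2 ^ ν) (h4 : 8 * F4.card ≤ 2 ^ ν)
    (h5 : 8 * F5.card ≤ 2 ^ ν) :
    ∃ t, t < 2 ^ ν ∧ t ∉ F1 ∧ t ∉ F2 ∧ t ∉ F3 ∧ t ∉ F4 ∧ t ∉ F5 := by
  by_contra hcon
  push Not at hcon
  have hsub : Finset.range (2 ^ ν) ⊆ F1 ∪ F2 ∪ F3 ∪ F4 ∪ F5 := by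
    intro t ht
    rw [Finset.mem_range] at ht
    simp only [Finset.mem_union]
    by_contra hn
    push Not at hn
    exact hn.2 (hcon t ht hn.1.1.1.1 hn.1.1.1.2 hn.1.1.2 hn.1.2)
  have hc := Finset.card_le_card hsub
  rw [Finset.card_range] at hc
  have e1 := Finset.card_union_le (F1 ∪ F2 ∪ F3 ∪ F4) F5
  have e2 := Finset.card_union_le (F1 ∪ F2 ∪ F3) F4
  have e3 := Finset.card_union_le (F1 ∪ F2) F3
  have e4 := Finset.card_union_le F1 F2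
  have hpos : 0 < 2 ^ ν := Nat.pos_of_ne_zero (by positivity)
  omega

theorem exists_pt {y l' B' : ℝ} {m : ℕ} (hl : l' = (2 ^ m)⁻¹) (hB' : 0 < B') {f1 f2 : ℝ → ℝ≥0∞}
    (hm1 : Measurable f1) (hm2 : Measurable f2)
    (h1 : ∫⁻ β in Jn y m, f1 β ≤ ENNReal.ofReal (8 * B' * l'))
    (h2 : ∫⁻ β in Jn y m, f2 β ≤ ENNReal.ofReal (l' / 2)) :
    ∃ β ∈ Jn y m, f1 β < ENNReal.ofReal (32 * B') ∧ f2 β < 1 := by
  have hl0 : 0 < l' := by rw [hl]; positivity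
  by_contra hcon
  push Not at hcon
  set ρ := volume.restrict (Jn y m) with hρ
  have hu : ρ Set.univ = ENNReal.ofReal l' := by
    rw [hρ, Measure.restrict_apply_univ, volume_Jn, hl]
  have g1 : ρ {β | ENNReal.ofReal (32 * B') ≤ f1 β} ≤ ENNReal.ofReal (l' / 4) := by
    have h := mul_meas_ge_le_lintegral (μ := ρ) hm1 (ENNReal.ofReal (32 * B'))
    have h' := h.trans h1
    have hne : ENNReal.ofReal (32 * B') ≠ 0 := by
      simp only [ne_eq, ENNReal.ofReal_eq_zero, not_le]; positivity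
    have e : ENNReal.ofReal (8 * B' * l') = ENNReal.ofReal (32 * B') * ENNReal.ofReal (l' / 4) := by
      rw [← ENNReal.ofReal_mul (by positivity)]; congr 1; ring
    rw [e] at h'
    exact (ENNReal.mul_le_mul_iff_right hne ENNReal.ofReal_ne_top).mp h'
  have g2 : ρ {β | 1 ≤ f2 β} ≤ ENNReal.ofReal (l' / 2) := by
    have h := mul_meas_ge_le_lintegral (μ := ρ) hm2 1
    rw [one_mul] at h
    exact h.trans h2
  have hcov : ρ Set.univ ≤ ρ {β | ENNReal.ofReal (32 * B') ≤ f1 β} + ρ {β | 1 ≤ f2 β} := by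
    have hae : ρ Set.univ ≤ ρ ({β | ENNReal.ofReal (32 * B') ≤ f1 β} ∪ {β | 1 ≤ f2 β}) := by
      apply measure_mono_ae
      have : ∀ᵐ β ∂ρ, β ∈ Jn y m := ae_restrict_mem (measurableSet_Jn y m)
      filter_upwards [this] with β hβ _
      by_cases hc : f1 β < ENNReal.ofReal (32 * B')
      · exact Or.inr (hcon β hβ hc)
      · exact Or.inl (not_lt.mp hc)
    exact hae.trans (measure_union_le _ _)
  have hfin : ENNReal.ofReal l' ≤ ENNReal.ofReal (l' / 4 + l' / 2) := by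
    rw [ENNReal.ofReal_add (by positivity) (by positivity), ← hu]
    exact hcov.trans (add_le_add g1 g2)
  rw [ENNReal.ofReal_le_ofReal_iff (by positivity)] at hfin
  linarith

theorem step {α c : ℝ} (hα : BA α c) {xs ds : ℕ → ℝ} {s : ℝ} (hs0 : 0 < s) (hs1 : s < 1)
    (hd : ∀ l, 0 < ds l) {ε : ℝ} (hε0 : 0 < ε) (hε : ε ≤ 1 / 80) {x : ℝ}
    {σ μ A' σ' μ' A'' : ℕ} {B : ℝ} (hB : 0 ≤ B) (h0 : 1 ≤ σ') (h1 : σ ≤ μ) (h2 : μ ≤ σ')
    (h3 : μ' = 2 * σ' + A' + 4) (hn1 : 72 / c * σ' ^ 2 * (2 ^ A')⁻¹ ≤ 1 / 32)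
    (hn2 : 72 / c * μ' ^ 2 * (2 ^ A'')⁻¹ ≤ 1 / 256)
    (hν : 80 ≤ ((2 : ℝ) ^ (μ' - μ)) ^ (1 - s))
    (hb : ∫⁻ β in Jn x μ, STA A' σ μ α β ≤ ENNReal.ofReal (B * (2 ^ μ)⁻¹))
    (hc : ∫⁻ β in Jn x μ, NV A' σ μ α β ≤ ENNReal.ofReal (1 / 32 * (2 ^ μ)⁻¹))
    (hW : Wc xs ds s (Jn x μ) ≤ ENNReal.ofReal (ε * ((2 ^ μ)⁻¹) ^ s)) :
    ∃ x' : ℝ, Jn x' μ' ⊆ Jn x μ ∧
      (∀ β ∈ Jn x' μ', ST σ σ' α β ≤
        ENNReal.ofReal (128 * (B + 180 / c * σ' ^ 2 * (A' + 1)))) ∧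
      ∫⁻ β in Jn x' μ', STA A'' σ' μ' α β ≤
        ENNReal.ofReal (1440 / c * μ' ^ 2 * (A'' + 1) * (2 ^ μ')⁻¹) ∧
      ∫⁻ β in Jn x' μ', NV A'' σ' μ' α β ≤ ENNReal.ofReal (1 / 32 * (2 ^ μ')⁻¹) ∧
      Wc xs ds s (Jn x' μ') ≤ ENNReal.ofReal (ε * ((2 ^ μ')⁻¹) ^ s) := by
  classical
  have hc0 : 0 < c := hα.1
  obtain ⟨ν, hνe⟩ : ∃ ν, μ' = μ + ν := ⟨μ' - μ, by omega⟩
  have hν' : 80 ≤ ((2 : ℝ) ^ ν) ^ (1 - s) := by
    have : μ' - μ = ν := by omega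
    rwa [this] at hν
  set B' : ℝ := B + 180 / c * σ' ^ 2 * (A' + 1) with hB'def
  have hσ' : (1 : ℝ) ≤ σ' := by exact_mod_cast h0
  have hB' : 0 < B' := by
    have : 0 < 180 / c * (σ' : ℝ) ^ 2 * (A' + 1) := by positivity
    rw [hB'def]; linarith
  have hl : (0 : ℝ) < (2 ^ μ)⁻¹ := by positivity
  -- integrals over J
  have i1 : ∫⁻ β in Jn x μ, STA A' σ σ' α β ≤ ENNReal.ofReal B' * ENNReal.ofReal ((2 ^ μ)⁻¹) := by
    have e : ∀ β, STA A' σ σ' α β = STA A' σ μ α β + STA A' μ σ' α β := fun β =>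
      STA_add h1 h2 A' α β
    simp only [e]
    rw [lintegral_add_left (measurable_STA _ _ _ _)]
    refine (add_le_add hb (avg2 hα (le_refl μ) x A')).trans ?_
    rw [← ENNReal.ofReal_add (by positivity) (by positivity), ← ENNReal.ofReal_mul hB'.le]
    apply ENNReal.ofReal_le_ofReal
    rw [hB'def]
    exact le_of_eq (by ring)
  have i2 : ∫⁻ β in Jn x μ, NV A' σ σ' α β ≤
      ENNReal.ofReal (1 / 16) * ENNReal.ofReal ((2 ^ μ)⁻¹) := by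
    have e : ∀ β, NV A' σ σ' α β = NV A' σ μ α β + NV A' μ σ' α β := fun β =>
      NV_add h1 h2 A' α β
    simp only [e]
    rw [lintegral_add_left (measurable_NV _ _ _ _)]
    refine (add_le_add hc (avg3 hα (le_refl μ) x A')).trans ?_
    rw [← ENNReal.ofReal_add (by positivity) (by positivity), ← ENNReal.ofReal_mul (by norm_num)]
    apply ENNReal.ofReal_le_ofReal
    have := mul_le_mul_of_nonneg_right hn1 hl.le
    linarith
  have i3 : ∫⁻ β in Jn x μ, STA A'' σ' μ' α β ≤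
      ENNReal.ofReal (180 / c * μ' ^ 2 * (A'' + 1)) * ENNReal.ofReal ((2 ^ μ)⁻¹) := by
    refine (avg2 hα h2 x A'').trans ?_
    rw [← ENNReal.ofReal_mul (by positivity)]
  have i4 : ∫⁻ β in Jn x μ, NV A'' σ' μ' α β ≤
      ENNReal.ofReal (1 / 256) * ENNReal.ofReal ((2 ^ μ)⁻¹) := by
    refine (avg3 hα h2 x A'').trans ?_
    rw [← ENNReal.ofReal_mul (by norm_num)]
    apply ENNReal.ofReal_le_ofReal
    exact mul_le_mul_of_nonneg_right hn2 hl.le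
  obtain ⟨t, ht, n1, n2, n3, n4, n5⟩ := exists_good_t _ _ _ _ _
    (gsel (measurable_STA A' σ σ' α) ν i1) (gsel (measurable_NV A' σ σ' α) ν i2)
    (gsel (measurable_STA A'' σ' μ' α) ν i3) (gsel (measurable_NV A'' σ' μ' α) ν i4)
    (cov hs0 hs1 hd ν hν' hε0 hε hW)
  have htr : t ∈ Finset.range (2 ^ ν) := Finset.mem_range.mpr ht
  rw [Finset.mem_filter, not_and, not_lt] at n1 n2 n3 n4 n5
  replace n1 := n1 htr
  replace n2 := n2 htr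
  replace n3 := n3 htr
  replace n4 := n4 htr
  replace n5 := n5 htr
  rw [← hνe] at n1 n2 n3 n4 n5
  set x' : ℝ := x + t * (2 ^ μ')⁻¹ with hx'
  have hsub : Jn x' μ' ⊆ Jn x μ := by
    have := sub_Jn x μ ν t ht
    rw [← hνe] at this
    exact this
  have hl' : (0 : ℝ) < (2 ^ μ')⁻¹ := by positivity
  have m1 : ∫⁻ β in Jn x' μ', STA A' σ σ' α β ≤ ENNReal.ofReal (8 * B' * (2 ^ μ')⁻¹) := by
    refine n1.trans (le_of_eq ?_)
    rw [ENNReal.ofReal_mul (by positivity), ENNReal.ofReal_mul (by norm_num)]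
    norm_num
  have m2 : ∫⁻ β in Jn x' μ', NV A' σ σ' α β ≤ ENNReal.ofReal ((2 ^ μ')⁻¹ / 2) := by
    refine n2.trans (le_of_eq ?_)
    have e8 : (8 : ℝ≥0∞) = ENNReal.ofReal 8 := by norm_num
    rw [e8, ← ENNReal.ofReal_mul (by norm_num), ← ENNReal.ofReal_mul (by norm_num)]
    congr 1
    ring
  obtain ⟨β₀, hβ₀, hf1, hf2⟩ := exists_pt rfl hB' (measurable_STA A' σ σ' α)
    (measurable_NV A' σ σ' α) m1 m2
  refine ⟨x', hsub, ?_, ?_, ?_, n5⟩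
  · intro β hβ
    have hdist : |β₀ - β| ≤ (2 ^ (2 * σ' + A' + 4))⁻¹ := by
      rw [← h3]
      unfold Jn at hβ hβ₀
      rw [Set.mem_Icc] at hβ hβ₀
      rw [abs_le]
      constructor <;> linarith [hβ.1, hβ.2, hβ₀.1, hβ₀.2]
    refine (det_sum hdist (nv_eq_zero hf2)).trans ?_
    refine (mul_le_mul_right hf1.le 4).trans (le_of_eq ?_)
    have e4 : (4 : ℝ≥0∞) = ENNReal.ofReal 4 := by norm_num
    rw [e4, ← ENNReal.ofReal_mul (by norm_num)]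
    congr 1
    ring
  · refine n3.trans (le_of_eq ?_)
    have e8 : (8 : ℝ≥0∞) = ENNReal.ofReal 8 := by norm_num
    rw [e8, ← ENNReal.ofReal_mul (by norm_num), ← ENNReal.ofReal_mul (by positivity)]
    congr 1
    ring
  · refine n4.trans (le_of_eq ?_)
    have e8 : (8 : ℝ≥0∞) = ENNReal.ofReal 8 := by norm_num
    rw [e8, ← ENNReal.ofReal_mul (by norm_num), ← ENNReal.ofReal_mul (by norm_num)]
    congr 1
    ring

end Pool.Agent.KUB
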