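import Mathlib
import Pool.Agent.KUB.Step

set_option autoImplicit false

/-!
KUB module Lim: the limit of the construction.

Choose `K'` with `72/c · 2^{-K'} ≤ 1/256`, and `j₀` with `4n + K' + 4 ≤ 4^n` for all `n ≥ j₀` and
`80 ≤ (2^{4^{j₀}})^{1-s}`.
Put `n = j + j₀` and `A_j = 4n + K'`, `σ_0 = μ_0 = 0`, and for `j ≥ 1` `σ_j = 4^n`,
`μ_j = 2σ_j + A_j + 4 ≤ 3σ_j ≤ σ_{j+1}`.
Conditions of `step` (`σ = σ_j, μ = μ_j, A' = A_{j+1}, σ' = σ_{j+1}, μ' = μ_{j+1}, A'' = A_{j+2}`,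
`B = B_j = 1440/c μ_j² (A_{j+1}+1)`, `ε = 1/80`):
* `hn1`: `σ'² 2^{-A'} = 2^{-K'}`;  `hn2`: `μ'² 2^{-A''} ≤ 9·16^{n+1}/(16^{n+2} 2^{K'}) ≤ 2^{-K'}`;
* `hν`: `μ_{j+1} - μ_j ≥ 2·4^{n+1} - 3·4^n ≥ 4^{j₀}`.
Start: `x = 0`, `J = [0,1]`; the regions `P 0 0` are empty, `Wc ≤ ∑' ≤ 1/80`.
Recursion (`Nat.rec` on the subtype of `x` with the invariant) gives `x_j` with
`Jn x_{j+1} μ_{j+1} ⊆ Jn x_j μ_j`, the integral and cover bounds, and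
`ST σ_j σ_{j+1} α β ≤ 128(B_j + 180/c σ_{j+1}²(A_{j+1}+1)) ≤ (Γ/2) σ_{j+1}² (A_{j+1}+1)` on
`Jn x_{j+1} μ_{j+1}`, with `Γ = 2·128·1620/c` (as `μ_j ≤ σ_{j+1}`).  Inductively
`ST 0 σ_j α β ≤ Γ σ_j² (A_j+1)` on `Jn x_j μ_j` (`ST_add`; `σ_j² ≤ σ_{j+1}²/16`).
Let `β ∈ ⋂ Jn x_j μ_j` (`IsCompact.nonempty_iInter_of_sequence_nonempty_isCompact_isClosed`).
* `β ∉ I_l`: otherwise `I_l` hits every `Jn x_j μ_j`, so `d_l^s ≤ W ≤ (1/80) 2^{-μ_j s} → 0`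
  (`ENNReal.le_tsum`), contradiction to `d_l > 0`.
* `β ∈ Good`: given `t` let `j ≥ 1` be minimal with `t ≤ σ_j`; `ST 0 t ≤ ST 0 σ_j ≤ Γσ_j²(A_j+1)`.  If
  `j = 1` this is a constant `≤ Q ≤ Q (t+1)² log₂(t+2)`; if `j ≥ 2` then `4^{n-1} < t`, `σ_j ≤ 4t`,
  `2(n-1) ≤ log₂ t`, so `A_j + 1 = 4n + K' + 1 ≤ 2 log₂ t + K' + 5 ≤ (K'+7) log₂(t+2)`.
-/

namespace Pool.Agent.KUB

open MeasureTheory
open scoped ENNReal

/-- region scale -/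
def sg (j0 j : ℕ) : ℕ := if j = 0 then 0 else 4 ^ (j + j0)

/-- truncation exponent -/
def Al (j0 K j : ℕ) : ℕ := 4 * (j + j0) + K

/-- interval scale -/
def mu (j0 K j : ℕ) : ℕ := if j = 0 then 0 else 2 * 4 ^ (j + j0) + Al j0 K j + 4

theorem sg_succ (j0 j : ℕ) : sg j0 (j + 1) = 4 ^ (j + 1 + j0) := by simp [sg]

theorem mu_succ (j0 K j : ℕ) : mu j0 K (j + 1) = 2 * sg j0 (j + 1) + Al j0 K (j + 1) + 4 := by
  simp [mu, sg]

theorem eight_mul_le {n : ℕ} (hn : 3 ≤ n) : 8 * n ≤ 4 ^ n := by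
  induction n, hn using Nat.le_induction with
  | base => norm_num
  | succ n hn ih => rw [pow_succ]; omega

theorem mu_le {j0 K : ℕ} (hj : K + 4 ≤ j0) (j : ℕ) : mu j0 K j ≤ 3 * 4 ^ (j + j0) := by
  unfold mu
  split_ifs with h
  · omega
  · have := eight_mul_le (n := j + j0) (by omega)
    unfold Al
    omega

theorem mu_le_sg {j0 K : ℕ} (hj : K + 4 ≤ j0) (j : ℕ) : mu j0 K j ≤ sg j0 (j + 1) := by
  have h := mu_le hj j
  rw [sg_succ, show j + 1 + j0 = (j + j0) + 1 by ring, pow_succ]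
  omega

theorem sg_le_mu (j0 K j : ℕ) : sg j0 j ≤ mu j0 K j := by
  unfold sg mu
  split_ifs with h
  · exact le_rfl
  · omega

theorem four_sg_le (j0 j : ℕ) : 4 * sg j0 j ≤ sg j0 (j + 1) := by
  rw [sg_succ]
  unfold sg
  split_ifs with h
  · simp
  · rw [show j + 1 + j0 = (j + j0) + 1 by ring, pow_succ]
    omega

theorem mu_diff {j0 K : ℕ} (hj : K + 4 ≤ j0) (j : ℕ) :
    4 ^ j0 ≤ mu j0 K (j + 1) - mu j0 K j := by
  have h := mu_le hj j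
  have h1 : 4 ^ j0 ≤ 4 ^ (j + j0) := Nat.pow_le_pow_right (by norm_num) (by omega)
  rw [mu_succ, sg_succ, show j + 1 + j0 = (j + j0) + 1 by ring, pow_succ]
  omega

theorem le_mu (j0 K j : ℕ) : j ≤ mu j0 K j := by
  unfold mu Al
  split_ifs with h
  · omega
  · have : j + j0 < 4 ^ (j + j0) := Nat.lt_pow_self (by norm_num)
    omega

theorem cond1 {c : ℝ} {j0 K : ℕ} (hK : 72 / c * (2 ^ K)⁻¹ ≤ 1 / 256) (j : ℕ) :
    72 / c * (sg j0 (j + 1) : ℝ) ^ 2 * (2 ^ Al j0 K (j + 1))⁻¹ ≤ 1 / 32 := by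
  have e : (sg j0 (j + 1) : ℝ) ^ 2 * (2 ^ Al j0 K (j + 1))⁻¹ = (2 ^ K)⁻¹ := by
    rw [sg_succ, Al, pow_add (2 : ℝ) (4 * (j + 1 + j0)) K, pow_mul (2 : ℝ) 4]
    push_cast
    have h16 : ((4 : ℝ) ^ (j + 1 + j0)) ^ 2 = ((2 : ℝ) ^ 4) ^ (j + 1 + j0) := by
      rw [← pow_mul, mul_comm, pow_mul]; norm_num
    rw [h16, mul_inv, ← mul_assoc, mul_inv_cancel₀ (by positivity), one_mul]
  rw [mul_assoc, e]
  linarith

theorem cond2 {c : ℝ} (hc : 0 < c) {j0 K : ℕ} (hj : K + 4 ≤ j0)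
    (hK : 72 / c * (2 ^ K)⁻¹ ≤ 1 / 256) (j : ℕ) :
    72 / c * (mu j0 K (j + 1) : ℝ) ^ 2 * (2 ^ Al j0 K (j + 2))⁻¹ ≤ 1 / 256 := by
  have hm : (mu j0 K (j + 1) : ℝ) ≤ 3 * 4 ^ (j + 1 + j0) := by exact_mod_cast mu_le hj (j + 1)
  have h1 : (mu j0 K (j + 1) : ℝ) ^ 2 ≤ (3 * 4 ^ (j + 1 + j0)) ^ 2 :=
    pow_le_pow_left₀ (by positivity) hm 2
  have e : ((3 : ℝ) * 4 ^ (j + 1 + j0)) ^ 2 * (2 ^ Al j0 K (j + 2))⁻¹ = 9 / 16 * (2 ^ K)⁻¹ := by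
    rw [Al, pow_add (2 : ℝ) (4 * (j + 2 + j0)) K, pow_mul (2 : ℝ) 4, mul_pow]
    have h16 : ((4 : ℝ) ^ (j + 1 + j0)) ^ 2 = ((2 : ℝ) ^ 4) ^ (j + 1 + j0) := by
      rw [← pow_mul, mul_comm, pow_mul]; norm_num
    have h17 : ((2 : ℝ) ^ 4) ^ (j + 2 + j0) = ((2 : ℝ) ^ 4) ^ (j + 1 + j0) * 16 := by
      rw [show j + 2 + j0 = (j + 1 + j0) + 1 by ring, pow_succ]; norm_num
    rw [h16, h17]
    have : ((2 : ℝ) ^ 4) ^ (j + 1 + j0) ≠ 0 := by positivity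
    field_simp
    ring
  have h2 : (mu j0 K (j + 1) : ℝ) ^ 2 * (2 ^ Al j0 K (j + 2))⁻¹ ≤ 9 / 16 * (2 ^ K)⁻¹ := by
    rw [← e]
    exact mul_le_mul_of_nonneg_right h1 (by positivity)
  rw [mul_assoc]
  have h3 : 72 / c * ((mu j0 K (j + 1) : ℝ) ^ 2 * (2 ^ Al j0 K (j + 2))⁻¹) ≤
      72 / c * (9 / 16 * (2 ^ K)⁻¹) := mul_le_mul_of_nonneg_left h2 (by positivity)
  have h4 : 72 / c * (9 / 16 * (2 ^ K)⁻¹) = 9 / 16 * (72 / c * (2 ^ K)⁻¹) := by ring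
  have h5 : 0 ≤ 72 / c * ((2 : ℝ) ^ K)⁻¹ := by positivity
  linarith

theorem ST_mono {t t' : ℕ} (h : t ≤ t') (α β : ℝ) : ST 0 t α β ≤ ST 0 t' α β := by
  rw [ST_add (Nat.zero_le t) h]
  exact le_self_add

theorem P_empty (a : ℕ) : P a a = ∅ := by
  rw [Finset.eq_empty_iff_forall_notMem]
  intro p hp
  rw [mem_P] at hp
  omega

/-- the invariant of the construction -/
structure Inv (α c : ℝ) (xs ds : ℕ → ℝ) (s : ℝ) (j0 K j : ℕ) (x : ℝ) : Prop where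
  hb : ∫⁻ β in Jn x (mu j0 K j), STA (Al j0 K (j + 1)) (sg j0 j) (mu j0 K j) α β ≤
    ENNReal.ofReal (1440 / c * (mu j0 K j : ℝ) ^ 2 * ((Al j0 K (j + 1) : ℕ) + 1) *
      (2 ^ mu j0 K j)⁻¹)
  hc : ∫⁻ β in Jn x (mu j0 K j), NV (Al j0 K (j + 1)) (sg j0 j) (mu j0 K j) α β ≤
    ENNReal.ofReal (1 / 32 * (2 ^ mu j0 K j)⁻¹)
  hW : Wc xs ds s (Jn x (mu j0 K j)) ≤ ENNReal.ofReal (1 / 80 * ((2 ^ mu j0 K j)⁻¹) ^ s)
  ha : ∀ β ∈ Jn x (mu j0 K j), ST 0 (sg j0 j) α β ≤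
    ENNReal.ofReal (414720 / c * (sg j0 j : ℝ) ^ 2 * ((Al j0 K j : ℕ) + 1))

theorem inv_zero (α c : ℝ) {xs ds : ℕ → ℝ} {s : ℝ}
    (hsum : ∑' l : ℕ, ENNReal.ofReal (ds l) ^ s ≤ ENNReal.ofReal (1 / 80)) (j0 K : ℕ) :
    Inv α c xs ds s j0 K 0 0 := by
  have hs : sg j0 0 = 0 := by simp [sg]
  have hm : mu j0 K 0 = 0 := by simp [mu]
  constructor
  · rw [hs, hm]; simp [STA, P_empty]
  · rw [hs, hm]; simp [NV, P_empty]
  · rw [hm]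
    have e : (1 : ℝ) / 80 * (((2 : ℝ) ^ 0)⁻¹) ^ s = 1 / 80 := by simp
    rw [e]
    refine le_trans ?_ hsum
    unfold Wc
    refine ENNReal.tsum_le_tsum fun l => ?_
    split_ifs
    · exact le_rfl
    · exact bot_le
  · intro β _
    rw [hs]
    simp [ST, P_empty]

theorem inv_step {α c : ℝ} (hα : BA α c) {xs ds : ℕ → ℝ} {s : ℝ} (hs0 : 0 < s) (hs1 : s < 1)
    (hd : ∀ l, 0 < ds l) {j0 K : ℕ} (hj : K + 4 ≤ j0) (hK : 72 / c * (2 ^ K)⁻¹ ≤ 1 / 256)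
    (hj0 : 80 ≤ ((2 : ℝ) ^ (4 ^ j0)) ^ (1 - s)) (j : ℕ) (x : ℝ)
    (h : Inv α c xs ds s j0 K j x) :
    ∃ x' : ℝ, Jn x' (mu j0 K (j + 1)) ⊆ Jn x (mu j0 K j) ∧
      Inv α c xs ds s j0 K (j + 1) x' := by
  have hc0 : 0 < c := hα.1
  have hν : 80 ≤ ((2 : ℝ) ^ (mu j0 K (j + 1) - mu j0 K j)) ^ (1 - s) := by
    refine hj0.trans ?_
    apply Real.rpow_le_rpow (by positivity) _ (by linarith)
    exact pow_le_pow_right₀ (by norm_num) (mu_diff hj j)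
  have hσ1 : 1 ≤ sg j0 (j + 1) := by
    rw [sg_succ]; exact Nat.one_le_pow _ _ (by norm_num)
  obtain ⟨x', h1, h2, h3, h4, h5⟩ := step hα hs0 hs1 hd (ε := 1 / 80) (by norm_num) le_rfl
    (B := 1440 / c * (mu j0 K j : ℝ) ^ 2 * ((Al j0 K (j + 1) : ℕ) + 1)) (by positivity)
    hσ1 (sg_le_mu j0 K j) (mu_le_sg hj j) (mu_succ j0 K j) (cond1 hK j) (cond2 hc0 hj hK j) hν
    h.hb h.hc h.hW
  refine ⟨x', h1, ⟨h3, h4, h5, ?_⟩⟩
  intro β hβ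
  have hsg : sg j0 j ≤ sg j0 (j + 1) := le_trans (sg_le_mu j0 K j) (mu_le_sg hj j)
  rw [ST_add (Nat.zero_le _) hsg]
  refine (add_le_add (h.ha β (h1 hβ)) (h2 β hβ)).trans ?_
  rw [← ENNReal.ofReal_add (by positivity) (by positivity)]
  apply ENNReal.ofReal_le_ofReal
  set S : ℝ := (sg j0 (j + 1) : ℝ) with hS
  set A' : ℝ := ((Al j0 K (j + 1) : ℕ) : ℝ) with hA'
  have k1 : (mu j0 K j : ℝ) ≤ S := by rw [hS]; exact_mod_cast mu_le_sg hj j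
  have k2 : 4 * (sg j0 j : ℝ) ≤ S := by rw [hS]; exact_mod_cast four_sg_le j0 j
  have k3 : ((Al j0 K j : ℕ) : ℝ) ≤ A' := by
    rw [hA']; exact_mod_cast (by unfold Al; omega : Al j0 K j ≤ Al j0 K (j + 1))
  have k4 : (mu j0 K j : ℝ) ^ 2 ≤ S ^ 2 := pow_le_pow_left₀ (by positivity) k1 2
  have k5 : (sg j0 j : ℝ) ^ 2 ≤ S ^ 2 / 16 := by
    have : (4 * (sg j0 j : ℝ)) ^ 2 ≤ S ^ 2 := pow_le_pow_left₀ (by positivity) k2 2
    nlinarith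
  have hA0 : 0 ≤ A' := by rw [hA']; positivity
  have hi : 0 < 1 / c := by positivity
  have m1 : 414720 / c * (sg j0 j : ℝ) ^ 2 * (((Al j0 K j : ℕ) : ℝ) + 1) ≤
      414720 / c * (S ^ 2 / 16) * (A' + 1) := by
    apply mul_le_mul
    · exact mul_le_mul_of_nonneg_left k5 (by positivity)
    · linarith
    · positivity
    · positivity
  have m2 : 1440 / c * (mu j0 K j : ℝ) ^ 2 * (A' + 1) ≤ 1440 / c * S ^ 2 * (A' + 1) := by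
    apply mul_le_mul_of_nonneg_right _ (by linarith)
    exact mul_le_mul_of_nonneg_left k4 (by positivity)
  have m3 : 0 ≤ 1 / c * S ^ 2 * (A' + 1) := by positivity
  have e1 : 414720 / c * (S ^ 2 / 16) * (A' + 1) = 25920 * (1 / c * S ^ 2 * (A' + 1)) := by ring
  have e2 : 1440 / c * S ^ 2 * (A' + 1) = 1440 * (1 / c * S ^ 2 * (A' + 1)) := by ring
  have e3 : 180 / c * S ^ 2 * (A' + 1) = 180 * (1 / c * S ^ 2 * (A' + 1)) := by ring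
  have e4 : 414720 / c * S ^ 2 * (A' + 1) = 414720 * (1 / c * S ^ 2 * (A' + 1)) := by ring
  rw [e4, e3]
  rw [e1] at m1
  rw [e2] at m2
  linarith

theorem exists_point {α c : ℝ} (hα : BA α c) {s : ℝ} (hs0 : 0 < s) (hs1 : s < 1)
    (xs ds : ℕ → ℝ) (hd : ∀ l, 0 < ds l)
    (hsum : ∑' l : ℕ, ENNReal.ofReal (ds l) ^ s ≤ ENNReal.ofReal (1 / 80)) :
    ∃ β ∈ Good α (fun t => (Nat.log 2 (t + 2) : ℝ)),
      ∀ l, β ∉ Set.Icc (xs l - ds l) (xs l + ds l) := by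
  have hc0 : 0 < c := hα.1
  obtain ⟨K, hK⟩ : ∃ K : ℕ, 72 / c * (2 ^ K)⁻¹ ≤ 1 / 256 := by
    obtain ⟨K, hK⟩ := exists_pow_lt_of_lt_one (show (0 : ℝ) < c / 18432 by positivity)
      (show (1 / 2 : ℝ) < 1 by norm_num)
    refine ⟨K, ?_⟩
    have e : ((2 : ℝ) ^ K)⁻¹ = (1 / 2) ^ K := by rw [one_div, inv_pow]
    rw [e]
    calc 72 / c * (1 / 2) ^ K ≤ 72 / c * (c / 18432) :=
          mul_le_mul_of_nonneg_left hK.le (by positivity)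
      _ = 1 / 256 := by field_simp; norm_num
  obtain ⟨j1, hj1⟩ := pow_unbounded_of_one_lt (7 / (1 - s)) (show (1 : ℝ) < 4 by norm_num)
  obtain ⟨j0, hj, hj01⟩ : ∃ j0 : ℕ, K + 4 ≤ j0 ∧ j1 ≤ j0 := ⟨max (K + 4) j1, le_max_left _ _,
    le_max_right _ _⟩
  have hs' : 0 < 1 - s := by linarith
  have hj0 : 80 ≤ ((2 : ℝ) ^ (4 ^ j0)) ^ (1 - s) := by
    have h1 : 7 / (1 - s) ≤ (4 : ℝ) ^ j0 :=
      hj1.le.trans (pow_le_pow_right₀ (by norm_num) hj01)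
    have h2 : 7 ≤ (4 : ℝ) ^ j0 * (1 - s) := by
      rwa [div_le_iff₀ hs'] at h1
    rw [← Real.rpow_natCast, ← Real.rpow_mul (by norm_num)]
    push_cast
    calc (80 : ℝ) ≤ 2 ^ (7 : ℝ) := by norm_num
      _ ≤ 2 ^ ((4 : ℝ) ^ j0 * (1 - s)) := Real.rpow_le_rpow_of_exponent_le (by norm_num) h2
  have hstep := inv_step hα hs0 hs1 hd hj hK hj0 (xs := xs)
  obtain ⟨x, hx, hnest⟩ : ∃ x : ℕ → ℝ, (∀ j, Inv α c xs ds s j0 K j (x j)) ∧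
      ∀ j, Jn (x (j + 1)) (mu j0 K (j + 1)) ⊆ Jn (x j) (mu j0 K j) := by
    let F : (j : ℕ) → {x : ℝ // Inv α c xs ds s j0 K j x} := fun j =>
      Nat.rec ⟨0, inv_zero α c hsum j0 K⟩
        (fun j p => ⟨Classical.choose (hstep j p.1 p.2),
          (Classical.choose_spec (hstep j p.1 p.2)).2⟩) j
    exact ⟨fun j => (F j).1, fun j => (F j).2,
      fun j => (Classical.choose_spec (hstep j (F j).1 (F j).2)).1⟩
  obtain ⟨β, hβ⟩ := IsCompact.nonempty_iInter_of_sequence_nonempty_isCompact_isClosed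
    (fun j => Jn (x j) (mu j0 K j)) hnest
    (fun j => ⟨x j, Set.mem_Icc.mpr ⟨le_rfl, by
      have : (0 : ℝ) < (2 ^ mu j0 K j)⁻¹ := by positivity
      linarith⟩⟩) (isCompact_Jn _ _) (fun j => (isCompact_Jn _ _).isClosed)
  rw [Set.mem_iInter] at hβ
  refine ⟨β, ?_, ?_⟩
  · -- `β` is good
    set Γ : ℝ := 414720 / c with hΓ
    have hΓ0 : 0 < Γ := by positivity
    set Q1 : ℝ := Γ * (4 ^ (1 + j0)) ^ 2 * (4 * (1 + j0) + K + 1) with hQ1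
    have hQ10 : 0 < Q1 := by positivity
    refine ⟨Γ * 16 * (K + 7) + Q1, by positivity, fun t => ?_⟩
    have hex : ∃ j, t ≤ 4 ^ (j + 1 + j0) := by
      refine ⟨t, ?_⟩
      have h1 : t < 4 ^ t := Nat.lt_pow_self (by norm_num)
      have h2 : 4 ^ t ≤ 4 ^ (t + 1 + j0) := Nat.pow_le_pow_right (by norm_num) (by omega)
      omega
    classical
    set j := Nat.find hex with hjdef
    have hjt : t ≤ 4 ^ (j + 1 + j0) := Nat.find_spec hex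
    have hST : ST 0 t α β ≤ ENNReal.ofReal (Γ * (4 ^ (j + 1 + j0)) ^ 2 *
        (4 * (j + 1 + j0) + K + 1)) := by
      have h1 := (hx (j + 1)).ha β (hβ (j + 1))
      rw [sg_succ] at h1
      refine (ST_mono hjt α β).trans (h1.trans (le_of_eq ?_))
      congr 1
      rw [Al]
      push_cast
      ring
    have hlog1 : 1 ≤ Nat.log 2 (t + 2) := Nat.log_pos (by norm_num) (by omega)
    have hlog1' : (1 : ℝ) ≤ (Nat.log 2 (t + 2) : ℝ) := by exact_mod_cast hlog1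
    refine hST.trans (ENNReal.ofReal_le_ofReal ?_)
    have ht1 : (1 : ℝ) ≤ ((t : ℝ) + 1) ^ 2 := by
      have : (0 : ℝ) ≤ t := by positivity
      nlinarith
    show _ ≤ (Γ * 16 * (K + 7) + Q1) * ((t : ℝ) + 1) ^ 2 * (Nat.log 2 (t + 2) : ℝ)
    set lg2 : ℝ := (Nat.log 2 (t + 2) : ℝ) with hlg2
    by_cases h0 : j = 0
    · rw [h0]
      have e : Γ * (4 ^ (0 + 1 + j0)) ^ 2 * (4 * (((0 : ℕ) : ℝ) + 1 + j0) + K + 1) = Q1 := by
        rw [hQ1]; norm_num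
      rw [e]
      have h1 : Q1 ≤ (Γ * 16 * (K + 7) + Q1) := by
        have : 0 < Γ * 16 * ((K : ℝ) + 7) := by positivity
        linarith
      have h2 : (0 : ℝ) < Γ * 16 * (K + 7) + Q1 := by positivity
      calc Q1 ≤ (Γ * 16 * (K + 7) + Q1) * 1 * 1 := by rw [mul_one, mul_one]; exact h1
        _ ≤ (Γ * 16 * (K + 7) + Q1) * ((t : ℝ) + 1) ^ 2 * lg2 := by gcongr
    · have hlt : 4 ^ (j + j0) < t := by
        have h1 : ¬ t ≤ 4 ^ ((j - 1) + 1 + j0) := Nat.find_min hex (by omega)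
        rw [show j - 1 + 1 = j by omega] at h1
        omega
      have hlt' : ((4 : ℝ) ^ (j + j0)) ≤ (t : ℝ) + 1 := by
        have : (4 : ℝ) ^ (j + j0) ≤ t := by exact_mod_cast hlt.le
        linarith
      have hlg : 2 * (j + j0) ≤ Nat.log 2 (t + 2) := by
        apply Nat.le_log_of_pow_le (by norm_num)
        rw [pow_mul]
        norm_num
        omega
      have hlg' : 2 * ((j : ℝ) + j0) ≤ lg2 := by rw [hlg2]; exact_mod_cast hlg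
      have e1 : ((4 : ℝ) ^ (j + 1 + j0)) ^ 2 = 16 * ((4 : ℝ) ^ (j + j0)) ^ 2 := by
        rw [show j + 1 + j0 = (j + j0) + 1 by ring, pow_succ]; ring
      have h2 : ((4 : ℝ) ^ (j + j0)) ^ 2 ≤ ((t : ℝ) + 1) ^ 2 :=
        pow_le_pow_left₀ (by positivity) hlt' 2
      have h3 : 4 * ((j : ℝ) + 1 + j0) + K + 1 ≤ (K + 7) * lg2 := by
        have : (K : ℝ) * 1 ≤ K * lg2 := mul_le_mul_of_nonneg_left hlog1' (by positivity)
        nlinarith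
      rw [e1]
      have h4 : Γ * (16 * ((4 : ℝ) ^ (j + j0)) ^ 2) ≤ Γ * (16 * ((t : ℝ) + 1) ^ 2) := by
        gcongr
      have h5 : Γ * (16 * ((4 : ℝ) ^ (j + j0)) ^ 2) * (4 * ((j : ℝ) + 1 + j0) + K + 1) ≤
          Γ * (16 * ((t : ℝ) + 1) ^ 2) * ((K + 7) * lg2) := by
        apply mul_le_mul h4 h3 (by positivity) (by positivity)
      have h6 : 0 ≤ Q1 * ((t : ℝ) + 1) ^ 2 * lg2 := by positivity
      calc _ ≤ Γ * (16 * ((t : ℝ) + 1) ^ 2) * ((K + 7) * lg2) := h5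
        _ = Γ * 16 * (K + 7) * ((t : ℝ) + 1) ^ 2 * lg2 := by ring
        _ ≤ _ := by
            have e : (Γ * 16 * (K + 7) + Q1) * ((t : ℝ) + 1) ^ 2 * lg2 =
              Γ * 16 * (K + 7) * ((t : ℝ) + 1) ^ 2 * lg2 + Q1 * ((t : ℝ) + 1) ^ 2 * lg2 := by ring
            rw [e]; linarith
  · -- `β` avoids the cover
    intro l hl
    have h1 : ∀ j, ENNReal.ofReal (ds l) ^ s ≤
        ENNReal.ofReal (1 / 80 * ((2 ^ mu j0 K j)⁻¹) ^ s) := by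
      intro j
      refine le_trans ?_ (hx j).hW
      unfold Wc
      refine le_trans ?_ (ENNReal.le_tsum l)
      rw [if_pos ⟨β, hl, hβ j⟩]
    obtain ⟨j, hjl⟩ := exists_pow_lt_of_lt_one (hd l) (show (1 / 2 : ℝ) < 1 by norm_num)
    have h2 := h1 j
    rw [ENNReal.ofReal_rpow_of_pos (hd l),
      ENNReal.ofReal_le_ofReal_iff (by positivity)] at h2
    have h3 : ((2 : ℝ) ^ mu j0 K j)⁻¹ ≤ (1 / 2) ^ j := by
      rw [one_div, inv_pow]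
      apply inv_anti₀ (by positivity)
      exact pow_le_pow_right₀ (by norm_num) (le_mu j0 K j)
    have h4 : (((2 : ℝ) ^ mu j0 K j)⁻¹) ^ s < ds l ^ s :=
      Real.rpow_lt_rpow (by positivity) (lt_of_le_of_lt h3 hjl) hs0
    have h5 : 0 < (((2 : ℝ) ^ mu j0 K j)⁻¹) ^ s := by positivity
    linarith

end Pool.Agent.KUB
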