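import Mathlib

set_option autoImplicit false

/-!
KUB: elementary estimates for `Nat.clog 2 N` and `log (log N)`, used in MainE and MainF.
-/

namespace Pool.Agent.KUB

theorem one_lt_log_three : 1 < Real.log 3 := by
  rw [Real.lt_log_iff_exp_lt (by norm_num)]
  have := Real.exp_one_lt_d9
  linarith

theorem one_lt_log {x : ℝ} (hx : 3 ≤ x) : 1 < Real.log x :=
  lt_of_lt_of_le one_lt_log_three (Real.log_le_log (by norm_num) hx)

theorem log_log_three_pos : 0 < Real.log (Real.log 3) := Real.log_pos one_lt_log_three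

theorem log_log_ge {x : ℝ} (hx : 3 ≤ x) : Real.log (Real.log 3) ≤ Real.log (Real.log x) :=
  Real.log_le_log (lt_trans one_pos one_lt_log_three) (Real.log_le_log (by norm_num) hx)

theorem clog_le {N : ℕ} (hN : 3 ≤ N) : (Nat.clog 2 N : ℝ) ≤ 3 * Real.log N := by
  have h0 : (3 : ℝ) ≤ N := by exact_mod_cast hN
  have h1 := one_lt_log h0
  have h2 : 0 < Nat.clog 2 N := Nat.clog_pos (by norm_num) (by omega)
  have h3 : 2 ^ (Nat.clog 2 N - 1) < N := by
    have h4 := Nat.pow_pred_clog_lt_self (b := 2) (by norm_num) (x := N) (by omega)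
    simpa [Nat.pred_eq_sub_one] using h4
  have h4 : ((Nat.clog 2 N - 1 : ℕ) : ℝ) * Real.log 2 ≤ Real.log N := by
    rw [← Real.log_pow]
    refine Real.log_le_log (by positivity) ?_
    exact_mod_cast h3.le
  have h5 : ((Nat.clog 2 N - 1 : ℕ) : ℝ) = (Nat.clog 2 N : ℝ) - 1 := by
    rw [Nat.cast_sub (by omega)]
    simp
  rw [h5] at h4
  have h6 := Real.log_two_gt_d9
  have h7 : (0 : ℝ) ≤ (Nat.clog 2 N : ℝ) - 1 := by
    have : (1 : ℝ) ≤ (Nat.clog 2 N : ℝ) := by exact_mod_cast h2
    linarith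
  have h8 : ((Nat.clog 2 N : ℝ) - 1) * 0.5 ≤ ((Nat.clog 2 N : ℝ) - 1) * Real.log 2 :=
    mul_le_mul_of_nonneg_left (by linarith) h7
  linarith

theorem exists_log_clog_le : ∃ K : ℝ, 0 < K ∧ ∀ N : ℕ, 3 ≤ N →
    Real.log ((Nat.clog 2 N : ℝ) + 3) ≤ K * Real.log (Real.log N) := by
  have hδ := log_log_three_pos
  refine ⟨Real.log 6 / Real.log (Real.log 3) + 1, ?_, fun N hN => ?_⟩
  · have : 0 < Real.log 6 := Real.log_pos (by norm_num)
    positivity
  · have h0 : (3 : ℝ) ≤ N := by exact_mod_cast hN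
    have h1 := one_lt_log h0
    have h2 := clog_le hN
    have h3 : Real.log ((Nat.clog 2 N : ℝ) + 3) ≤ Real.log (6 * Real.log N) := by
      refine Real.log_le_log (by positivity) ?_
      linarith
    rw [Real.log_mul (by norm_num) (by linarith)] at h3
    have h4 := log_log_ge h0
    have h5 : Real.log 6 ≤ Real.log 6 / Real.log (Real.log 3) * Real.log (Real.log N) := by
      rw [div_mul_eq_mul_div, le_div_iff₀ hδ]
      exact mul_le_mul_of_nonneg_left h4 (Real.log_nonneg (by norm_num))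
    linarith

end Pool.Agent.KUB
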