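import Mathlib
import Pool.Agent.KUB.Fnl
import Pool.Agent.KUB.Lim
import Pool.Agent.KUB.Hdim
import Pool.Agent.KUB.Logs

set_option autoImplicit false

/-!
KUB module MainE: for every badly approximable `α` the `β` with
`D_N^* ≤ C (log N)² loglog N / N` have full Hausdorff dimension.

`L t = Nat.log 2 (t+2) ≥ 1`; `Nat.log 2 (2n+u+3) ≤ Nat.log 2 ((n+2) * 4^(u+1))`
`= Nat.log 2 (n+2) + 2(u+1) ≤ 3(u+1) L n`.
`dimH_eq_one` with `exists_point` gives dimension one for `Good α L`; `disc_le` gives for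
`β ∈ Good α L` the bound `C n² L n`, `n = Nat.clog 2 N`; for `N ≥ 3`: `n ≤ 3 log N`,
`L n = ⌊log₂(n+2)⌋ ≤ C loglog N` (`loglog 3 > 0`).
-/

namespace Pool.Agent.KUB

open Pool.Agent.FIB (nn boxCount)
open scoped ENNReal

theorem one_le_log_add_two (t : ℕ) : 1 ≤ Nat.log 2 (t + 2) :=
  Nat.log_pos (by norm_num) (by omega)

theorem log_mul_two_pow {m : ℕ} (hm : m ≠ 0) (k : ℕ) :
    Nat.log 2 (m * 2 ^ k) = Nat.log 2 m + k := by
  induction k with
  | zero => simp
  | succ k ih =>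
    rw [pow_succ, ← mul_assoc, Nat.log_mul_base (by norm_num) (by positivity), ih]
    rfl

theorem log_growth (n u : ℕ) :
    Nat.log 2 (2 * n + u + 1 + 2) ≤ 3 * (u + 1) * Nat.log 2 (n + 2) := by
  have h1 : 2 * n + u + 1 + 2 ≤ (n + 2) * 2 ^ (2 * (u + 1)) := by
    have h2 : u + 4 ≤ 2 ^ (2 * (u + 1)) := by
      induction u with
      | zero => norm_num
      | succ k ih =>
        have h3 : 2 ^ (2 * (k + 1 + 1)) = 4 * 2 ^ (2 * (k + 1)) := by ring
        rw [h3]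
        omega
    calc 2 * n + u + 1 + 2 ≤ (n + 2) * (u + 4) := by nlinarith
      _ ≤ (n + 2) * 2 ^ (2 * (u + 1)) := Nat.mul_le_mul_left _ h2
  have h2 : Nat.log 2 ((n + 2) * 2 ^ (2 * (u + 1))) = Nat.log 2 (n + 2) + 2 * (u + 1) :=
    log_mul_two_pow (by omega) _
  have h3 := one_le_log_add_two n
  calc Nat.log 2 (2 * n + u + 1 + 2) ≤ Nat.log 2 ((n + 2) * 2 ^ (2 * (u + 1))) :=
        Nat.log_mono_right h1
    _ = Nat.log 2 (n + 2) + 2 * (u + 1) := h2
    _ ≤ 3 * (u + 1) * Nat.log 2 (n + 2) := by nlinarith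

theorem main_E {α c : ℝ} (hα : BA α c) :
    dimH {β : ℝ | ∃ C : ℝ, ∀ N : ℕ, 3 ≤ N → ∀ a b : ℝ, 0 ≤ a → a ≤ 1 → 0 ≤ b → b ≤ 1 →
      |(boxCount α β N a b : ℝ) - N * (a * b)| ≤
        C * Real.log N ^ 2 * Real.log (Real.log N)} = 1 := by
  set L : ℕ → ℝ := fun t => (Nat.log 2 (t + 2) : ℝ) with hLdef
  have h1 : dimH (Good α L) = 1 :=
    dimH_eq_one fun s hs0 hs1 xs ds hd hsum => exists_point hα hs0 hs1 xs ds hd hsum
  have hL1 : ∀ t, 1 ≤ L t := fun t => by
    have := one_le_log_add_two t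
    simp only [hLdef]
    exact_mod_cast this
  have hL : ∀ n u : ℕ, L (2 * n + u + 1) ≤ 3 * (u + 1) ^ 1 * L n := by
    intro n u
    have := log_growth n u
    simp only [hLdef, pow_one]
    exact_mod_cast this
  refine le_antisymm ?_ ?_
  · calc dimH _ ≤ dimH (Set.univ : Set ℝ) := dimH_mono (Set.subset_univ _)
      _ = 1 := Real.dimH_univ
  · rw [← h1]
    refine dimH_mono fun β hβ => ?_
    obtain ⟨C, hC, hdisc⟩ := disc_le hα hβ hL1 (C₀ := 3) (p := 1) (by norm_num) hL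
    obtain ⟨K, hK, hlogK⟩ := exists_log_clog_le
    refine ⟨C * 9 * (2 * K), fun N hN a b ha0 ha1 hb0 hb1 => ?_⟩
    refine (hdisc N (by omega) a b ha0 ha1 hb0 hb1).trans ?_
    have h2 := clog_le hN
    have h3 := hlogK N hN
    have h0 : (3 : ℝ) ≤ N := by exact_mod_cast hN
    have h4 := one_lt_log h0
    have h5 : 0 < Real.log (Real.log N) := lt_of_lt_of_le log_log_three_pos (log_log_ge h0)
    have h6 : L (Nat.clog 2 N) ≤ 2 * K * Real.log (Real.log N) := by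
      have h7 : 2 ^ Nat.log 2 (Nat.clog 2 N + 2) ≤ Nat.clog 2 N + 2 :=
        Nat.pow_log_le_self 2 (by omega)
      have h8 : (Nat.log 2 (Nat.clog 2 N + 2) : ℝ) * Real.log 2 ≤
          Real.log ((Nat.clog 2 N : ℝ) + 3) := by
        rw [← Real.log_pow]
        refine Real.log_le_log (by positivity) ?_
        have h9 : ((2 : ℝ) ^ Nat.log 2 (Nat.clog 2 N + 2)) ≤ (Nat.clog 2 N : ℝ) + 2 := by
          exact_mod_cast h7
        linarith
      have h10 := Real.log_two_gt_d9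
      have h11 : (0 : ℝ) ≤ (Nat.log 2 (Nat.clog 2 N + 2) : ℝ) := Nat.cast_nonneg _
      have h12 : (Nat.log 2 (Nat.clog 2 N + 2) : ℝ) * (1 / 2) ≤
          (Nat.log 2 (Nat.clog 2 N + 2) : ℝ) * Real.log 2 :=
        mul_le_mul_of_nonneg_left (by linarith) h11
      simp only [hLdef]
      linarith
    have h13 : 0 ≤ L (Nat.clog 2 N) := le_trans zero_le_one (hL1 _)
    calc C * (Nat.clog 2 N : ℝ) ^ 2 * L (Nat.clog 2 N)
        ≤ C * (3 * Real.log N) ^ 2 * (2 * K * Real.log (Real.log N)) := by gcongr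
      _ = C * 9 * (2 * K) * Real.log N ^ 2 * Real.log (Real.log N) := by ring

end Pool.Agent.KUB
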