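import Mathlib
import Pool.Agent.KUB.Fnl
import Pool.Agent.KUB.Ae
import Pool.Agent.KUB.Logs

set_option autoImplicit false

/-!
KUB module MainF: for every badly approximable `α` and almost every `β`,
`D_N^* ≤ C (log N)² (loglog N)^{2+ε} / N`.

`L t = (log(t+3))^{2+ε} ≥ 1` (`log 3 > 1`); `log(2n+u+4) ≤ log((n+3)(u+4)) ≤ log(n+3) + (u+3) ≤
4(u+1) log(n+3)`, so `L(2n+u+1) ≤ (4(u+1))^{2+ε} L n ≤ C₀ (u+1)^p L n` with `p = ⌈2+ε⌉₊`,
`C₀ = 4^{2+ε}`.  Then `disc_le`, and for `N ≥ 16`: `n = Nat.clog 2 N ≤ 3 log N`,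
`L n ≤ C (loglog N)^{2+ε}`.
-/

namespace Pool.Agent.KUB

open Pool.Agent.FIB (nn boxCount)
open scoped ENNReal

theorem main_F {α c : ℝ} (hα : BA α c) {ε : ℝ} (hε : 0 < ε) :
    ∀ᵐ β : ℝ, ∃ C : ℝ, ∀ N : ℕ, 16 ≤ N → ∀ a b : ℝ, 0 ≤ a → a ≤ 1 → 0 ≤ b → b ≤ 1 →
      |(boxCount α β N a b : ℝ) - N * (a * b)| ≤
        C * Real.log N ^ 2 * Real.log (Real.log N) ^ (2 + ε) := by
  filter_upwards [ae_good hα hε] with β hβ
  have hlog : ∀ t : ℕ, 1 ≤ Real.log ((t : ℝ) + 3) := fun t =>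
    (one_lt_log (by have := Nat.cast_nonneg (α := ℝ) t; linarith)).le
  have hL1 : ∀ t : ℕ, 1 ≤ (Real.log ((t : ℝ) + 3)) ^ (2 + ε) := fun t =>
    Real.one_le_rpow (hlog t) (by linarith)
  have hL : ∀ n u : ℕ, (Real.log (((2 * n + u + 1 : ℕ) : ℝ) + 3)) ^ (2 + ε) ≤
      (4 : ℝ) ^ (2 + ε) * ((u : ℝ) + 1) ^ ⌈2 + ε⌉₊ * (Real.log ((n : ℝ) + 3)) ^ (2 + ε) := by
    intro n u
    have hn0 : (0 : ℝ) ≤ n := Nat.cast_nonneg n
    have hu0 : (0 : ℝ) ≤ u := Nat.cast_nonneg u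
    have h1 : Real.log (((2 * n + u + 1 : ℕ) : ℝ) + 3) ≤ 4 * (u + 1) * Real.log ((n : ℝ) + 3) := by
      have h2 : Real.log (((2 * n + u + 1 : ℕ) : ℝ) + 3) ≤
          Real.log (((n : ℝ) + 3) * (u + 4)) := by
        refine Real.log_le_log (by positivity) ?_
        push_cast
        nlinarith [mul_nonneg hn0 hu0]
      rw [Real.log_mul (by positivity) (by positivity)] at h2
      have h3 : Real.log ((u : ℝ) + 4) ≤ u + 3 := by
        have := Real.log_le_sub_one_of_pos (show (0 : ℝ) < (u : ℝ) + 4 by positivity)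
        linarith
      have h4 := hlog n
      nlinarith
    calc (Real.log (((2 * n + u + 1 : ℕ) : ℝ) + 3)) ^ (2 + ε)
        ≤ (4 * (u + 1) * Real.log ((n : ℝ) + 3)) ^ (2 + ε) :=
          Real.rpow_le_rpow (le_trans zero_le_one (hlog _)) h1 (by linarith)
      _ = (4 : ℝ) ^ (2 + ε) * ((u : ℝ) + 1) ^ (2 + ε) * (Real.log ((n : ℝ) + 3)) ^ (2 + ε) := by
          rw [Real.mul_rpow (by positivity) (le_trans zero_le_one (hlog n)),
            Real.mul_rpow (by norm_num) (by positivity)]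
      _ ≤ (4 : ℝ) ^ (2 + ε) * ((u : ℝ) + 1) ^ ⌈2 + ε⌉₊ *
          (Real.log ((n : ℝ) + 3)) ^ (2 + ε) := by
          have h5 : ((u : ℝ) + 1) ^ (2 + ε) ≤ ((u : ℝ) + 1) ^ ⌈2 + ε⌉₊ := by
            rw [← Real.rpow_natCast]
            exact Real.rpow_le_rpow_of_exponent_le (by linarith) (Nat.le_ceil _)
          have h6 : 0 ≤ (Real.log ((n : ℝ) + 3)) ^ (2 + ε) := le_trans zero_le_one (hL1 n)
          gcongr
  obtain ⟨C, hC, hdisc⟩ := disc_le hα hβ hL1 (C₀ := (4 : ℝ) ^ (2 + ε)) (p := ⌈2 + ε⌉₊)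
    (by positivity) hL
  obtain ⟨K, hK, hlogK⟩ := exists_log_clog_le
  refine ⟨C * 9 * K ^ (2 + ε), fun N hN a b ha0 ha1 hb0 hb1 => ?_⟩
  refine (hdisc N (by omega) a b ha0 ha1 hb0 hb1).trans ?_
  have hN3 : 3 ≤ N := by omega
  have h1 := clog_le hN3
  have h2 := hlogK N hN3
  have h0 : (3 : ℝ) ≤ N := by exact_mod_cast hN3
  have h3 := one_lt_log h0
  have h4 : 0 < Real.log (Real.log N) := lt_of_lt_of_le log_log_three_pos (log_log_ge h0)
  calc C * (Nat.clog 2 N : ℝ) ^ 2 * (Real.log ((Nat.clog 2 N : ℝ) + 3)) ^ (2 + ε)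
      ≤ C * (3 * Real.log N) ^ 2 * (K * Real.log (Real.log N)) ^ (2 + ε) := by
        have h5 : (Real.log ((Nat.clog 2 N : ℝ) + 3)) ^ (2 + ε) ≤
            (K * Real.log (Real.log N)) ^ (2 + ε) :=
          Real.rpow_le_rpow (le_trans zero_le_one (hlog _)) h2 (by linarith)
        have h6 : (0 : ℝ) ≤ (Real.log ((Nat.clog 2 N : ℝ) + 3)) ^ (2 + ε) :=
          le_trans zero_le_one (hL1 _)
        gcongr
    _ = C * 9 * K ^ (2 + ε) * Real.log N ^ 2 * Real.log (Real.log N) ^ (2 + ε) := by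
        rw [Real.mul_rpow hK.le h4.le]
        ring

end Pool.Agent.KUB
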